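import Pool.Agent.Lib.Poly.Gauss

/-!
Running times of the form `(N + 2) ^ (c * (e + 1))` by padding.
-/

namespace Pool.Agent.Work.MP_0bf9cb_lc

open Pool.Agent.Lib.Poly Turing

instance encSub {α : Type} [Enc α] (p : α → Prop) : Enc (Subtype p) :=
  ⟨fun x => enc x.1, fun _ _ h => Subtype.ext (Enc.inj h)⟩

variable {α β : Type} [Enc α] [Enc β]

theorem pt_val (p : α → Prop) : PT (Subtype.val : Subtype p → α) := PT.cast fun _ => rfl

theorem poly_le_pow {t : ℕ → ℕ} (ht : IsPoly t) : ∃ c, ∀ w, 2 ≤ w → t w ≤ w ^ c := by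
  obtain ⟨p, hp⟩ := ht
  simp only [hp]
  clear hp
  induction p using Polynomial.induction_on' with
  | add p q hp hq =>
    obtain ⟨a, ha⟩ := hp
    obtain ⟨b, hb⟩ := hq
    refine ⟨a + b + 1, fun w hw => ?_⟩
    have h1 := (ha w hw).trans (Nat.pow_le_pow_right (by omega) (Nat.le_add_right a b))
    have h2 := (hb w hw).trans (Nat.pow_le_pow_right (by omega) (Nat.le_add_left b a))
    rw [Polynomial.eval_add, pow_succ]
    nlinarith
  | monomial k a =>
    refine ⟨a + k, fun w hw => ?_⟩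
    rw [Polynomial.eval_monomial, pow_add]
    exact Nat.mul_le_mul_right _ (Nat.lt_two_pow_self.le.trans (Nat.pow_le_pow_left hw a))

/-- The padding length. -/
def pad (e : α → ℕ) (a : α) : ℕ := (sz a + 2) ^ (e a + 1)

theorem le_pad (e : α → ℕ) (a : α) : sz a + 2 ≤ pad e a :=
  Nat.le_self_pow (by omega) _

theorem pad_run {e : α → ℕ} (he : PT e) : ∃ (P : Prog) (t : ℕ → ℕ), IsPoly t ∧ ∀ a,
    Run P (single (enc a)) (single (enc (a, pad e a))) (t (pad e a)) := by
  let f : α × ℕ → α × ℕ := fun p => (p.1, p.2 * (sz p.1 + 2))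
  have hf : PT f := by unfold f; fun_prop
  have key : ∀ i a, f^[i] (a, 1) = (a, (sz a + 2) ^ i) := by
    intro i a
    induction i with
    | zero => rfl
    | succ i ih => rw [Function.iterate_succ_apply', ih, pow_succ]
  have hN : PT fun a => e a + 1 := by fun_prop
  have hi : PT fun a : α => (a, 1) := by fun_prop
  obtain ⟨s, hs, hs'⟩ := hN.size
  obtain ⟨P, t, ht, h1⟩ := hf
  obtain ⟨Q, u, hu, h2⟩ := hN
  obtain ⟨R, v, hv, h3⟩ := hi
  refine ⟨.seq dupP (.seq (R.rename (sh 0)) (.seq (Q.rename (sh 1))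
    (.loop 1 Option.isSome (.seq (.pop 1) (P.rename (sh 0)))))),
    fun n => n * 9 + 2 + (v n + (u n + (s n * (t (3 * n) + 2) + 1))), by fun_prop, fun a => ?_⟩
  have hp := le_pad e a
  have h4 := PT.loop_aux ht h1 (3 * pad e a) (e a + 1) (a, 1) fun i hi => by
    have : (sz a + 2) ^ i ≤ pad e a := Nat.pow_le_pow_right (by omega) hi
    rw [key, sz_pair, sz_nat]
    omega
  rw [key] at h4
  rw [single_eq, single_eq]
  refine ((run_dup _).mono ?_).seq (((call0 (h3 a) _ _).mono (hv.mono (by omega))).seq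
    (((call1 (h2 a) _ _).mono (hu.mono (by omega))).seq (h4.mono ?_)))
  · unfold sz at hp; omega
  · have := (hs' a).trans (hs.mono (show sz a ≤ pad e a by omega))
    rw [sz_nat] at this
    exact Nat.add_le_add_right (Nat.mul_le_mul_right _ this) _

/-- A function that is polynomial time on padded promise inputs runs in time
`(N + 2) ^ (c * (e + 1))`. -/
theorem exists_tm {e : α → ℕ} (he : PT e) (G : α → Prop) (f : α → Bool)
    (hf : PT fun p : {p : α × ℕ // G p.1 ∧ p.2 = pad e p.1} => f p.1.1) :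
    ∃ (M : TM2ComputableAux Bool Bool) (c : ℕ), (∀ k, Finite (M.tm.Γ k)) ∧ ∀ a, G a →
      ∀ e', e a ≤ e' → Nonempty (TM2OutputsInTime M.tm (List.map M.inputAlphabet.invFun (enc a))
        (some (List.map M.outputAlphabet.invFun [f a])) ((sz a + 2) ^ (c * (e' + 1)))) := by
  obtain ⟨P, t, ht, h1⟩ := pad_run he
  obtain ⟨Q, u, hu, h2⟩ := hf
  obtain ⟨c, hc⟩ := poly_le_pow (t := fun n => t n + u (3 * n)) (by fun_prop)
  refine ⟨⟨(Prog.seq P Q).tm, Equiv.refl Bool, Equiv.refl Bool⟩, c,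
    fun _ => inferInstanceAs (Finite Bool), fun a ha e' he' => ?_⟩
  have hp := le_pad e a
  have h3 := (h2 ⟨(a, pad e a), ha, rfl⟩).mono (hu.mono (n := 3 * pad e a) (by
    show sz (a, pad e a) ≤ _
    rw [sz_pair, sz_nat]; omega))
  obtain ⟨s, hs1, hs2⟩ := (h1 a).seq h3
  refine ⟨⟨⟨s, ?_⟩, ?_⟩⟩
  · have := (Prog.seq P Q).tm_run hs2
    erw [List.map_id, List.map_id]
    exact this
  · refine hs1.trans ((hc _ (by omega)).trans ?_)
    rw [pad, ← pow_mul]
    exact Nat.pow_le_pow_right (by omega) (by rw [mul_comm]; exact Nat.mul_le_mul_left _ (by omega))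

/-- All tuples of length `k` with entries at most `N`. -/
def tupStep (p : ℕ × List (List ℕ)) : ℕ × List (List ℕ) :=
  (p.1, p.2.flatMap fun τ => (List.range (p.1 + 1)).map fun a => a :: τ)

def tups (N k : ℕ) : List (List ℕ) := (tupStep^[k] (N, [[]])).2

theorem tupStep_iter (N k : ℕ) : (tupStep^[k] (N, [[]])).1 = N ∧
    (tupStep^[k] (N, [[]])).2.length = (N + 1) ^ k ∧
    ∀ τ, τ ∈ (tupStep^[k] (N, [[]])).2 ↔ τ.length = k ∧ ∀ a ∈ τ, a ≤ N := by
  induction k with
  | zero => simp +contextual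
  | succ k ih =>
    rw [Function.iterate_succ_apply']
    generalize tupStep^[k] (N, [[]]) = p at ih
    obtain ⟨N', L⟩ := p
    obtain ⟨rfl, h2, h3⟩ := ih
    simp only at h2 h3
    refine ⟨rfl, by simp [tupStep, List.length_flatMap, h2, pow_succ], fun τ => ?_⟩
    simp only [tupStep, List.mem_flatMap, List.mem_map, List.mem_range, h3]
    constructor
    · rintro ⟨σ, ⟨a1, a2⟩, a, a3, rfl⟩
      refine ⟨by simp [a1], fun b hb => ?_⟩
      rcases List.mem_cons.1 hb with rfl | hb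
      · omega
      · exact a2 b hb
    · rintro ⟨a1, a2⟩
      cases τ with
      | nil => simp at a1
      | cons a σ =>
        exact ⟨σ, ⟨by simpa using a1, fun b hb => a2 b (List.mem_cons_of_mem _ hb)⟩, a,
          Nat.lt_succ_of_le (a2 a List.mem_cons_self), rfl⟩

theorem mem_tups {N k : ℕ} {τ : List ℕ} : τ ∈ tups N k ↔ τ.length = k ∧ ∀ a ∈ τ, a ≤ N :=
  (tupStep_iter N k).2.2 τ

theorem pt_tups {N k : α → ℕ} (hN : PT N) (hk : PT k) (b : ℕ → ℕ) (hb : IsPoly b)
    (h : ∀ a, (N a + 1) ^ k a ≤ b (sz a)) : PT fun a => tups (N a) (k a) := by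
  obtain ⟨s, hs, hs'⟩ := hN.size
  obtain ⟨u, hu, hu'⟩ := hk.size
  refine (PT.iterate (f := tupStep) (by unfold tupStep; fun_prop) hk
    (init := fun a => (N a, [[]])) (by fun_prop)
    (fun n => 2 * s n + 1 + b n * (2 * (u n * (2 * s n + 1)) + 1)) (by fun_prop) fun a i hi => ?_).snd
  obtain ⟨h1, h2, h3⟩ := tupStep_iter (N a) i
  generalize tupStep^[i] (N a, [[]]) = p at h1 h2 h3
  obtain ⟨N', L⟩ := p
  have a1 := hs' a
  have a2 := hu' a
  rw [sz_nat] at a1 a2
  simp only at h1 h2 h3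
  have a3 := sz_list_le L (u (sz a) * (2 * s (sz a) + 1)) fun τ hτ => by
    obtain ⟨b1, b2⟩ := (h3 τ).1 hτ
    refine (sz_list_le τ (s (sz a)) fun x hx => ?_).trans (Nat.mul_le_mul_right _ (by omega))
    rw [sz_nat]; exact (b2 x hx).trans a1
  have a4 : L.length ≤ b (sz a) := by
    rw [h2]; exact (Nat.pow_le_pow_right (by omega) hi).trans (h a)
  have a5 := a3.trans (Nat.mul_le_mul_right _ a4)
  rw [sz_pair, sz_nat]
  omega

end Pool.Agent.Work.MP_0bf9cb_lc
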