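import Pool.Agent.Work.MP_4489ea_co.Bridge
import Pool.Agent.Work.MP_0bf9cb_lc.Time
import Mathlib

-- merged part: Pool.Agent.Work.MP_0bf9cb_lc.Clock
section
/-!
Clocked simulation of an arbitrary machine inside `PT`, and exponential padding.
-/

namespace Pool.Agent.Work.MP_0bf9cb_lc

open Pool.Agent.Lib.Poly Pool.Agent.Lib.Cx Turing Pool.Agent.Work.MP_4489ea_co

/-- Total clocked simulation of a machine with a one-bit answer. -/
theorem exists_clock (M : TM2ComputableAux Bool Bool) :
    ∃ (G : List Bool × ℕ → Bool) (c : ℕ), PT G ∧ ∀ (w : List Bool) (ans : Bool) (t s : ℕ),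
      Nonempty (TM2OutputsInTime M.tm (w.map M.inputAlphabet.invFun)
        (some ([ans].map M.outputAlphabet.invFun)) t) → c * (t + 1) ≤ s → G (w, s) = ans := by
  obtain ⟨a, b, d, N, q0, qacc, qrej, k0, ι, c, hne, -, -, htime, -⟩ :=
    exists_NM M.tm M.outputAlphabet
  let ι' : Bool → Fin d := fun β => ι (M.inputAlphabet.symm β)
  let c0 : List Bool × ℕ → Fin a × (Fin b → List (Fin d)) := fun x =>
    (q0, Function.update (fun _ => []) k0 (x.1.map ι'))
  have hι : PT ι' := PT.of_finite _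
  have hinit : PT fun x => rep (c0 x) := by
    refine PT.of_eq (f := fun x : List Bool × ℕ => (q0, (List.range b).map fun j =>
      if j = k0.val then x.1.map ι' else [])) (by fun_prop) fun x => ?_
    simp only [rep, c0, Prod.mk.injEq, true_and]
    refine List.ext_getElem (by simp) fun j h1 h2 => ?_
    have hj : j < b := by simpa using h1
    simp only [List.getElem_map, List.getElem_range, List.getElem_ofFn]
    by_cases h : j = k0.val
    · have : (⟨j, hj⟩ : Fin b) = k0 := Fin.ext h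
      rw [if_pos h, this, Function.update_self]
    · rw [if_neg h, Function.update_of_ne (fun e => h (congrArg Fin.val e))]
  have hit : PT fun x : List Bool × ℕ => (lstep N)^[x.2] (rep (c0 x)) := by
    refine PT.iterate (pt_lstep N) (by fun_prop) hinit
      (fun n => 2 * a + 1 + b * (2 * ((n + n) * (2 * d + 1)) + 1))
      (by fun_prop) fun x t ht => ?_
    rw [lstep_iter]
    refine sz_rep _ _ fun k => (N.iterate_length t _ k).trans ?_
    have h1 := (length_le_sz x.1).trans (sz_fst_le x)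
    have h2 := sz_snd_le x
    rw [sz_nat] at h2
    have : ((c0 x).2 k).length ≤ sz x := by
      by_cases hk : k = k0
      · subst hk; simpa [c0] using h1
      · simp [c0, Function.update_of_ne hk]
    omega
  refine ⟨fun x => decide (((lstep N)^[x.2] (rep (c0 x))).1 = qacc), c,
    PT.deq hit.fst (PT.const _), ?_⟩
  rintro w ans t s ⟨⟨⟨n, hn⟩, hle⟩⟩ hs
  dsimp only at hle ⊢
  have h1 := htime _ (M.outputAlphabet.symm ans) n hn s
    ((Nat.mul_le_mul_left _ (Nat.add_le_add_right hle _)).trans hs)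
  rw [List.map_map] at h1
  rw [lstep_iter, rep]
  have e : c0 (w, s) = (q0, Function.update (fun _ => []) k0
      (List.map (ι ∘ M.inputAlphabet.invFun) w)) := rfl
  simp only [e, h1, Equiv.apply_symm_apply]
  cases ans
  · simpa using hne.symm
  · simp

variable {α β : Type} [Enc α] [Enc β]

theorem run_outputs {P : Prog} {x : List Bool} {ans : Bool} {t : ℕ}
    (h : Run P (single x) (single [ans]) t) :
    Nonempty (TM2OutputsInTime P.tm (x.map (Equiv.refl Bool).invFun)
      (some ([ans].map (Equiv.refl Bool).invFun)) t) := by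
  obtain ⟨s, hs1, hs2⟩ := h
  refine ⟨⟨⟨s, ?_⟩, hs1⟩⟩
  have := P.tm_run hs2
  erw [List.map_id, List.map_id]
  exact this

/-- A polynomial-time test on promise inputs extends to all inputs. -/
theorem pt_extend {p : α → Prop} {f : Subtype p → Bool} (hf : PT f) :
    ∃ g : α → Bool, PT g ∧ ∀ x : Subtype p, g x.1 = f x := by
  obtain ⟨P, t, ht, h⟩ := hf
  obtain ⟨G, c, hG, hc⟩ := exists_clock ⟨P.tm, Equiv.refl Bool, Equiv.refl Bool⟩
  have h1 := PT.isPoly ht
  exact ⟨fun a => G (enc a, c * (t (sz a) + 1)), by fun_prop, fun x =>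
    hc _ _ _ _ (run_outputs (h x)) le_rfl⟩

theorem two_pow_run : ∃ (u : ℕ → ℕ), IsPoly u ∧ ∀ {γ : Type} [Enc γ] (i : γ → α) (e : γ → ℕ),
    PT i → PT e → ∃ (P : Prog) (t : ℕ → ℕ), IsPoly t ∧ ∀ a,
      Run P (single (enc a)) (single (enc (i a, 2 ^ e a)))
        (t (sz a) * (u (t (sz a) + 2 ^ e a) + 2)) := by
  let f : α × ℕ → α × ℕ := fun p => (p.1, p.2 + p.2)
  have hf : PT f := by unfold f; fun_prop
  have key : ∀ j a, f^[j] (a, 1) = (a, 2 ^ j) := by
    intro j a
    induction j with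
    | zero => rfl
    | succ j ih => rw [Function.iterate_succ_apply', ih, pow_succ, mul_two]
  obtain ⟨P, t, ht, h1⟩ := hf
  refine ⟨t, ht, fun {γ} _ i e hi he => ?_⟩
  have hi' : PT fun a : γ => (i a, 1) := by fun_prop
  obtain ⟨s, hs, hs'⟩ := he.size
  obtain ⟨r, hr, hr'⟩ := hi.size
  obtain ⟨Q, u, hu, h2⟩ := he
  obtain ⟨R, v, hv, h3⟩ := hi'
  refine ⟨.seq dupP (.seq (R.rename (sh 0)) (.seq (Q.rename (sh 1))
    (.loop 1 Option.isSome (.seq (.pop 1) (P.rename (sh 0)))))),
    fun n => n * 9 + 2 + v n + u n + s n + 1 + (2 * r n + 1), by fun_prop, fun a => ?_⟩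
  have a1 := hr' a
  have a2 := hs' a
  rw [sz_nat] at a2
  dsimp only
  generalize hT : sz a * 9 + 2 + v (sz a) + u (sz a) + s (sz a) + 1 + (2 * r (sz a) + 1) = T
  have h4 := PT.loop_aux ht h1 (T + 2 ^ e a) (e a) (i a, 1) fun j hj => by
    have : 2 ^ j ≤ 2 ^ e a := Nat.pow_le_pow_right (by omega) hj
    rw [key, sz_pair, sz_nat]
    omega
  rw [key] at h4
  rw [single_eq, single_eq]
  refine ((run_dup _).seq ((call0 (h3 a) _ _).seq ((call1 (h2 a) _ _).seq h4))).mono ?_
  have e1 : (enc a).length = sz a := rfl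
  rw [e1]
  generalize t (T + 2 ^ e a) = X
  have : T = (T - e a) + e a := by omega
  have h5 : sz a * 9 + 2 + v (sz a) + u (sz a) + 1 ≤ T - e a := by omega
  nlinarith only [a2, hT, Nat.zero_le ((T - e a) * X)]

theorem poly_le_mul_pow {t : ℕ → ℕ} (ht : IsPoly t) :
    ∃ c, ∀ n, t n ≤ (n + 2) ^ c := by
  obtain ⟨c, hc⟩ := poly_le_pow ht
  exact ⟨c, fun n => (ht.mono (by omega)).trans (hc _ (by omega))⟩

/-- A polynomial-time test on inputs padded by `2 ^ e` gives a machine with running time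
`c * 2 ^ (d * e) * (N + 2) ^ c`, where `d` does not depend on the preprocessing and on `e`. -/
theorem exists_tm_exp {G : α × ℕ → Prop} {f : Subtype G → Bool} (hf : PT f) :
    ∃ d : ℕ, ∀ {γ : Type} [Enc γ] (i : γ → α) (e : γ → ℕ), PT i → PT e →
      ∃ (M : TM2ComputableAux Bool Bool) (c : ℕ), (∀ k, Finite (M.tm.Γ k)) ∧
        ∀ (a : γ) (h : G (i a, 2 ^ e a)),
          Nonempty (TM2OutputsInTime M.tm ((enc a).map M.inputAlphabet.invFun)
            (some ([f ⟨_, h⟩].map M.outputAlphabet.invFun)) (2 ^ (d * e a) * (sz a + 2) ^ c)) := by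
  obtain ⟨u, hu, H⟩ := two_pow_run (α := α)
  obtain ⟨Q, v, hv, h2⟩ := hf
  obtain ⟨d, hd⟩ := poly_le_pow (t := fun n => n * (u n + 2) + v n) (by fun_prop)
  refine ⟨d, fun {γ} _ i e hi he => ?_⟩
  obtain ⟨P, t, ht, h1⟩ := H i e hi he
  obtain ⟨r, hr, hr'⟩ := hi.size
  obtain ⟨c, hc⟩ := poly_le_mul_pow (t := fun n => t n + 2 * r n + 2) (by fun_prop)
  refine ⟨⟨(Prog.seq P Q).tm, Equiv.refl Bool, Equiv.refl Bool⟩, c * d,
    fun _ => inferInstanceAs (Finite Bool), fun a h => run_outputs ?_⟩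
  refine ((h1 a).seq (h2 ⟨_, h⟩)).mono ?_
  have a1 := hr' a
  have a2 := hc (sz a)
  have a3 : 1 ≤ 2 ^ e a := Nat.one_le_two_pow
  have e1 : sz (⟨(i a, 2 ^ e a), h⟩ : Subtype G) = sz (i a, 2 ^ e a) := rfl
  rw [e1, sz_pair, sz_nat]
  generalize hW : 2 ^ e a * (sz a + 2) ^ c = W
  have a4 : t (sz a) + 2 * r (sz a) + 1 + 2 ^ e a ≤ W := by
    rw [← hW]
    nlinarith only [a2, a3]
  have a5 := hd W (by omega)
  have a6 : u (t (sz a) + 2 ^ e a) ≤ u W := hu.mono (by omega)
  have a7 : v (2 * sz (i a) + 1 + 2 ^ e a) ≤ v W := hv.mono (by omega)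
  have a8 : t (sz a) * (u (t (sz a) + 2 ^ e a) + 2) ≤ W * (u W + 2) :=
    Nat.mul_le_mul (by omega) (by omega)
  have a9 : W ^ d = 2 ^ (d * e a) * (sz a + 2) ^ (c * d) := by
    rw [← hW, mul_pow, ← pow_mul, ← pow_mul, mul_comm d]
  omega

end Pool.Agent.Work.MP_0bf9cb_lc
end

-- merged part: Pool.Agent.Work.MP_0bf9cb_lc.Sparse
section
/-!
The sparsification lemma for clauses with at most three literals: the branching procedure,
its correctness and the bound on the number of leaves.
-/

namespace Pool.Agent.Work.MP_0bf9cb_lc.Sparse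

variable {α : Type} [DecidableEq α]

/-- Some clause of `F` is contained in `S`. -/
def cov (F : List (List α)) (S : List α) : Bool := F.any fun C => C.all fun x => decide (x ∈ S)

def two (F : List (List α)) (u v : α) : Bool := cov F [u, v] && !cov F [u] && !cov F [v]

def three (F : List (List α)) (u v w : α) : Bool :=
  cov F [u, v, w] && !cov F [u, v] && !cov F [u, w] && !cov F [v, w]

def P2 (X : List α) (F : List (List α)) (u : α) : List α := X.filter fun v => two F u v

def P3 (X : List α) (F : List (List α)) (u v : α) : List α := X.filter fun w => three F u v w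

def Q3 (X : List α) (F : List (List α)) (u : α) : List (List α) :=
  X.flatMap fun v => (P3 X F u v).map fun w => [v, w]

def candA (X : List α) (θ : ℕ) (F : List (List α)) : List (List α × List (List α)) :=
  (X.filter fun u => decide (θ ≤ (P2 X F u).length)).map fun u =>
    ([u], (P2 X F u).map fun v => [v])

def candB (X : List α) (θ : ℕ) (F : List (List α)) : List (List α × List (List α)) :=
  X.flatMap fun u => (X.filter fun v => decide (θ ≤ (P3 X F u v).length)).map fun v =>
    ([u, v], (P3 X F u v).map fun w => [w])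

def candC (X : List α) (θ : ℕ) (F : List (List α)) : List (List α × List (List α)) :=
  (X.filter fun u => decide (θ * θ ≤ (Q3 X F u).length)).map fun u => ([u], Q3 X F u)

def cands (X : List α) (θ : ℕ) (F : List (List α)) : List (List α × List (List α)) :=
  candA X θ F ++ (candB X θ F ++ candC X θ F)

def step (X : List α) (θ : ℕ) (F : List (List α)) : List (List (List α)) :=
  bif (cands X θ F).isEmpty then [F] else
    [((cands X θ F).headD ([], [])).1 :: F, ((cands X θ F).headD ([], [])).2 ++ F]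

def out (X : List α) (F : List (List α)) : List (List α) :=
  (bif cov F [] then [[]] else []) ++ ((X.filter fun u => cov F [u]).map fun u => [u]) ++
    (X.flatMap fun u => (P2 X F u).map fun v => [u, v]) ++
    (X.flatMap fun u => (Q3 X F u).map fun C => u :: C)

def run (X : List α) (θ : ℕ) (F : List (List α)) (i : ℕ) : List (List (List α)) :=
  (fun L => L.flatMap (step X θ))^[i] [F]

def Hit (h : α → Prop) (F : List (List α)) : Prop := ∀ C ∈ F, ∃ x ∈ C, h x

def Ok (X : List α) (F : List (List α)) : Prop := ∀ C ∈ F, C.length ≤ 3 ∧ ∀ x ∈ C, x ∈ X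

variable {X : List α} {θ : ℕ} {F : List (List α)}

theorem cov_iff {S : List α} : cov F S = true ↔ ∃ C ∈ F, ∀ x ∈ C, x ∈ S := by simp [cov]

theorem cov_append (N S) : cov (N ++ F) S = (cov N S || cov F S) := by simp [cov]

theorem cov_mono {S T : List α} (h : cov F S = true) (hs : ∀ x ∈ S, x ∈ T) : cov F T = true := by
  obtain ⟨C, h1, h2⟩ := cov_iff.1 h
  exact cov_iff.2 ⟨C, h1, fun x hx => hs x (h2 x hx)⟩

theorem cov_congr {S T : List α} (hs : ∀ x, x ∈ S ↔ x ∈ T) : cov F S = cov F T := by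
  rw [Bool.eq_iff_iff]
  exact ⟨fun h => cov_mono h fun x => (hs x).1, fun h => cov_mono h fun x => (hs x).2⟩

theorem Hit.cov {h : α → Prop} {S : List α} (hF : Hit h F) (hc : cov F S = true) :
    ∃ x ∈ S, h x := by
  obtain ⟨C, h1, h2⟩ := cov_iff.1 hc
  obtain ⟨x, h3, h4⟩ := hF C h1
  exact ⟨x, h2 x h3, h4⟩

theorem two_iff {u v : α} : two F u v = true ↔
    cov F [u, v] = true ∧ cov F [u] = false ∧ cov F [v] = false := by simp [two, and_assoc]

theorem three_iff {u v w : α} : three F u v w = true ↔ cov F [u, v, w] = true ∧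
    cov F [u, v] = false ∧ cov F [u, w] = false ∧ cov F [v, w] = false := by
  simp [three, and_assoc]

theorem cov_swap (u v : α) : cov F [u, v] = cov F [v, u] := cov_congr (by simp [or_comm])

theorem two_swap (u v : α) : two F u v = two F v u := by
  rw [Bool.eq_iff_iff, two_iff, two_iff, cov_swap]; tauto

theorem three_swap (u v w : α) : three F u v w = three F u w v := by
  rw [Bool.eq_iff_iff, three_iff, three_iff, cov_swap v w,
    cov_congr (S := [u, v, w]) (T := [u, w, v]) (by simp [or_comm])]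
  tauto

theorem not_cov_left {u v : α} (h : cov F [u, v] = false) : cov F [u] = false := by
  by_contra h'
  rw [cov_mono (T := [u, v]) (Bool.not_eq_false _ ▸ h') (by simp)] at h
  cases h

theorem not_cov_right {u v : α} (h : cov F [u, v] = false) : cov F [v] = false :=
  not_cov_left (cov_swap u v ▸ h)

theorem three_ne {u v w : α} (h : three F u v w = true) : u ≠ v ∧ v ≠ w := by
  obtain ⟨h1, h2, h3, -⟩ := three_iff.1 h
  constructor
  · rintro rfl
    rw [cov_mono (T := [u, w]) h1 (by simp)] at h3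
    cases h3
  · rintro rfl
    rw [cov_mono (T := [u, v]) h1 (by simp)] at h2
    cases h2

theorem mem_Q3 {u : α} {C : List α} :
    C ∈ Q3 X F u ↔ ∃ v ∈ X, ∃ w ∈ X, three F u v w = true ∧ C = [v, w] := by
  simp only [Q3, P3, List.mem_flatMap, List.mem_map, List.mem_filter, and_assoc, eq_comm (a := C)]

/-! ### The potential -/

def deg (X : List α) (F : List (List α)) (u : α) : ℕ :=
  (X.toFinset.filter fun v => two F u v = true).card

def pot (X : List α) (θ : ℕ) (F : List (List α)) : ℕ :=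
  5 * θ * (X.toFinset.filter fun u => cov F [u] = true).card +
    if ∀ u ∈ X, deg X F u < 2 * θ then ∑ u ∈ X.toFinset, deg X F u else 0

theorem length_filter (hX : X.Nodup) (p : α → Bool) :
    (X.filter p).length = (X.toFinset.filter fun v => p v = true).card := by
  rw [← List.toFinset_filter, List.toFinset_card_of_nodup (hX.filter _)]

theorem pot_le : pot X θ F ≤ 7 * θ * X.length := by
  have h1 := X.toFinset_card_le
  have h2 := Nat.mul_le_mul_left (5 * θ) ((Finset.card_filter_le X.toFinset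
    fun u => cov F [u] = true).trans h1)
  unfold pot
  split_ifs with h
  · have := Finset.sum_le_card_nsmul X.toFinset (deg X F) (2 * θ) fun u hu =>
      (h u (List.mem_toFinset.1 hu)).le
    have h3 := Nat.mul_le_mul_right (2 * θ) h1
    rw [smul_eq_mul] at this
    linarith only [h2, this, h3]
  · linarith only [h2, mul_nonneg_of_nonpos_of_nonpos (Mathlib.Tactic.Linarith.sub_nonpos_of_le (Mathlib.Tactic.Linarith.natCast_nonneg ℤ X.length)) (Mathlib.Tactic.Linarith.sub_nonpos_of_le (Mathlib.Tactic.Linarith.natCast_nonneg ℤ θ))]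

theorem pot_units (P : List α) (hP : P.Nodup) (h1 : ∀ x ∈ P, x ∈ X ∧ cov F [x] = false) :
    pot X θ F + θ * P.length ≤ pot X θ (P.map (fun v => [v]) ++ F) := by
  set F' := P.map (fun v => [v]) ++ F with hF'
  have c1 : ∀ x, cov F' [x] = true ↔ x ∈ P ∨ cov F [x] = true := fun x => by
    simp [hF', cov_append, cov_iff]
  have c2 : ∀ x y, two F' x y = true ↔ two F x y = true ∧ x ∉ P ∧ y ∉ P := fun x y => by
    have : cov F' [x, y] = true ↔ x ∈ P ∨ y ∈ P ∨ cov F [x, y] = true := by
      simp only [hF', cov_append, Bool.or_eq_true, ← or_assoc]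
      refine or_congr_left ?_
      simp only [cov_iff, List.mem_map]
      constructor
      · rintro ⟨_, ⟨v, hv, rfl⟩, h⟩
        have := h v (by simp)
        simp only [List.mem_cons, List.not_mem_nil, or_false] at this
        rcases this with rfl | rfl
        exacts [Or.inl hv, Or.inr hv]
      · rintro (h | h)
        exacts [⟨_, ⟨x, h, rfl⟩, by simp⟩, ⟨_, ⟨y, h, rfl⟩, by simp⟩]
    simp only [two_iff, ← Bool.not_eq_true, c1, this]
    (clear * - this; grind)
  have hs : P.toFinset ⊆ X.toFinset := fun x hx =>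
    List.mem_toFinset.2 (h1 x (List.mem_toFinset.1 hx)).1
  have hc := List.toFinset_card_of_nodup hP
  have e1 : (X.toFinset.filter fun u => cov F' [u] = true).card =
      (X.toFinset.filter fun u => cov F [u] = true).card + P.length := by
    rw [← hc, ← Finset.card_union_of_disjoint]
    · congr 1
      ext x
      have := h1 x
      simp only [Finset.mem_filter, List.mem_toFinset, c1, Finset.mem_union]
      (clear * - this; tauto)
    · rw [Finset.disjoint_right]
      intro x hx hx'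
      have := (h1 x (List.mem_toFinset.1 hx)).2
      rw [(Finset.mem_filter.1 hx').2] at this
      cases this
  unfold pot
  rw [e1]
  by_cases h : ∀ u ∈ X, deg X F u < 2 * θ
  swap
  · rw [if_neg h]; linarith only [Nat.zero_le (if ∀ u ∈ X, deg X F' u < 2 * θ then
      ∑ u ∈ X.toFinset, deg X F' u else 0), mul_nonneg_of_nonpos_of_nonpos (Mathlib.Tactic.Linarith.sub_nonpos_of_le (Mathlib.Tactic.Linarith.natCast_nonneg ℤ P.length)) (Mathlib.Tactic.Linarith.sub_nonpos_of_le (Mathlib.Tactic.Linarith.natCast_nonneg ℤ θ))]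
  have d1 : ∀ u, deg X F' u ≤ deg X F u := fun u =>
    Finset.card_le_card fun v hv => by
      rw [Finset.mem_filter] at hv ⊢
      exact ⟨hv.1, ((c2 _ _).1 hv.2).1⟩
  rw [if_pos h, if_pos fun u hu => (d1 u).trans_lt (h u hu)]
  have d2 : ∀ u, deg X F u ≤ deg X F' u + ((if u ∈ P.toFinset then deg X F u else 0) +
      ∑ v ∈ P.toFinset, if two F v u = true then 1 else 0) := fun u => by
    split_ifs with hu
    · omega
    · rw [← Finset.card_filter, zero_add]
      refine le_trans (Finset.card_le_card fun v hv => ?_) (Finset.card_union_le _ _)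
      simp only [Finset.mem_filter, Finset.mem_union, List.mem_toFinset, c2, two_swap v u]
        at hv hu ⊢
      tauto
  have d3 := Finset.sum_le_sum (s := X.toFinset) fun u _ => d2 u
  rw [Finset.sum_add_distrib, Finset.sum_add_distrib, Finset.sum_ite_mem,
    Finset.inter_eq_right.2 hs, Finset.sum_comm] at d3
  simp only [← Finset.card_filter] at d3
  have d4 := Finset.sum_le_card_nsmul P.toFinset (deg X F) (2 * θ) fun u hu =>
    (h u (List.mem_toFinset.1 (hs hu))).le
  rw [smul_eq_mul, hc] at d4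
  have d5 : ∑ v ∈ P.toFinset, (X.toFinset.filter fun u => two F v u = true).card =
      ∑ v ∈ P.toFinset, deg X F v := rfl
  linarith only [d3, d4, d5]

theorem pot_pairs (N : List (List α)) (R : α → α → Prop) [∀ x y, Decidable (R x y)]
    (hs : ∀ x y, R x y → R y x) (h1 : ∀ x y, R x y → x ≠ y ∧ cov F [x, y] = false)
    (h2 : ∀ C ∈ N, ∃ x y, R x y ∧ C = [x, y])
    (h3 : ∀ x ∈ X, ∀ y ∈ X, R x y → [x, y] ∈ N ∨ [y, x] ∈ N)
    (h4 : ∀ x ∈ X, deg X F x + (X.toFinset.filter (R x)).card < 2 * θ) :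
    pot X θ F + ∑ x ∈ X.toFinset, (X.toFinset.filter (R x)).card ≤ pot X θ (N ++ F) := by
  have c1 : ∀ x, cov (N ++ F) [x] = cov F [x] := fun x => by
    rw [cov_append]
    cases h : cov N [x]
    · rfl
    · obtain ⟨C, a1, a2⟩ := cov_iff.1 h
      obtain ⟨u, v, a3, rfl⟩ := h2 C a1
      have := (h1 u v a3).1
      simp only [List.mem_cons, List.not_mem_nil, or_false, forall_eq_or_imp, forall_eq] at a2
      exact absurd (a2.1.trans a2.2.symm) this
  have c2 : ∀ x ∈ X, ∀ y ∈ X, (cov N [x, y] = true ↔ R x y) := fun x hx y hy => by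
    rw [cov_iff]
    constructor
    · rintro ⟨C, a1, a2⟩
      obtain ⟨u, v, a3, rfl⟩ := h2 C a1
      have := (h1 u v a3).1
      simp only [List.mem_cons, List.not_mem_nil, or_false, forall_eq_or_imp, forall_eq] at a2
      obtain ⟨rfl | rfl, rfl | rfl⟩ := a2
      exacts [absurd rfl this, a3, hs _ _ a3, absurd rfl this]
    · intro h
      rcases h3 x hx y hy h with h | h <;> exact ⟨_, h, by simp⟩
  have d1 : ∀ x ∈ X, deg X (N ++ F) x = deg X F x + (X.toFinset.filter (R x)).card := by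
    intro x hx
    unfold deg
    rw [← Finset.card_union_of_disjoint, ← Finset.filter_or]
    · congr 1
      refine Finset.filter_congr fun y hy => ?_
      rw [two_iff, two_iff, c1, c1, cov_append, Bool.or_eq_true, c2 x hx y (List.mem_toFinset.1 hy)]
      have := fun h => not_cov_left (h1 x y h).2
      have := fun h => not_cov_right (h1 x y h).2
      grind
    · rw [Finset.disjoint_filter]
      intro y _ a1 a2
      have := (h1 x y a2).2
      rw [(two_iff.1 a1).1] at this
      cases this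
  unfold pot
  simp only [c1]
  rw [if_pos (c := ∀ u ∈ X, deg X (N ++ F) u < 2 * θ) fun u hu => d1 u hu ▸ h4 u hu,
    Finset.sum_congr rfl fun u hu => d1 u (List.mem_toFinset.1 hu), Finset.sum_add_distrib]
  split_ifs <;> omega

theorem length_Q3 (hX : X.Nodup) (u : α) : (Q3 X F u).length =
    ∑ x ∈ X.toFinset, (X.toFinset.filter fun y => three F u x y = true).card := by
  rw [Q3, List.length_flatMap, List.sum_toFinset _ hX]
  simp only [List.length_map, P3, length_filter hX]

theorem length_P2 (hX : X.Nodup) (u : α) : (P2 X F u).length = deg X F u := length_filter hX _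

theorem pot_unit {u : α} (hθ : 1 ≤ θ) (hu : u ∈ X) (h : cov F [u] = false) :
    pot X θ F + 1 ≤ pot X θ ([u] :: F) := by
  have := pot_units (θ := θ) (X := X) (F := F) [u] (by simp) (by simp [hu, h])
  simp only [List.map_cons, List.map_nil, List.length_singleton, List.singleton_append] at this
  omega

theorem candA_nil (hX : X.Nodup) (h : candA X θ F = []) : ∀ u ∈ X, deg X F u < θ := by
  simpa [candA, length_P2 hX] using h

theorem candB_nil (h : candB X θ F = []) : ∀ u ∈ X, ∀ v ∈ X, (P3 X F u v).length < θ := by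
  simpa [candB] using h

theorem candC_nil (h : candC X θ F = []) : ∀ u ∈ X, (Q3 X F u).length < θ * θ := by
  simpa [candC] using h

theorem exists_of_length {β : Type} {l : List β} {n : ℕ} (h : n ≤ l.length) (hn : 1 ≤ n) :
    ∃ x, x ∈ l := List.exists_mem_of_length_pos (by omega)

theorem head_spec (hX : X.Nodup) (hθ : 1 ≤ θ) {p L} (h : cands X θ F = p :: L) :
    (∀ a, Hit a F → (∃ x ∈ p.1, a x) ∨ Hit a p.2) ∧ Ok X (p.1 :: p.2) ∧
      p.2.length ≤ X.length * X.length ∧ pot X θ F + 1 ≤ pot X θ (p.1 :: F) ∧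
      pot X θ F + θ * θ ≤ pot X θ (p.2 ++ F) := by
  have sq : X.length ≤ X.length * X.length := Nat.le_mul_self _
  have hcase : p ∈ candA X θ F ∨ (candA X θ F = [] ∧ p ∈ candB X θ F) ∨
      (candA X θ F = [] ∧ candB X θ F = [] ∧ p ∈ candC X θ F) := by
    unfold cands at h
    generalize candA X θ F = A at h
    generalize candB X θ F = B at h
    generalize candC X θ F = C at h
    rcases A with _ | ⟨a, A⟩
    · rcases B with _ | ⟨b, B⟩ <;> simp_all
    · simp_all
  rcases hcase with h | ⟨hA, h⟩ | ⟨hA, hB, h⟩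
  · simp only [candA, List.mem_map, List.mem_filter, decide_eq_true_eq] at h
    obtain ⟨u, ⟨hu, h1⟩, rfl⟩ := h
    have m : ∀ v, v ∈ P2 X F u ↔ v ∈ X ∧ two F u v = true := by simp [P2]
    obtain ⟨v, hv⟩ := exists_of_length h1 hθ
    refine ⟨fun a ha => ?_, ?_, ?_, pot_unit hθ hu (two_iff.1 ((m v).1 hv).2).2.1, ?_⟩
    · by_cases h : a u
      · exact Or.inl ⟨u, by simp, h⟩
      · refine Or.inr fun C hC => ?_
        obtain ⟨w, hw, rfl⟩ := List.mem_map.1 hC
        simpa [h] using ha.cov (two_iff.1 ((m w).1 hw).2).1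
    · refine List.forall_mem_cons.2 ⟨by simp [hu], List.forall_mem_map.2 fun w hw => ?_⟩
      simp [((m w).1 hw).1]
    · rw [List.length_map]
      exact (List.length_filter_le _ _).trans sq
    · exact (Nat.add_le_add_left (Nat.mul_le_mul_left _ h1) _).trans
        (pot_units _ (hX.filter _) fun x hx => ⟨((m x).1 hx).1, (two_iff.1 ((m x).1 hx).2).2.2⟩)
  · simp only [candB, List.mem_flatMap, List.mem_map, List.mem_filter, decide_eq_true_eq] at h
    obtain ⟨u, hu, v, ⟨hv, h1⟩, rfl⟩ := h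
    have m : ∀ w, w ∈ P3 X F u v ↔ w ∈ X ∧ three F u v w = true := by simp [P3]
    obtain ⟨w, hw⟩ := exists_of_length h1 hθ
    have h3 := ((m w).1 hw).2
    refine ⟨fun a ha => ?_, ?_, ?_, ?_, ?_⟩
    · by_cases h : a u ∨ a v
      · exact Or.inl (by simpa using h)
      · refine Or.inr fun C hC => ?_
        obtain ⟨w, hw, rfl⟩ := List.mem_map.1 hC
        rw [not_or] at h
        simpa [h.1, h.2] using ha.cov (three_iff.1 ((m w).1 hw).2).1
    · refine List.forall_mem_cons.2 ⟨by simp [hu, hv], List.forall_mem_map.2 fun w hw => ?_⟩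
      simp [((m w).1 hw).1]
    · rw [List.length_map]
      exact (List.length_filter_le _ _).trans sq
    · have hne := (three_ne h3).1
      have h4 := (three_iff.1 h3).2.1
      refine le_trans (Nat.add_le_add_left ?_ _) (pot_pairs [[u, v]]
        (fun x y => (x = u ∧ y = v) ∨ (x = v ∧ y = u)) (by tauto) ?_ ?_ ?_ fun x hx => ?_)
      · refine le_trans ?_ (Finset.single_le_sum (fun _ _ => Nat.zero_le _)
          (List.mem_toFinset.2 hu))
        exact Finset.card_pos.2 ⟨v, by simp [hv]⟩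
      · rintro x y (⟨rfl, rfl⟩ | ⟨rfl, rfl⟩)
        exacts [⟨hne, h4⟩, ⟨hne.symm, (cov_swap _ _).trans h4⟩]
      · simp only [List.mem_singleton, forall_eq]
        exact ⟨u, v, Or.inl ⟨rfl, rfl⟩, rfl⟩
      · rintro x - y - (⟨rfl, rfl⟩ | ⟨rfl, rfl⟩) <;> simp
      · have h5 := candA_nil hX hA x hx
        have : (X.toFinset.filter fun y => (x = u ∧ y = v) ∨ (x = v ∧ y = u)).card ≤ 1 := by
          refine Finset.card_le_one.2 fun y hy z hz => ?_
          rw [Finset.mem_filter] at hy hz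
          rcases hy.2 with ⟨a1, a2⟩ | ⟨a1, a2⟩ <;> rcases hz.2 with ⟨a3, a4⟩ | ⟨a3, a4⟩
          exacts [a2.trans a4.symm, absurd (a1.symm.trans a3) hne, absurd (a3.symm.trans a1) hne,
            a2.trans a4.symm]
        omega
    · exact (Nat.add_le_add_left (Nat.mul_le_mul_left _ h1) _).trans
        (pot_units _ (hX.filter _) fun x hx =>
          ⟨((m x).1 hx).1, not_cov_right (three_iff.1 ((m x).1 hx).2).2.2.1⟩)
  · simp only [candC, List.mem_map, List.mem_filter, decide_eq_true_eq] at h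
    obtain ⟨u, ⟨hu, h1⟩, rfl⟩ := h
    obtain ⟨C, hC⟩ := exists_of_length h1 (Nat.mul_pos hθ hθ)
    obtain ⟨v, hv, w, hw, h3, -⟩ := mem_Q3.1 hC
    refine ⟨fun a ha => ?_, ?_, ?_, pot_unit hθ hu (not_cov_left (three_iff.1 h3).2.1), ?_⟩
    · by_cases h : a u
      · exact Or.inl ⟨u, by simp, h⟩
      · refine Or.inr fun C hC => ?_
        obtain ⟨v, -, w, -, h4, rfl⟩ := mem_Q3.1 hC
        simpa [h] using ha.cov (three_iff.1 h4).1
    · intro C hC
      rcases List.mem_cons.1 hC with rfl | hC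
      · simp [hu]
      · obtain ⟨v, hv, w, hw, -, rfl⟩ := mem_Q3.1 hC
        simp [hv, hw]
    · rw [length_Q3 hX, ← List.toFinset_card_of_nodup hX]
      exact Finset.sum_le_card_nsmul _ _ _ fun _ _ => Finset.card_filter_le _ _
    · refine le_trans (Nat.add_le_add_left (h1.trans (length_Q3 hX u).le) _)
        (pot_pairs _ (fun x y => three F u x y = true) (fun x y h => three_swap u x y ▸ h)
          (fun x y h => ⟨(three_ne h).2, (three_iff.1 h).2.2.2⟩) (fun C hC => ?_)
          (fun x hx y hy h => Or.inl (mem_Q3.2 ⟨x, hx, y, hy, h, rfl⟩)) fun x hx => ?_)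
      · obtain ⟨v, -, w, -, h4, rfl⟩ := mem_Q3.1 hC
        exact ⟨v, w, h4, rfl⟩
      · have h5 := candA_nil hX hA x hx
        have h6 := candB_nil hB u hu x hx
        rw [P3, length_filter hX] at h6
        omega

theorem step_cases (X : List α) (θ : ℕ) (F : List (List α)) :
    (cands X θ F = [] ∧ step X θ F = [F]) ∨
      ∃ p L, cands X θ F = p :: L ∧ step X θ F = [p.1 :: F, p.2 ++ F] := by
  unfold step
  cases cands X θ F with
  | nil => exact Or.inl ⟨rfl, rfl⟩
  | cons p L => exact Or.inr ⟨p, L, rfl, rfl⟩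

theorem run_succ (i : ℕ) : run X θ F (i + 1) = (run X θ F i).flatMap (step X θ) :=
  Function.iterate_succ_apply' _ _ _

theorem run_hit (hX : X.Nodup) (hθ : 1 ≤ θ) (a : α → Prop) (i : ℕ) :
    (∃ G ∈ run X θ F i, Hit a G) ↔ Hit a F := by
  induction i with
  | zero => simp [run]
  | succ i ih =>
    rw [run_succ, ← ih]
    simp only [List.mem_flatMap]
    constructor
    · rintro ⟨G, ⟨H, h1, h2⟩, h3⟩
      refine ⟨H, h1, fun C hC => h3 C ?_⟩
      rcases step_cases X θ H with ⟨-, h⟩ | ⟨p, L, -, h⟩ <;> rw [h] at h2 <;>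
        simp only [List.mem_cons, List.not_mem_nil, or_false] at h2
      · rwa [h2]
      · rcases h2 with rfl | rfl <;> simp [hC]
    · rintro ⟨H, h1, h2⟩
      rcases step_cases X θ H with ⟨-, h⟩ | ⟨p, L, h0, h⟩
      · exact ⟨H, ⟨H, h1, by simp [h]⟩, h2⟩
      · rcases (head_spec hX hθ h0).1 a h2 with h3 | h3
        · exact ⟨p.1 :: H, ⟨H, h1, by simp [h]⟩, List.forall_mem_cons.2 ⟨h3, h2⟩⟩
        · exact ⟨p.2 ++ H, ⟨H, h1, by simp [h]⟩, List.forall_mem_append.2 ⟨h3, h2⟩⟩

theorem run_inv (hX : X.Nodup) (hθ : 1 ≤ θ) (hF : Ok X F) (i : ℕ) : ∀ G ∈ run X θ F i,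
    Ok X G ∧ G.length ≤ F.length + i * (X.length * X.length + 1) ∧
      (cands X θ G = [] ∨ i ≤ pot X θ G) := by
  induction i with
  | zero => simp [run, hF]
  | succ i ih =>
    intro G hG
    rw [run_succ, List.mem_flatMap] at hG
    obtain ⟨H, h1, h2⟩ := hG
    obtain ⟨a1, a2, a3⟩ := ih H h1
    rw [Nat.succ_mul]
    rcases step_cases X θ H with ⟨h0, h⟩ | ⟨p, L, h0, h⟩ <;> rw [h] at h2 <;>
      simp only [List.mem_cons, List.not_mem_nil, or_false] at h2
    · subst h2
      exact ⟨a1, by omega, Or.inl h0⟩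
    · obtain ⟨-, b1, b2, b3, b4⟩ := head_spec hX hθ h0
      have b5 := Nat.mul_pos hθ hθ
      have b6 : i ≤ pot X θ H := a3.resolve_left (by simp [h0])
      rw [Ok, List.forall_mem_cons] at b1
      rcases h2 with rfl | rfl
      · exact ⟨List.forall_mem_cons.2 ⟨b1.1, a1⟩, by simp; omega, Or.inr (by omega)⟩
      · exact ⟨List.forall_mem_append.2 ⟨b1.2, a1⟩, by simp; omega, Or.inr (by omega)⟩

theorem run_weight (hX : X.Nodup) (hθ : 1 ≤ θ) {y : ℝ} (h0 : 0 ≤ y) (h1 : y + y ^ (θ * θ) ≤ 1)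
    (i : ℕ) : ((run X θ F i).map fun G => y ^ pot X θ G).sum ≤ 1 := by
  have hy : y ≤ 1 := by have := pow_nonneg h0 (θ * θ); linarith only [h1, this]
  induction i with
  | zero => simpa [run] using pow_le_one₀ h0 hy
  | succ i ih =>
    rw [run_succ]
    refine le_trans ?_ ih
    induction run X θ F i with
    | nil => simp
    | cons H L ih' =>
      simp only [List.flatMap_cons, List.map_append, List.sum_append, List.map_cons,
        List.sum_cons]
      refine add_le_add ?_ ih'
      rcases step_cases X θ H with ⟨-, h⟩ | ⟨p, L, h2, h⟩ <;> rw [h]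
      · simp
      · obtain ⟨-, -, -, b3, b4⟩ := head_spec hX hθ h2
        have c1 := pow_le_pow_of_le_one h0 hy b3
        have c2 := pow_le_pow_of_le_one h0 hy b4
        have c3 := mul_le_mul_of_nonneg_left h1 (pow_nonneg h0 (pot X θ H))
        simp only [List.map_cons, List.map_nil, List.sum_cons, List.sum_nil, pow_add,
          pow_one] at c1 c2 ⊢
        linarith only [c3, c1, c2]

theorem exists_param (k : ℕ) : ∃ (θ : ℕ) (y : ℝ), 1 ≤ θ ∧ 0 ≤ y ∧ y + y ^ (θ * θ) ≤ 1 ∧
    1 / 2 ≤ y ^ (7 * θ * (k + 1)) := by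
  obtain ⟨K, hK⟩ : ∃ K : ℝ, K = (k : ℝ) + 1 := ⟨_, rfl⟩
  have hK1 : 1 ≤ K := by have := (Nat.cast_nonneg k : (0 : ℝ) ≤ k); linarith
  obtain ⟨θ, hθ⟩ : ∃ θ : ℕ, (θ : ℝ) = 14 * K * (60 * K) :=
    ⟨14 * (k + 1) * (60 * (k + 1)), by simp [hK]⟩
  have hθ1 : (1 : ℝ) ≤ θ := by rw [hθ]; linarith only [hK, mul_nonneg_of_nonpos_of_nonpos (Mathlib.Tactic.Linarith.sub_nonpos_of_le (Mathlib.Tactic.Linarith.natCast_nonneg ℝ k)) (Mathlib.Tactic.Linarith.sub_nonpos_of_le (Mathlib.Tactic.Linarith.natCast_nonneg ℝ k)), Mathlib.Tactic.Linarith.mul_zero_eq (Mathlib.Tactic.Linarith.sub_nonpos_of_le (Mathlib.Tactic.Linarith.natCast_nonneg ℝ k)) (sub_eq_zero_of_eq hK), Mathlib.Tactic.Linarith.zero_mul_eq (sub_eq_zero_of_eq hK) (sub_eq_zero_of_eq hK)]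
  have hone : 1 ≤ 14 * (θ : ℝ) * K := by linarith only [hθ1, hK, mul_nonneg_of_nonpos_of_nonpos (Mathlib.Tactic.Linarith.sub_nonpos_of_le (Mathlib.Tactic.Linarith.natCast_nonneg ℝ k)) (Mathlib.Tactic.Linarith.sub_nonpos_of_le (Mathlib.Tactic.Linarith.natCast_nonneg ℝ θ)), Mathlib.Tactic.Linarith.mul_zero_eq (Mathlib.Tactic.Linarith.sub_nonpos_of_le (Mathlib.Tactic.Linarith.natCast_nonneg ℝ θ)) (sub_eq_zero_of_eq hK)]
  obtain ⟨δ, hδ'⟩ : ∃ δ : ℝ, δ = (14 * θ * K)⁻¹ := ⟨_, rfl⟩
  have hδ : δ * (14 * θ * K) = 1 := by rw [hδ']; exact inv_mul_cancel₀ (by linarith only [hone])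
  have hδ1 : δ ≤ 1 := hδ' ▸ inv_le_one_of_one_le₀ hone
  refine ⟨θ, 1 - δ, by exact_mod_cast hθ1, by linarith only [hδ1], ?_, ?_⟩
  · have a1 : (1 - δ) ^ (θ * θ) ≤ Real.exp (-δ) ^ (θ * θ) :=
      pow_le_pow_left₀ (by linarith) (by linarith only [Real.add_one_le_exp (-δ)]) _
    have a2 : ((θ * θ : ℕ) : ℝ) * -δ = -(60 * K) := by
      push_cast
      linear_combination (-θ * δ) * hθ - 60 * K * hδ
    rw [← Real.exp_nat_mul, a2, Real.exp_neg] at a1
    have a3 := Real.pow_div_factorial_le_exp (60 * K) (by linarith only [hK]) 3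
    have a4 : 14 * (θ : ℝ) * K ≤ Real.exp (60 * K) := by
      refine le_trans ?_ a3
      have : 0 ≤ K ^ 3 := by positivity
      have e : ((Nat.factorial 3 : ℕ) : ℝ) = 6 := by norm_num [Nat.factorial]
      rw [hθ, e]
      linarith only [this]
    have a5 : (Real.exp (60 * K))⁻¹ ≤ δ := hδ' ▸ inv_anti₀ (by linarith only [hone]) a4
    linarith only [a1, a5]
  · have := one_add_mul_le_pow (a := -δ) (by linarith only [hδ1]) (7 * θ * (k + 1))
    push_cast at this
    rw [← hK] at this
    rw [sub_eq_add_neg]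
    linarith only [hδ, this]

theorem run_length (k : ℕ) : ∃ θ : ℕ, 1 ≤ θ ∧ ∀ {α : Type} [DecidableEq α] (X : List α)
    (F : List (List α)) (i : ℕ), X.Nodup → (run X θ F i).length ≤ 2 ^ (X.length / (k + 1) + 1) := by
  obtain ⟨θ, y, h1, h2, h3, h4⟩ := exists_param k
  refine ⟨θ, h1, fun X F i hX => ?_⟩
  have hy : y ≤ 1 := by have := pow_nonneg h2 (θ * θ); linarith only [h3, this]
  have a1 := run_weight (F := F) hX h1 h2 h3 i
  have a2 : X.length ≤ (k + 1) * (X.length / (k + 1) + 1) := (Nat.lt_mul_div_succ _ (by omega)).le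
  have a3 := List.card_nsmul_le_sum ((run X θ F i).map fun G => y ^ pot X θ G)
    ((1 / 2) ^ (X.length / (k + 1) + 1)) fun x hx => by
      obtain ⟨G, -, rfl⟩ := List.mem_map.1 hx
      refine (pow_le_pow_left₀ (by norm_num) h4 _).trans ?_
      rw [← pow_mul]
      exact pow_le_pow_of_le_one h2 hy (pot_le.trans (by rw [mul_assoc (7 * θ)]; gcongr))
  rw [List.length_map, nsmul_eq_mul, one_div, inv_pow, ← div_eq_mul_inv] at a3
  exact_mod_cast (div_le_one (by positivity)).1 (a3.trans a1)

theorem mem_out {C : List α} : C ∈ out X F ↔ (C = [] ∧ cov F [] = true) ∨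
    (∃ u ∈ X, cov F [u] = true ∧ C = [u]) ∨ (∃ u ∈ X, ∃ v ∈ X, two F u v = true ∧ C = [u, v]) ∨
    ∃ u ∈ X, ∃ v ∈ X, ∃ w ∈ X, three F u v w = true ∧ C = [u, v, w] := by
  simp only [out, List.mem_append, List.mem_map, List.mem_filter, List.mem_flatMap, mem_Q3, P2,
    or_assoc, and_assoc, eq_comm (a := C)]
  refine or_congr (by cases cov F [] <;> simp [eq_comm]) (or_congr Iff.rfl (or_congr Iff.rfl ?_))
  constructor
  · rintro ⟨u, hu, _, ⟨v, hv, w, hw, h, rfl⟩, rfl⟩
    exact ⟨u, hu, v, hv, w, hw, h, rfl⟩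
  · rintro ⟨u, hu, v, hv, w, hw, h, rfl⟩
    exact ⟨u, hu, _, ⟨v, hv, w, hw, h, rfl⟩, rfl⟩

theorem out_ok : Ok X (out X F) := by
  intro C hC
  rcases mem_out.1 hC with ⟨rfl, -⟩ | ⟨u, hu, -, rfl⟩ | ⟨u, hu, v, hv, -, rfl⟩ |
    ⟨u, hu, v, hv, w, hw, -, rfl⟩ <;> simp [*]

theorem out_hit (hF : Ok X F) (a : α → Prop) : Hit a (out X F) ↔ Hit a F := by
  constructor
  · intro h C hC
    have h1 : ∀ u ∈ X, cov F [u] = true → a u := fun u hu hc => by
      simpa using h _ (mem_out.2 (Or.inr (Or.inl ⟨u, hu, hc, rfl⟩)))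
    have h2 : ∀ u ∈ X, ∀ v ∈ X, cov F [u, v] = true → a u ∨ a v := fun u hu v hv hc => by
      cases e1 : cov F [u]
      · cases e2 : cov F [v]
        · simpa using h _ (mem_out.2 (Or.inr (Or.inr (Or.inl
            ⟨u, hu, v, hv, two_iff.2 ⟨hc, e1, e2⟩, rfl⟩))))
        · exact Or.inr (h1 v hv e2)
      · exact Or.inl (h1 u hu e1)
    have hc : cov F C = true := cov_iff.2 ⟨C, hC, fun _ h => h⟩
    obtain ⟨a1, a2⟩ := hF C hC
    rcases C with _ | ⟨u, _ | ⟨v, _ | ⟨w, _ | ⟨z, C⟩⟩⟩⟩
    · exact h _ (mem_out.2 (Or.inl ⟨rfl, hc⟩))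
    · simpa using h1 u (a2 u (by simp)) hc
    · simpa using h2 u (a2 u (by simp)) v (a2 v (by simp)) hc
    · have hu := a2 u (by simp)
      have hv := a2 v (by simp)
      have hw := a2 w (by simp)
      have b1 := h2 u hu v hv
      have b2 := h2 u hu w hw
      have b3 := h2 v hv w hw
      by_cases e : three F u v w = true
      · exact h _ (mem_out.2 (Or.inr (Or.inr (Or.inr ⟨u, hu, v, hv, w, hw, e, rfl⟩))))
      · simp only [three_iff, hc, true_and, ← Bool.not_eq_true] at e
        simp only [List.mem_cons, List.not_mem_nil, or_false, exists_eq_or_imp, exists_eq_left]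
        (clear * - b1 b2 b3 e; grind)
    · simp only [List.length_cons] at a1
      omega
  · intro h C hC
    refine h.cov ?_
    rcases mem_out.1 hC with ⟨rfl, h⟩ | ⟨u, hu, h, rfl⟩ | ⟨u, hu, v, hv, h, rfl⟩ |
      ⟨u, hu, v, hv, w, hw, h, rfl⟩
    exacts [h, h, (two_iff.1 h).1, (three_iff.1 h).1]

theorem out_length (hX : X.Nodup) (h : cands X θ F = []) :
    (out X F).length ≤ 1 + X.length * (1 + θ + θ * θ) := by
  simp only [cands, List.append_eq_nil_iff] at h
  have h1 := candA_nil hX h.1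
  have h2 := candC_nil h.2.2
  have a1 : (bif cov F [] then [[]] else ([] : List (List α))).length ≤ 1 := by
    cases cov F [] <;> simp
  have a2 := List.length_filter_le (fun u => cov F [u]) X
  have a3 := List.sum_le_card_nsmul (X.map fun u => (P2 X F u).length) θ fun x hx => by
    obtain ⟨u, hu, rfl⟩ := List.mem_map.1 hx
    exact (length_P2 hX u ▸ h1 u hu).le
  have a4 := List.sum_le_card_nsmul (X.map fun u => (Q3 X F u).length) (θ * θ) fun x hx => by
    obtain ⟨u, hu, rfl⟩ := List.mem_map.1 hx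
    exact (h2 u hu).le
  simp only [out, List.length_append, List.length_map, List.length_flatMap, smul_eq_mul]
    at a3 a4 ⊢
  linarith only [a1, a2, a3, a4]

end Pool.Agent.Work.MP_0bf9cb_lc.Sparse
end

-- merged part: Pool.Agent.Work.MP_0bf9cb_lc.Eth
section
/-!
The sparsification lemma with its machine: a solver for 3-SAT that is subexponential in the
number of clauses refutes the exponential time hypothesis.
-/

namespace Pool.Agent.Work.MP_0bf9cb_lc

open Pool.Agent.Lib.Poly Turing Sparse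

section pt

variable {α γ : Type} [Enc α] [DecidableEq α] [Enc γ] {X S : γ → List α} {F : γ → List (List α)}
  {u v w : γ → α} {θ : γ → ℕ}

@[fun_prop] theorem pt_cov (hF : PT F) (hS : PT S) : PT fun x => cov (F x) (S x) := by
  unfold cov; fun_prop

@[fun_prop] theorem pt_two (hF : PT F) (hu : PT u) (hv : PT v) :
    PT fun x => two (F x) (u x) (v x) := by
  unfold two; fun_prop

@[fun_prop] theorem pt_three (hF : PT F) (hu : PT u) (hv : PT v) (hw : PT w) :
    PT fun x => three (F x) (u x) (v x) (w x) := by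
  unfold three; fun_prop

@[fun_prop] theorem pt_P2 (hX : PT X) (hF : PT F) (hu : PT u) :
    PT fun x => P2 (X x) (F x) (u x) := by
  unfold P2; fun_prop

@[fun_prop] theorem pt_P3 (hX : PT X) (hF : PT F) (hu : PT u) (hv : PT v) :
    PT fun x => P3 (X x) (F x) (u x) (v x) := by
  unfold P3; fun_prop

@[fun_prop] theorem pt_Q3 (hX : PT X) (hF : PT F) (hu : PT u) :
    PT fun x => Q3 (X x) (F x) (u x) := by
  unfold Q3; fun_prop

@[fun_prop] theorem pt_cands (hX : PT X) (hθ : PT θ) (hF : PT F) :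
    PT fun x => cands (X x) (θ x) (F x) := by
  unfold cands candA candB candC; fun_prop

@[fun_prop] theorem pt_step (hX : PT X) (hθ : PT θ) (hF : PT F) :
    PT fun x => step (X x) (θ x) (F x) := by
  unfold step; fun_prop

@[fun_prop] theorem pt_out (hX : PT X) (hF : PT F) : PT fun x => out (X x) (F x) := by
  unfold out; fun_prop

theorem pt_srun {i : γ → ℕ} (hX : PT X) (hθ : PT θ) (hF : PT F) (hi : PT i)
    (h : ∀ x, (X x).Nodup ∧ 1 ≤ θ x ∧ Ok (X x) (F x) ∧
      ∀ j, (run (X x) (θ x) (F x) j).length ≤ sz x) :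
    PT fun x => run (X x) (θ x) (F x) (i x) := by
  let f : List α × ℕ × List (List (List α)) → List α × ℕ × List (List (List α)) :=
    fun p => (p.1, p.2.1, p.2.2.flatMap fun G => step p.1 p.2.1 G)
  have hf : PT f := by unfold f; fun_prop
  have key : ∀ j X θ F, f^[j] (X, θ, [F]) = (X, θ, run X θ F j) := by
    intro j X θ F
    induction j with
    | zero => rfl
    | succ j ih => rw [Function.iterate_succ_apply', ih, run_succ]
  obtain ⟨s, hs, hs'⟩ := (hX.mk (hθ.mk (hF.mk hi))).size
  refine (PT.iterate hf hi (init := fun x => (X x, θ x, [F x])) (by fun_prop)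
    (fun n => 2 * s n + 1 + (2 * s n + 1 + n * (2 * ((s n + s n * (s n * s n + 1)) *
      (2 * (3 * (2 * s n + 1)) + 1)) + 1))) (by fun_prop) fun x j hj => ?_).snd.snd.of_eq
    fun x => by rw [key]
  obtain ⟨h1, h2, h3, h4⟩ := h x
  have a0 := hs' x
  simp only [key, sz_pair, sz_nat] at a0 ⊢
  generalize s (sz x) = B at a0 ⊢
  have a1 := length_le_sz (X x)
  have a2 := length_le_sz (F x)
  have a3 := sz_list_le (run (X x) (θ x) (F x) j)
    ((B + B * (B * B + 1)) * (2 * (3 * (2 * B + 1)) + 1)) fun G hG => by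
      obtain ⟨b1, b2, -⟩ := run_inv h1 h2 h3 j G hG
      refine (sz_list_le G (3 * (2 * B + 1)) fun C hC => ?_).trans
        (Nat.mul_le_mul_right _ (b2.trans (Nat.add_le_add (by omega)
          (Nat.mul_le_mul (by omega) (Nat.add_le_add_right
            (Nat.mul_le_mul (by omega) (by omega)) _)))))
      exact (sz_list_le C B fun y hy => (sz_le_of_mem ((b1 C hC).2 y hy)).trans
        (by omega)).trans (Nat.mul_le_mul_right _ (b1 C hC).1)
  have a4 := a3.trans (Nat.mul_le_mul_right _ (h4 j))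
  omega

@[fun_prop] theorem pt_dedup (hX : PT X) : PT fun x => (X x).dedup := by
  refine (PT.foldl (f := fun _ (s : List α) (a : α) => if a ∈ s then s else a :: s)
    (init := fun _ => []) (by fun_prop) (by fun_prop) hX.reverse (fun n => 2 * n + 1)
    (by fun_prop) fun a c x => ?_).of_eq fun x => ?_
  · split_ifs
    · omega
    · rw [sz_cons]; omega
  · rw [List.foldl_reverse]
    induction X x with
    | nil => rfl
    | cons a l ih =>
      rw [List.foldr_cons, ih]
      split_ifs with h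
      · exact (List.dedup_cons_of_mem' h).symm
      · exact (List.dedup_cons_of_notMem' h).symm

end pt

/-- Satisfiability of a formula in conjunctive normal form. -/
def SatF {β : Type} (φ : List (List (β × Bool))) : Prop :=
  ∃ a : β → Bool, ∀ C ∈ φ, ∃ l ∈ C, a l.1 = l.2

/-- The negation of the exponential time hypothesis. -/
def NotETH : Prop :=
  ∀ k : ℕ, 0 < k → ∃ (M : TM2ComputableAux Bool Bool) (c : ℕ), (∀ j, Finite (M.tm.Γ j)) ∧
    ∀ φ : List (List (ℕ × Bool)), (∀ C ∈ φ, C.length ≤ 3) → ∀ ans : Bool,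
      (ans = true ↔ ∃ a : ℕ → Bool, ∀ C ∈ φ, ∃ l ∈ C, a l.1 = l.2) →
      Nonempty (TM2OutputsInTime M.tm ((N487b59b3.bitEncode φ).map M.inputAlphabet.invFun)
        (some ([ans].map M.outputAlphabet.invFun))
        (c * 2 ^ ((φ.flatten.map Prod.fst).toFinset.card / k) *
          ((N487b59b3.bitEncode φ).length + 2) ^ c))

abbrev CnfB := List (List (Bin × Bool))

def toB (φ : List (List (ℕ × Bool))) : CnfB := φ.map fun C => C.map fun l => (Bin.mk l.1, l.2)

theorem enc_toB (φ : List (List (ℕ × Bool))) : enc (toB φ) = N487b59b3.bitEncode φ := by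
  have : ∀ C : List (ℕ × Bool),
      enc (C.map fun l => (Bin.mk l.1, l.2)) = N487b59b3.bitEncode C := fun C => by
    induction C with
    | nil => rfl
    | cons l C ih => rw [List.map_cons, enc_cons, ih]; rfl
  unfold toB
  induction φ with
  | nil => rfl
  | cons C φ ih => rw [List.map_cons, enc_cons, ih, this]; rfl

theorem satF_toB (φ : List (List (ℕ × Bool))) : SatF (toB φ) ↔ SatF φ := by
  simp only [SatF, toB, List.forall_mem_map]
  simp only [List.mem_map, exists_exists_and_eq_and]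
  exact ⟨fun ⟨a, h⟩ => ⟨fun n => a ⟨n⟩, h⟩, fun ⟨a, h⟩ => ⟨fun n => a n.val, h⟩⟩

def vars (φ : CnfB) : List Bin := φ.flatten.map fun l => l.1

def lits (φ : CnfB) : List (Bin × Bool) :=
  (vars φ).dedup.flatMap fun x => [false, true].map fun b => (x, b)

def idx (l : List Bin) (x : Bin) : ℕ :=
  ((List.range l.length).filter fun i => decide (l.getD i ⟨0⟩ = x)).headD 0

def compact (φ : CnfB) : List (List (ℕ × Bool)) :=
  φ.map fun C => C.map fun l => (idx (vars φ) l.1, l.2)

theorem mem_vars {φ : CnfB} {C l} (hC : C ∈ φ) (hl : l ∈ C) : l.1 ∈ vars φ :=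
  List.mem_map.2 ⟨l, List.mem_flatten.2 ⟨C, hC, hl⟩, rfl⟩

theorem idx_spec {l : List Bin} {x : Bin} (h : x ∈ l) :
    idx l x < l.length ∧ l.getD (idx l x) ⟨0⟩ = x := by
  obtain ⟨i, hi, rfl⟩ := List.getElem_of_mem h
  have m : ∀ j, j ∈ ((List.range l.length).filter fun j => decide (l.getD j ⟨0⟩ = l[i])) ↔
      j < l.length ∧ l.getD j ⟨0⟩ = l[i] := by simp
  have h1 := (m i).2 ⟨hi, List.getD_eq_getElem _ _ hi⟩
  rw [← m, idx]
  revert h1
  cases (List.range l.length).filter fun j => decide (l.getD j ⟨0⟩ = l[i]) <;> simp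

theorem satF_compact (φ : CnfB) : SatF (compact φ) ↔ SatF φ := by
  simp only [SatF, compact, List.forall_mem_map]
  simp only [List.mem_map, exists_exists_and_eq_and]
  refine ⟨fun ⟨a, h⟩ => ⟨fun x => a (idx (vars φ) x), h⟩,
    fun ⟨a, h⟩ => ⟨fun i => a ((vars φ).getD i ⟨0⟩), fun C hC => ?_⟩⟩
  obtain ⟨l, h1, h2⟩ := h C hC
  exact ⟨l, h1, (congrArg a (idx_spec (mem_vars hC h1)).2).trans h2⟩

theorem compact_lt {φ : CnfB} (h : ∀ C ∈ φ, C.length ≤ 3) :
    ∀ C ∈ compact φ, ∀ l ∈ C, l.1 < 3 * (compact φ).length := by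
  simp only [compact, List.forall_mem_map, List.length_map]
  intro C hC l hl
  refine (idx_spec (mem_vars hC hl)).1.trans_le ?_
  have := List.sum_le_card_nsmul (φ.map List.length) 3 (List.forall_mem_map.2 h)
  rw [vars, List.length_map, List.length_flatten]
  simpa [mul_comm] using this

theorem lits_nodup (φ : CnfB) : (lits φ).Nodup :=
  List.Nodup.product (List.nodup_dedup _) (by simp)

theorem lits_ok {φ : CnfB} (h : ∀ C ∈ φ, C.length ≤ 3) : Ok (lits φ) φ := fun C hC =>
  ⟨h C hC, fun l hl => by simpa [lits] using ⟨l.1, mem_vars hC hl, by cases l; simp⟩⟩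

theorem length_lits (φ : List (List (ℕ × Bool))) :
    (lits (toB φ)).length = 2 * (φ.flatten.map Prod.fst).toFinset.card := by
  have : vars (toB φ) = (φ.flatten.map Prod.fst).map Bin.mk := by
    simp [vars, toB, List.map_flatten, Function.comp_def]
  rw [List.card_toFinset, lits, this,
    List.dedup_map_of_injective (fun _ _ h => congrArg Bin.val h), List.length_flatMap]
  simp [mul_comm, Function.comp_def]

theorem outputs_mono {tm : FinTM2} {x y} {t t' : ℕ} (h : Nonempty (TM2OutputsInTime tm x y t))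
    (ht : t ≤ t') : Nonempty (TM2OutputsInTime tm x y t') :=
  let ⟨⟨a, b⟩⟩ := h; ⟨⟨a, b.trans ht⟩⟩

/-- A clocked solver that is subexponential in the number of clauses refutes the hypothesis. -/
theorem notETH_of_pt (F : List (List (ℕ × Bool)) × ℕ → Bool) (hF : PT F)
    (h : ∀ k, ∃ c, ∀ φ : List (List (ℕ × Bool)), (∀ C ∈ φ, C.length ≤ 3) →
      (∀ C ∈ φ, ∀ l ∈ C, l.1 < 3 * φ.length) →
      ∀ t, c * 2 ^ (φ.length / (k + 1)) ≤ t → (F (φ, t) = true ↔ SatF φ)) : NotETH := by
  let G : (ℕ × CnfB) × ℕ → Prop := fun p => 1 ≤ p.1.1 ∧ (∀ C ∈ p.1.2, C.length ≤ 3) ∧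
    ∀ j, (run (lits p.1.2) p.1.1 p.1.2 j).length ≤ p.2
  have hv : PT vars := by unfold vars; fun_prop
  have hl : PT lits := by unfold lits; fun_prop
  have hc : PT compact := by unfold compact idx; fun_prop
  have h0 := pt_val G
  have h1 : PT fun p : Subtype G => run (lits p.1.1.2) p.1.1.1 p.1.1.2
      (7 * p.1.1.1 * (lits p.1.1.2).length + 1) :=
    pt_srun (by fun_prop) (by fun_prop) (by fun_prop) (by fun_prop) fun p =>
      ⟨lits_nodup _, p.2.1, lits_ok p.2.2.1, fun j => (p.2.2.2 j).trans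
        ((sz_nat _).ge.trans (sz_snd_le p.1))⟩
  obtain ⟨d, hd⟩ := exists_tm_exp (G := G) (f := fun p => (run (lits p.1.1.2) p.1.1.1 p.1.1.2
      (7 * p.1.1.1 * (lits p.1.1.2).length + 1)).any fun H =>
        F (compact (out (lits p.1.1.2) H), p.1.2)) (PT.any (by fun_prop) h1)
  intro k hk
  obtain ⟨K, hK⟩ : ∃ K, K = k * (d + 1) := ⟨_, rfl⟩
  have hK0 : 0 < K := by rw [hK]; positivity
  obtain ⟨θ, hθ, hr⟩ := run_length (2 * K - 1)
  obtain ⟨A, hA⟩ : ∃ A, A = 2 * (1 + θ + θ * θ) := ⟨_, rfl⟩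
  have hAK : 0 < A * K := by rw [hA]; positivity
  obtain ⟨c, hc⟩ := h (A * K - 1)
  rw [show 2 * K - 1 + 1 = 2 * K by omega] at hr
  rw [show A * K - 1 + 1 = A * K by omega] at hc
  obtain ⟨M, c', hM, H⟩ := hd (fun φ : CnfB => (θ, φ))
    (fun φ => (lits φ).length / (2 * K) + 1 + c) (by fun_prop) (by fun_prop)
  refine ⟨M, 2 ^ (d * (1 + c)) + c', hM, fun φ h3 ans hans => ?_⟩
  have h4 : ∀ C ∈ toB φ, C.length ≤ 3 := by simpa [toB] using h3
  have h5 := H (toB φ) ⟨hθ, h4, fun j => (hr _ _ j (lits_nodup _)).trans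
    (Nat.pow_le_pow_right (by omega) (Nat.le_add_right _ _))⟩
  dsimp only at h5
  have hN := lits_nodup (toB φ)
  have hO := lits_ok h4
  have hL := length_lits φ
  generalize lits (toB φ) = X at h5 hN hO hL
  generalize (φ.flatten.map Prod.fst).toFinset.card = n at hL ⊢
  have hq : X.length / (2 * K) = n / K := by rw [hL, Nat.mul_div_mul_left _ _ (by omega)]
  rw [hq, sz, enc_toB] at h5
  have key : ∀ H ∈ run X θ (toB φ) (7 * θ * X.length + 1),
      (F (compact (out X H), 2 ^ (n / K + 1 + c)) = true ↔ SatF H) := fun H hH => by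
    obtain ⟨b1, -, b2⟩ := run_inv hN hθ hO _ H hH
    have b3 := out_length hN (b2.resolve_right (by have := pot_le (X := X) (θ := θ) (F := H); omega))
    have b4 : ∀ C ∈ out X H, C.length ≤ 3 := fun C hC => (out_ok C hC).1
    rw [hc _ (by simpa [compact] using b4) (compact_lt b4), satF_compact]
    · exact exists_congr fun a => out_hit b1 fun l => a l.1 = l.2
    · rw [pow_add 2 _ c, mul_comm]
      refine Nat.mul_le_mul (Nat.pow_le_pow_right (by omega) (Nat.div_le_of_le_mul ?_))
        Nat.lt_two_pow_self.le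
      have := Nat.lt_mul_div_succ n hK0
      rw [compact, List.length_map, mul_assoc]
      refine b3.trans (le_trans ?_ (Nat.mul_le_mul_left A this))
      rw [hL, hA]
      linarith only [hθ, mul_self_nonneg ↑θ]
  have e : ((run X θ (toB φ) (7 * θ * X.length + 1)).any fun H =>
      F (compact (out X H), 2 ^ (n / K + 1 + c))) = ans := by
    rw [Bool.eq_iff_iff, hans, List.any_eq_true,
      exists_congr fun H => and_congr_right (key H)]
    refine Iff.trans ?_ (satF_toB φ)
    simp only [SatF, ← exists_and_left]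
    rw [exists_comm]
    exact exists_congr fun a => run_hit hN hθ (fun l => a l.1 = l.2) _
  rw [e] at h5
  refine outputs_mono h5 (Nat.mul_le_mul ?_ (Nat.pow_le_pow_right (by omega) (Nat.le_add_left _ _)))
  have : d * (n / K) ≤ n / k := by
    rw [hK, ← Nat.div_div_eq_div_mul]
    exact (Nat.mul_le_mul_right _ d.le_succ).trans (Nat.mul_div_le _ _)
  rw [add_assoc, mul_add, pow_add, mul_comm]
  exact Nat.mul_le_mul (by omega) (Nat.pow_le_pow_right (by omega) this)

/-- The same for a machine that works on binary codes. -/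
theorem notETH_of_tm (M : TM2ComputableAux Bool Bool)
    (h : ∀ k, ∃ c, ∀ φ : List (List (ℕ × Bool)), (∀ C ∈ φ, C.length ≤ 3) →
      (∀ C ∈ φ, ∀ l ∈ C, l.1 < 3 * φ.length) → ∀ ans : Bool, (ans = true ↔ SatF φ) →
      Nonempty (TM2OutputsInTime M.tm ((N487b59b3.bitEncode φ).map M.inputAlphabet.invFun)
        (some ([ans].map M.outputAlphabet.invFun)) (c * 2 ^ (φ.length / (k + 1))))) : NotETH := by
  classical
  obtain ⟨G, a, hG, ha⟩ := exists_clock M
  have hB : PT toB := by unfold toB; fun_prop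
  refine notETH_of_pt (fun p => G (enc (toB p.1), p.2)) (by fun_prop) fun k => ?_
  obtain ⟨c, hc⟩ := h k
  refine ⟨a * (c + 1), fun φ h1 h2 t ht => ?_⟩
  rw [enc_toB, ha _ _ _ _ (hc φ h1 h2 (decide (SatF φ)) (by simp)) (le_trans ?_ ht)]
  · simp
  · have : 1 ≤ 2 ^ (φ.length / (k + 1)) := Nat.one_le_two_pow
    rw [mul_assoc, add_mul]
    exact Nat.mul_le_mul_left _ (by omega)

end Pool.Agent.Work.MP_0bf9cb_lc
end
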