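import Mathlib
import Pool.Agent.Lib.Poly.Gauss

-- merged part: Pool.Agent.Work.MP_0bf9cb_lc.Geo
section
/-!
Positive circuits of a finite family of linear forms and of its contractions.
-/

namespace Pool.Agent.Work.MP_0bf9cb_lc

open Finset

variable {Y : Type} [AddCommGroup Y] [Module ℝ Y] (h : ℕ → Y →ₗ[ℝ] ℝ)

/-- `z` vanishes on all forms outside `X` and `S`. -/
def Van (X S : Finset ℕ) (z : Y) : Prop := ∀ i, i ∉ X → i ∉ S → h i z = 0

/-- `y` spans the positive circuit `S` of the contraction by `X`. -/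
structure Wit (X S : Finset ℕ) (y : Y) : Prop where
  ne : S.Nonempty
  disj : ∀ i ∈ S, i ∉ X
  pos : ∀ i ∈ S, 0 < h i y
  van : Van h X S y
  uniq : ∀ z, Van h X S z → ∃ t : ℝ, ∀ i ∈ S, h i z = t * h i y

def Circ (X S : Finset ℕ) : Prop := ∃ y, Wit h X S y

/-- Nonnegative outside `X`. -/
def NN (X : Finset ℕ) (y : Y) : Prop := ∀ i, i ∉ X → 0 ≤ h i y

variable {h}

theorem Wit.nn {X S y} (w : Wit h X S y) : NN h X y := fun i hi => by
  by_cases hs : i ∈ S
  · exact (w.pos i hs).le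
  · exact (w.van i hi hs).ge

theorem Circ.eq_of_subset {X S R} (hS : Circ h X S) (hR : Circ h X R) (hsub : S ⊆ R) : S = R := by
  obtain ⟨u, hu⟩ := hS
  obtain ⟨y, hy⟩ := hR
  obtain ⟨t, ht⟩ := hy.uniq u fun i hi hr => hu.van i hi fun hs => hr (hsub hs)
  obtain ⟨i0, hi0⟩ := hu.ne
  refine Subset.antisymm hsub fun i hi => ?_
  by_contra hs
  have h1 := ht i hi
  rw [hu.van i (hy.disj i hi) hs] at h1
  have h2 : t = 0 := (mul_eq_zero.1 h1.symm).resolve_right (hy.pos i hi).ne'
  have h3 := ht i0 (hsub hi0)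
  rw [h2, zero_mul] at h3
  exact (hu.pos i0 hi0).ne' h3

variable {M : ℕ}

open Classical in
/-- The support outside `X`. -/
noncomputable def supp (h : ℕ → Y →ₗ[ℝ] ℝ) (M : ℕ) (X : Finset ℕ) (y : Y) : Finset ℕ :=
  (range M).filter fun i => i ∉ X ∧ h i y ≠ 0

theorem mem_supp (hM : ∀ i, M ≤ i → h i = 0) {X : Finset ℕ} {y : Y} {i : ℕ} :
    i ∈ supp h M X y ↔ i ∉ X ∧ h i y ≠ 0 := by
  simp only [supp, mem_filter, mem_range, and_iff_right_iff_imp]
  intro hi
  by_contra hlt
  exact hi.2 (by rw [hM i (not_lt.1 hlt)]; rfl)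

/-- Moving against a direction until a coordinate vanishes. -/
theorem shrink (hM : ∀ i, M ≤ i → h i = 0) {X : Finset ℕ} {y z : Y} (hy : NN h X y)
    (hz : ∀ i, i ∉ X → h i y = 0 → h i z = 0) {j : ℕ} (hj : j ∉ X) (hp : 0 < h j z) :
    ∃ t : ℝ, 0 < t ∧ NN h X (y - t • z) ∧ supp h M X (y - t • z) ⊂ supp h M X y := by
  classical
  have hypos : ∀ i, i ∉ X → 0 < h i z → 0 < h i y := fun i hi hiz =>
    lt_of_le_of_ne (hy i hi) fun e => hiz.ne' (hz i hi e.symm)
  obtain ⟨a, ha, hmin⟩ := exists_min_image ((supp h M X y).filter fun i => 0 < h i z)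
    (fun i => h i y / h i z) ⟨j, mem_filter.2 ⟨(mem_supp hM).2 ⟨hj, (hypos j hj hp).ne'⟩, hp⟩⟩
  obtain ⟨ha1, ha2⟩ := mem_filter.1 ha
  have ha3 := ((mem_supp hM).1 ha1).1
  have ht : 0 < h a y / h a z := div_pos (hypos a ha3 ha2) ha2
  refine ⟨h a y / h a z, ht, fun i hi => ?_, ?_⟩
  · rw [map_sub, map_smul, smul_eq_mul]
    by_cases hiz : 0 < h i z
    · have := hmin i (mem_filter.2 ⟨(mem_supp hM).2 ⟨hi, (hypos i hi hiz).ne'⟩, hiz⟩)
      rw [le_div_iff₀ hiz] at this
      linarith only [this]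
    · have := hy i hi
      linarith only [this, ht, hiz, mul_nonneg_of_nonpos_of_nonpos (le_of_lt (Mathlib.Tactic.Linarith.sub_neg_of_lt ht)) (Mathlib.Tactic.Linarith.sub_nonpos_of_le (le_of_not_gt hiz))]
  · refine ⟨fun i hi => ?_, fun hsub => ?_⟩
    · rw [mem_supp hM] at hi ⊢
      refine ⟨hi.1, fun e => hi.2 ?_⟩
      rw [map_sub, map_smul, e, hz i hi.1 e]; simp
    · have := ((mem_supp hM).1 (hsub ha1)).2
      apply this
      rw [map_sub, map_smul, smul_eq_mul, div_mul_cancel₀ _ ha2.ne', sub_self]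

theorem exists_circ (hM : ∀ i, M ≤ i → h i = 0) {X : Finset ℕ} {i : ℕ} (hi : i ∉ X) (y : Y)
    (hy : NN h X y) (hiy : h i y ≠ 0) : ∃ S, Circ h X S ∧ i ∈ S ∧ ∀ j ∈ S, h j y ≠ 0 := by
  induction hn : (supp h M X y).card using Nat.strong_induction_on generalizing y with
  | _ n ih =>
    by_cases hu : ∀ z, Van h X (supp h M X y) z → ∃ t : ℝ, ∀ j ∈ supp h M X y, h j z = t * h j y
    · refine ⟨supp h M X y, ⟨y, ⟨i, (mem_supp hM).2 ⟨hi, hiy⟩⟩, fun j hj => ((mem_supp hM).1 hj).1,
        fun j hj => ?_, fun j hj hs => ?_, hu⟩, (mem_supp hM).2 ⟨hi, hiy⟩,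
        fun j hj => ((mem_supp hM).1 hj).2⟩
      · exact lt_of_le_of_ne (hy j ((mem_supp hM).1 hj).1) ((mem_supp hM).1 hj).2.symm
      · by_contra e
        exact hs ((mem_supp hM).2 ⟨hj, e⟩)
    · push Not at hu
      obtain ⟨z, hz, hz'⟩ := hu
      obtain ⟨j, hj, hne⟩ := hz' (h i z / h i y)
      have key : ∀ w : Y, (∀ k, k ∉ X → h k y = 0 → h k w = 0) → h i w = 0 → 0 < h j w →
          ∃ S, Circ h X S ∧ i ∈ S ∧ ∀ j ∈ S, h j y ≠ 0 := by
        intro w h1 h2 h3
        obtain ⟨t, -, h4, h5⟩ := shrink hM hy h1 ((mem_supp hM).1 hj).1 h3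
        obtain ⟨S, a1, a2, a3⟩ := ih _ (hn ▸ card_lt_card h5) (y - t • w) h4
          (by rw [map_sub, map_smul, h2]; simpa using hiy) rfl
        refine ⟨S, a1, a2, fun k hk => ?_⟩
        obtain ⟨u, hu⟩ := a1
        exact ((mem_supp hM).1 (h5.1 ((mem_supp hM).2 ⟨hu.disj k hk, a3 k hk⟩))).2
      have e1 : ∀ k, k ∉ X → h k y = 0 → h k (z - (h i z / h i y) • y) = 0 := by
        intro k hk e
        rw [map_sub, map_smul, e, hz k hk fun hs => ((mem_supp hM).1 hs).2 e]; simp
      have e2 : h i (z - (h i z / h i y) • y) = 0 := by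
        rw [map_sub, map_smul, smul_eq_mul, div_mul_cancel₀ _ hiy, sub_self]
      have e3 : h j (z - (h i z / h i y) • y) ≠ 0 := by
        rw [map_sub, map_smul, smul_eq_mul]; exact sub_ne_zero.2 hne
      rcases lt_or_gt_of_ne e3 with e4 | e4
      · exact key (-(z - (h i z / h i y) • y)) (fun k hk e => by rw [map_neg, e1 k hk e, neg_zero])
          (by rw [map_neg, e2, neg_zero]) (by rw [map_neg]; linarith only [e4])
      · exact key _ e1 e2 e4

theorem nonneg_of_circ (hM : ∀ i, M ≤ i → h i = 0) {X : Finset ℕ} (c : Y →ₗ[ℝ] ℝ)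
    (h0 : ∀ z, (∀ i, i ∉ X → h i z = 0) → 0 ≤ c z)
    (h1 : ∀ R, Circ h X R → ∃ q, (∀ i ∈ R, 0 < h i q) ∧ Van h X R q ∧ 0 ≤ c q)
    (y : Y) (hy : NN h X y) : 0 ≤ c y := by
  induction hn : (supp h M X y).card using Nat.strong_induction_on generalizing y with
  | _ n ih =>
    by_cases he : ∀ i, i ∉ X → h i y = 0
    · exact h0 y he
    · push Not at he
      obtain ⟨i, hi, hiy⟩ := he
      obtain ⟨R, hR, hiR, hsub⟩ := exists_circ hM hi y hy hiy
      obtain ⟨q, q1, q2, q3⟩ := h1 R hR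
      obtain ⟨t, ht, h4, h5⟩ := shrink hM hy (z := q)
        (fun k hk e => q2 k hk fun hr => hsub k hr e) hi (q1 i hiR)
      have := ih _ (hn ▸ card_lt_card h5) _ h4 rfl
      rw [map_sub, map_smul, smul_eq_mul] at this
      linarith only [this, q3, ht, mul_nonneg_of_nonpos_of_nonpos (Mathlib.Tactic.Linarith.sub_nonpos_of_le q3) (le_of_lt (Mathlib.Tactic.Linarith.sub_neg_of_lt ht))]

/-- The family `F` contains every positive circuit of the contraction by `X`. -/
def Comp (h : ℕ → Y →ₗ[ℝ] ℝ) (X : Finset ℕ) (F : Set (Finset ℕ)) : Prop :=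
  ∀ R, Circ h X R → R ∈ F

/-- The known circuits after contracting `S`. -/
def child (h : ℕ → Y →ₗ[ℝ] ℝ) (X S : Finset ℕ) (F : Set (Finset ℕ)) : Set (Finset ℕ) :=
  {R | Circ h (X ∪ S) R ∧ ∃ S' ∈ F, R = S' \ S}

theorem Comp.child (hM : ∀ i, M ≤ i → h i = 0) {X S F} (hc : Comp h X F) (hS : Circ h X S) :
    Comp h (X ∪ S) (child h X S F) := by
  intro R hR
  refine ⟨hR, ?_⟩
  obtain ⟨u, hu⟩ := hS
  obtain ⟨y, hy⟩ := hR
  obtain ⟨t, ht⟩ : ∃ t : ℝ, ∀ i ∈ S, 0 ≤ h i y + t * h i u := by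
    refine ⟨∑ i ∈ S, |h i y| / h i u, fun i hi => ?_⟩
    have h1 : |h i y| / h i u ≤ ∑ i ∈ S, |h i y| / h i u :=
      single_le_sum (f := fun i => |h i y| / h i u)
        (fun j hj => div_nonneg (abs_nonneg _) (hu.pos j hj).le) hi
    rw [div_le_iff₀ (hu.pos i hi)] at h1
    have := neg_abs_le (h i y)
    linarith only [h1, this]
  obtain ⟨i0, hi0⟩ := hy.ne
  have dX : ∀ i ∈ R, i ∉ X := fun i hi hx => hy.disj i hi (mem_union_left _ hx)
  have dS : ∀ i ∈ R, i ∉ S := fun i hi hx => hy.disj i hi (mem_union_right _ hx)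
  have val : ∀ i, i ∉ X → i ∉ S → h i (y + t • u) = h i y := fun i hi hs => by
    rw [map_add, map_smul, hu.van i hi hs]; simp
  have nn : NN h X (y + t • u) := by
    intro i hi
    by_cases hs : i ∈ S
    · rw [map_add, map_smul, smul_eq_mul]; exact ht i hs
    · rw [val i hi hs]; exact hy.nn i (by simp [hi, hs])
  obtain ⟨S', hS', hi', hsub⟩ := exists_circ hM (dX i0 hi0) _ nn
    (by rw [val _ (dX i0 hi0) (dS i0 hi0)]; exact (hy.pos i0 hi0).ne')
  refine ⟨S', hc S' hS', ?_⟩
  obtain ⟨q, hq⟩ := hS'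
  have sub : ∀ j ∈ S', j ∉ S → j ∈ R := by
    intro j hj hs
    by_contra hr
    have := hsub j hj
    rw [val j (hq.disj j hj) hs] at this
    exact this (hy.van j (by simp [hq.disj j hj, hs]) hr)
  obtain ⟨s, hs⟩ := hy.uniq q fun i hi hr => by
    rw [mem_union, not_or] at hi
    exact hq.van i hi.1 fun h' => hr (sub i h' hi.2)
  have s0 : s ≠ 0 := by
    intro e
    have := hs i0 hi0
    rw [e, zero_mul] at this
    exact (hq.pos i0 hi').ne' this
  ext j
  rw [mem_sdiff]
  refine ⟨fun hj => ⟨?_, dS j hj⟩, fun hj => sub j hj.1 hj.2⟩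
  by_contra hn
  have := hs j hj
  rw [hq.van j (dX j hj) hn] at this
  exact mul_ne_zero s0 (hy.pos j hj).ne' this.symm

theorem Circ.subset_range (hM : ∀ i, M ≤ i → h i = 0) {X S} (hS : Circ h X S) : S ⊆ range M := by
  obtain ⟨u, hu⟩ := hS
  intro i hi
  by_contra hlt
  have := hu.pos i hi
  rw [hM i (by simpa using hlt)] at this
  simp at this

/-- If all vertex figures at known circuits are complete, the family is complete. -/
theorem comp_of_children (hM : ∀ i, M ≤ i → h i = 0) {X F} (hF : ∀ S ∈ F, Circ h X S)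
    (hne : F.Nonempty) (hc : ∀ S ∈ F, Comp h (X ∪ S) (child h X S F)) : Comp h X F := by
  classical
  intro R hR
  by_contra hRF
  have fin : F.Finite := (finite_toSet (range M).powerset).subset fun S hS =>
    mem_coe.2 (mem_powerset.2 ((hF S hS).subset_range hM))
  choose! q hq using hF
  obtain ⟨y, hy⟩ := id hR
  let c0 : Y →ₗ[ℝ] ℝ := ∑ j ∈ (range M \ X) \ R, h j
  let σ : Y →ₗ[ℝ] ℝ := ∑ j ∈ range M \ X, h j
  have σpos : ∀ {S z}, Wit h X S z → 0 < σ z := by
    intro S z hz
    obtain ⟨i, hi⟩ := hz.ne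
    simp only [σ, LinearMap.coe_sum, Finset.sum_apply]
    exact sum_pos' (fun j hj => hz.nn j (mem_sdiff.1 hj).2)
      ⟨i, mem_sdiff.2 ⟨Circ.subset_range hM ⟨z, hz⟩ hi, hz.disj i hi⟩, hz.pos i hi⟩
  have c0pos : ∀ S ∈ F, 0 < c0 (q S) := by
    intro S hS
    have hz := hq S hS
    have : ¬ S ⊆ R := fun hsub => hRF (Circ.eq_of_subset ⟨_, hz⟩ hR hsub ▸ hS)
    obtain ⟨i, hi, hiR⟩ := not_subset.1 this
    simp only [c0, LinearMap.coe_sum, Finset.sum_apply]
    exact sum_pos' (fun j hj => hz.nn j (mem_sdiff.1 (mem_sdiff.1 hj).1).2)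
      ⟨i, mem_sdiff.2 ⟨mem_sdiff.2 ⟨Circ.subset_range hM ⟨_, hz⟩ hi, hz.disj i hi⟩, hiR⟩,
        hz.pos i hi⟩
  have c0y : c0 y = 0 := by
    simp only [c0, LinearMap.coe_sum, Finset.sum_apply]
    exact sum_eq_zero fun j hj => hy.van j (mem_sdiff.1 (mem_sdiff.1 hj).1).2 (mem_sdiff.1 hj).2
  obtain ⟨S, hS, hmin⟩ := Set.exists_min_image F (fun S => c0 (q S) / σ (q S)) fin hne
  have hμ : 0 < c0 (q S) / σ (q S) := div_pos (c0pos S hS) (σpos (hq S hS))
  set μ := c0 (q S) / σ (q S) with hμe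
  let c : Y →ₗ[ℝ] ℝ := c0 - μ • σ
  have cv : ∀ z, c z = c0 z - μ * σ z := fun z => rfl
  have loc : ∀ z w : Y, ∀ t : ℝ, (∀ i, i ∉ X → h i z = t * h i w) → c z = t * c w := by
    intro z w t hz
    have e1 : c0 z = t * c0 w := by
      simp only [c0, LinearMap.coe_sum, Finset.sum_apply, mul_sum]
      exact sum_congr rfl fun j hj => hz j (mem_sdiff.1 (mem_sdiff.1 hj).1).2
    have e2 : σ z = t * σ w := by
      simp only [σ, LinearMap.coe_sum, Finset.sum_apply, mul_sum]
      exact sum_congr rfl fun j hj => hz j (mem_sdiff.1 hj).2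
    rw [cv, cv, e1, e2]; ring
  have key := nonneg_of_circ hM (X := X ∪ S) c (fun z hz => ?_) (fun R' hR' => ?_) y
    fun i hi => hy.nn i fun hx => hi (mem_union_left _ hx)
  · rw [cv, c0y] at key
    have := mul_pos hμ (σpos hy)
    linarith only [key, this]
  · have hv : Van h X S z := fun i hi hs => hz i (by simp [hi, hs])
    obtain ⟨t, ht⟩ := (hq S hS).uniq z hv
    rw [loc z (q S) t fun i hi => ?_, cv, hμe, div_mul_cancel₀ _ (σpos (hq S hS)).ne']
    · simp
    · by_cases hs : i ∈ S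
      · exact ht i hs
      · rw [hv i hi hs, (hq S hS).van i hi hs, mul_zero]
  · obtain ⟨-, S', hS', rfl⟩ := hc S hS R' hR'
    refine ⟨q S', fun i hi => (hq S' hS').pos i (mem_sdiff.1 hi).1, fun i hi hs => ?_, ?_⟩
    · rw [mem_union, not_or] at hi
      exact (hq S' hS').van i hi.1 fun h' => hs (mem_sdiff.2 ⟨h', hi.2⟩)
    · have := hmin S' hS'
      rw [le_div_iff₀ (σpos (hq S' hS'))] at this
      rw [cv]; linarith only [this]

/-- Every other circuit is, outside `S`, a union of at most `|S| + 1` circuits of the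
contraction by `S`. -/
theorem exists_cover (hM : ∀ i, M ≤ i → h i = 0) {X S R} (hR : Circ h X R) :
    ∃ J : Finset (Finset ℕ), J.card ≤ S.card + 1 ∧ (∀ T ∈ J, Circ h (X ∪ S) T) ∧
      ∀ i, i ∈ R \ S ↔ ∃ T ∈ J, i ∈ T := by
  classical
  obtain ⟨y, hy⟩ := hR
  let P : Finset (Finset ℕ) → Prop := fun J => (∀ T ∈ J, Circ h (X ∪ S) T) ∧
    ∀ i, i ∈ R \ S ↔ ∃ T ∈ J, i ∈ T
  have ex : ∃ n, ∃ J, P J ∧ J.card = n := by
    refine ⟨_, (R \ S).powerset.filter fun T => Circ h (X ∪ S) T, ⟨fun T hT => (mem_filter.1 hT).2,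
      fun i => ⟨fun hi => ?_, ?_⟩⟩, rfl⟩
    · obtain ⟨hi1, hi2⟩ := mem_sdiff.1 hi
      obtain ⟨T, h1, h2, h3⟩ := exists_circ hM (X := X ∪ S) (i := i)
        (by simp [hy.disj i hi1, hi2]) y (fun j hj => hy.nn j fun hx => hj (mem_union_left _ hx))
        (hy.pos i hi1).ne'
      refine ⟨T, mem_filter.2 ⟨mem_powerset.2 fun j hj => ?_, h1⟩, h2⟩
      obtain ⟨q, hq⟩ := h1
      have := hq.disj j hj
      rw [mem_union, not_or] at this
      refine mem_sdiff.2 ⟨?_, this.2⟩
      by_contra hr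
      exact h3 j hj (hy.van j this.1 hr)
    · rintro ⟨T, hT, hi⟩
      exact mem_powerset.1 (mem_filter.1 hT).1 hi
  obtain ⟨J, hJ, hcard⟩ := Nat.find_spec ex
  refine ⟨J, ?_, hJ⟩
  have priv : ∀ T ∈ J, ∃ p ∈ T, ∀ T' ∈ J, T' ≠ T → p ∉ T' := by
    intro T hT
    by_contra hno
    push Not at hno
    have : Nat.find ex ≤ (J.erase T).card := Nat.find_min' ex ⟨J.erase T,
      ⟨fun T' h' => hJ.1 T' (mem_of_mem_erase h'), fun i => ⟨fun hi => ?_, fun ⟨T', h1, h2⟩ =>
        (hJ.2 i).2 ⟨T', mem_of_mem_erase h1, h2⟩⟩⟩, rfl⟩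
    · rw [card_erase_of_mem hT, hcard] at this
      have := card_pos.2 ⟨T, hT⟩
      omega
    · obtain ⟨T', h1, h2⟩ := (hJ.2 i).1 hi
      by_cases e : T' = T
      · obtain ⟨T'', a1, a2, a3⟩ := hno i (e ▸ h2)
        exact ⟨T'', mem_erase.2 ⟨a2, a1⟩, a3⟩
      · exact ⟨T', mem_erase.2 ⟨e, h1⟩, h2⟩
  choose! p hp1 hp2 using priv
  have hq := hJ.1
  choose! q hq using hq
  obtain ⟨i0, hi0⟩ := hy.ne
  let comb : (J → ℝ) →ₗ[ℝ] Y := Fintype.linearCombination ℝ fun T : J => q T
  let φ : (J → ℝ) →ₗ[ℝ] (S → ℝ) × ℝ :=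
    (LinearMap.pi fun i : S => (if i.1 ∈ R then 0 else h i) ∘ₗ comb).prod (h i0 ∘ₗ comb)
  have inj : Function.Injective φ := by
    rw [injective_iff_map_eq_zero]
    intro a ha
    have a1 : ∀ i ∈ S, i ∉ R → h i (comb a) = 0 := by
      intro i hi hr
      have := congrFun (congrArg Prod.fst ha) ⟨i, hi⟩
      simpa [φ, hr] using this
    have a2 : h i0 (comb a) = 0 := congrArg Prod.snd ha
    have cv : ∀ i, h i (comb a) = ∑ T : J, a T * h i (q T) := by
      intro i
      simp [comb, Fintype.linearCombination_apply]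
    obtain ⟨t, ht⟩ := hy.uniq (comb a) fun i hi hr => by
      by_cases hs : i ∈ S
      · exact a1 i hs hr
      · rw [cv]
        refine sum_eq_zero fun T _ => ?_
        rw [(hq T T.2).van i (by simp [hi, hs]) fun hT =>
          hr (mem_sdiff.1 ((hJ.2 i).2 ⟨T, T.2, hT⟩)).1, mul_zero]
    have t0 : t = 0 := by
      have := ht i0 hi0
      rw [a2] at this
      exact (mul_eq_zero.1 this.symm).resolve_right (hy.pos i0 hi0).ne'
    funext T
    have b1 := ht (p T) (mem_sdiff.1 ((hJ.2 _).2 ⟨T, T.2, hp1 T T.2⟩)).1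
    rw [t0, zero_mul, cv, sum_eq_single T] at b1
    · exact (mul_eq_zero.1 b1).resolve_right ((hq T T.2).pos _ (hp1 T T.2)).ne'
    · intro T' _ hne
      rw [(hq T' T'.2).van _ ((hq T T.2).disj _ (hp1 T T.2))
        (hp2 T T.2 T' T'.2 fun e => hne (Subtype.ext e)), mul_zero]
    · simp
  have := LinearMap.finrank_le_finrank_of_injective inj
  simpa using this

/-- Bookkeeping for the depth of the recursion: `j` contractions with gain `g`. -/
def Pot (h : ℕ → Y →ₗ[ℝ] ℝ) (X : Finset ℕ) (j g : ℕ) : Prop :=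
  (∃ I : Finset ℕ, I.card + g ≤ X.card ∧
    ∀ z, (∀ i, i ∉ X → h i z = 0) → (∀ i ∈ I, h i z = 0) → z = 0) ∧
  ∃ W : Submodule ℝ Y, j ≤ Module.finrank ℝ W ∧ ∀ z ∈ W, ∀ i, i ∉ X → h i z = 0

theorem Pot.zero (hp : ∀ z, (∀ i, h i z = 0) → z = 0) : Pot h ∅ 0 0 :=
  ⟨⟨∅, by simp, fun z hz _ => hp z fun i => hz i (by simp)⟩, ⊥, by simp, by simp⟩

theorem Pot.step [FiniteDimensional ℝ Y] {X S j g g'} (hp : Pot h X j g) (hS : Circ h X S)
    (hg : g' + 1 ≤ S.card) : Pot h (X ∪ S) (j + 1) (g + g') := by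
  obtain ⟨⟨I, h1, h2⟩, W, h3, h4⟩ := hp
  obtain ⟨u, hu⟩ := hS
  obtain ⟨i0, hi0⟩ := hu.ne
  refine ⟨⟨insert i0 I, ?_, fun z hz hI => h2 z (fun i hi => ?_)
    fun i hi => hI i (mem_insert_of_mem hi)⟩, W ⊔ Submodule.span ℝ {u}, ?_, fun z hz i hi => ?_⟩
  · rw [card_union_of_disjoint (disjoint_right.2 hu.disj)]
    have := card_insert_le i0 I
    omega
  · have hv : Van h X S z := fun i hi hs => hz i (by simp [hi, hs])
    obtain ⟨t, ht⟩ := hu.uniq z hv
    have t0 : t = 0 := by
      have := ht i0 hi0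
      rw [hI i0 (mem_insert_self _ _)] at this
      exact (mul_eq_zero.1 this.symm).resolve_right (hu.pos i0 hi0).ne'
    by_cases hs : i ∈ S
    · rw [ht i hs, t0, zero_mul]
    · exact hv i hi hs
  · have : W < W ⊔ Submodule.span ℝ {u} := by
      refine lt_of_le_of_ne le_sup_left fun e => ?_
      have : u ∈ W := by
        rw [e]; exact Submodule.mem_sup_right (Submodule.mem_span_singleton_self u)
      exact (hu.pos i0 hi0).ne' (h4 u this i0 (hu.disj i0 hi0))
    have := Submodule.finrank_lt_finrank_of_lt this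
    omega
  · rw [mem_union, not_or] at hi
    obtain ⟨w, hw, v, hv, rfl⟩ := Submodule.mem_sup.1 hz
    obtain ⟨t, rfl⟩ := Submodule.mem_span_singleton.1 hv
    rw [map_add, map_smul, h4 w hw i hi.1, hu.van i hi.1 hi.2]; simp

theorem Pot.bound [FiniteDimensional ℝ Y] (hM : ∀ i, M ≤ i → h i = 0) {X j g}
    (hX : X ⊆ range M) (hp : Pot h X j g) :
    g + Module.finrank ℝ Y ≤ M ∧ j ≤ Module.finrank ℝ Y := by
  obtain ⟨⟨I, h1, h2⟩, W, h3, -⟩ := hp
  refine ⟨?_, h3.trans W.finrank_le⟩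
  let φ : Y →ₗ[ℝ] (↥((range M \ X) ∪ I) → ℝ) := LinearMap.pi fun i => h i
  have inj : Function.Injective φ := by
    rw [injective_iff_map_eq_zero]
    intro z hz
    refine h2 z (fun i hi => ?_) fun i hi => congrFun hz ⟨i, mem_union_right _ hi⟩
    by_cases hlt : i < M
    · exact congrFun hz ⟨i, mem_union_left _ (mem_sdiff.2 ⟨mem_range.2 hlt, hi⟩)⟩
    · rw [hM i (not_lt.1 hlt)]; rfl
  have h5 := LinearMap.finrank_le_finrank_of_injective inj
  rw [Module.finrank_fintype_fun_eq_card, Fintype.card_coe] at h5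
  have h6 := card_union_le (range M \ X) I
  have h7 := card_sdiff_add_card_eq_card hX
  rw [card_range] at h7
  omega

end Pool.Agent.Work.MP_0bf9cb_lc
end

-- merged part: Pool.Agent.Work.MP_0bf9cb_lc.Test
section
/-!
The polynomial-time test for positive circuits.
-/

namespace Pool.Agent.Work.MP_0bf9cb_lc

open Pool.Agent.Lib.Poly Finset

/-- The linear form given by row `i`. -/
def hf (D : ℕ) (rows : List (List ℚ)) (i : ℕ) : (Fin D → ℝ) →ₗ[ℝ] ℝ where
  toFun y := dot D (rows.getD i []) y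
  map_add' y z := by simp [dot, mul_add, sum_add_distrib]
  map_smul' t y := by simp [dot, mul_sum, mul_left_comm]

theorem hf_apply (D : ℕ) (rows : List (List ℚ)) (i : ℕ) (y : Fin D → ℝ) :
    hf D rows i y = dot D (rows.getD i []) y := rfl

theorem hf_zero (D : ℕ) (rows : List (List ℚ)) (i : ℕ) (hi : rows.length ≤ i) :
    hf D rows i = 0 := by
  ext y
  simp [hf_apply, List.getD_eq_getElem?_getD, List.getElem?_eq_none hi, dot, ent]

def zrows (rows : List (List ℚ)) (X S : List ℕ) : List (List ℚ) :=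
  ((List.range rows.length).filter fun i => decide (i ∉ X ∧ i ∉ S)).map fun i => rows.getD i []

def circR (D : ℕ) (rows : List (List ℚ)) (st : List Piv) (S : List ℕ) : Bool :=
  (List.range D).any fun c => S.all fun i =>
    decide (0 < resC st (rows.getD i []) c * resC st (rows.getD (S.headD 0) []) c) &&
    (List.range D).all fun c' =>
      decide (resC st (rows.getD i []) c' * resC st (rows.getD (S.headD 0) []) c =
        resC st (rows.getD (S.headD 0) []) c' * resC st (rows.getD i []) c)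

def circT (D : ℕ) (rows : List (List ℚ)) (X S : List ℕ) : Bool :=
  !S.isEmpty && (S.all fun i => decide (i ∉ X)) && circR D rows (rref D (zrows rows X S)) S

theorem van_iff (D : ℕ) (rows : List (List ℚ)) (X S : List ℕ) (y : Fin D → ℝ) :
    Van (hf D rows) X.toFinset S.toFinset y ↔ ∀ z ∈ zrows rows X S, dot D z y = 0 := by
  simp only [Van, List.mem_toFinset, zrows, List.mem_map, List.mem_filter, List.mem_range,
    decide_eq_true_eq]
  constructor
  · rintro hv z ⟨i, ⟨-, h1, h2⟩, rfl⟩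
    exact hv i h1 h2
  · intro hv i h1 h2
    by_cases hi : i < rows.length
    · exact hv _ ⟨i, ⟨hi, h1, h2⟩, rfl⟩
    · rw [hf_zero D rows i (not_lt.1 hi)]; rfl

theorem circT_iff (D : ℕ) (rows : List (List ℚ)) (X S : List ℕ) :
    circT D rows X S = true ↔ Circ (hf D rows) X.toFinset S.toFinset := by
  simp only [circT, circR, Bool.and_eq_true, Bool.not_eq_true', List.all_eq_true,
    decide_eq_true_eq, List.any_eq_true, List.mem_range]
  have probe : ∀ c < D, ∃ y, Van (hf D rows) X.toFinset S.toFinset y ∧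
      ∀ i, hf D rows i y = resC (rref D (zrows rows X S)) (rows.getD i []) c := by
    intro c hc
    obtain ⟨y, hy⟩ := exists_probe D (zrows rows X S) hc
    exact ⟨y, (van_iff ..).2 fun z hz => by rw [hy, res_eq_zero hz hc]; simp, fun i => hy _⟩
  have ev : ∀ y, Van (hf D rows) X.toFinset S.toFinset y → ∀ i, hf D rows i y =
      ∑ c : Fin D, (resC (rref D (zrows rows X S)) (rows.getD i []) c : ℝ) * y c :=
    fun y hy i => dot_eq_res ((van_iff ..).1 hy) _
  generalize rref D (zrows rows X S) = st at probe ev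
  have hd : S.isEmpty = false → S.headD 0 ∈ S := by cases S <;> simp
  generalize S.headD 0 = i0 at hd
  set ρ : ℕ → ℕ → ℚ := fun i c => resC st (rows.getD i []) c with hρ
  simp only [← show ∀ i c, ρ i c = resC st (rows.getD i []) c from fun _ _ => rfl] at probe ev ⊢
  constructor
  · rintro ⟨⟨h1, h2⟩, c, hc, h3⟩
    obtain ⟨y, hy1, hy2⟩ := probe c hc
    have h0 := hd h1
    have hne : (ρ i0 c : ℝ) ≠ 0 := by
      have := (h3 i0 h0).1
      intro e
      rw [show ρ i0 c = 0 by exact_mod_cast e] at this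
      simp at this
    refine ⟨(ρ i0 c : ℝ) • y, ⟨i0, List.mem_toFinset.2 h0⟩, fun i hi => ?_, fun i hi => ?_,
      fun i a b => by rw [map_smul, hy1 i a b, smul_zero], fun z hz => ?_⟩
    · simpa using h2 i (List.mem_toFinset.1 hi)
    · rw [map_smul, hy2, smul_eq_mul, mul_comm]
      exact_mod_cast (h3 i (List.mem_toFinset.1 hi)).1
    · refine ⟨hf D rows i0 z / (ρ i0 c : ℝ) ^ 2, fun i hi => ?_⟩
      have e : hf D rows i z * ρ i0 c = hf D rows i0 z * ρ i c := by
        rw [ev z hz, ev z hz, sum_mul, sum_mul]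
        refine sum_congr rfl fun c' _ => ?_
        have := (h3 i (List.mem_toFinset.1 hi)).2 c' c'.2
        have e' : (ρ i c' : ℝ) * ρ i0 c = ρ i0 c' * ρ i c := by exact_mod_cast this
        linear_combination z c' * e'
      rw [map_smul, hy2, smul_eq_mul]
      field_simp
      linear_combination e
  · rintro ⟨y, hy⟩
    have h1 : S.isEmpty = false := by
      obtain ⟨i, hi⟩ := hy.ne
      cases S <;> simp_all
    have h0 := List.mem_toFinset.2 (hd h1)
    refine ⟨⟨h1, fun i hi => by simpa using hy.disj i (List.mem_toFinset.2 hi)⟩, ?_⟩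
    have : ∃ c : Fin D, ρ i0 c ≠ 0 := by
      by_contra hno
      push Not at hno
      have := hy.pos i0 h0
      rw [ev y hy.van] at this
      simp [hno] at this
    obtain ⟨c, hc⟩ := this
    have key : ∀ c' < D, ∃ t : ℝ, ∀ i ∈ S, (ρ i c' : ℝ) = t * hf D rows i y := by
      intro c' hc'
      obtain ⟨z, hz1, hz2⟩ := probe c' hc'
      obtain ⟨t, ht⟩ := hy.uniq z hz1
      exact ⟨t, fun i hi => by rw [← hz2, ht i (List.mem_toFinset.2 hi)]⟩
    obtain ⟨t, ht⟩ := key c c.2
    have t0 : t ≠ 0 := by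
      intro e
      have := ht i0 (hd h1)
      rw [e, zero_mul] at this
      exact hc (by exact_mod_cast this)
    refine ⟨c, c.2, fun i hi => ⟨?_, fun c' hc' => ?_⟩⟩
    · have : (0 : ℝ) < ρ i c * ρ i0 c := by
        rw [ht i hi, ht i0 (hd h1)]
        have a1 := hy.pos i (List.mem_toFinset.2 hi)
        have a2 := hy.pos i0 h0
        have a3 : 0 < t * t := mul_self_pos.2 t0
        have := mul_pos a3 (mul_pos a1 a2)
        linarith only [this, show t * hf D rows i y * (t * hf D rows i0 y) =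
          t * t * (hf D rows i y * hf D rows i0 y) by ring]
      exact_mod_cast this
    · obtain ⟨s, hs⟩ := key c' hc'
      have : (ρ i c' : ℝ) * ρ i0 c = ρ i0 c' * ρ i c := by
        rw [ht i hi, ht i0 (hd h1), hs i hi, hs i0 (hd h1)]; ring
      exact_mod_cast this

variable {α : Type} [Enc α]

@[fun_prop] theorem pt_zrows {rows : α → List (List ℚ)} {X S : α → List ℕ} (h1 : PT rows)
    (h2 : PT X) (h3 : PT S) : PT fun x => zrows (rows x) (X x) (S x) := by
  unfold zrows; fun_prop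

@[fun_prop] theorem pt_circR {D : α → ℕ} {rows : α → List (List ℚ)} {st : α → List Piv}
    {S : α → List ℕ} (h0 : PT D) (h1 : PT rows) (h2 : PT st) (h3 : PT S) :
    PT fun x => circR (D x) (rows x) (st x) (S x) := by
  unfold circR; fun_prop

@[fun_prop] theorem pt_circT {D : α → ℕ} {rows : α → List (List ℚ)} {X S : α → List ℕ}
    (h0 : PT D) (h1 : PT rows) (h2 : PT X) (h3 : PT S) :
    PT fun x => circT (D x) (rows x) (X x) (S x) := by
  unfold circT; fun_prop

end Pool.Agent.Work.MP_0bf9cb_lc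
end

-- merged part: Pool.Agent.Work.MP_0bf9cb_lc.Algo
section
/-!
The recursion: peel a known circuit with small support, or branch on all known circuits.
-/

namespace Pool.Agent.Work.MP_0bf9cb_lc

open Pool.Agent.Lib.Poly Finset

/-- Number of branchings so far, contracted set, known circuits. -/
abbrev St := ℕ × List ℕ × List (List ℕ)

def childY (D : ℕ) (rows : List (List ℚ)) (s : St) (S : List ℕ) : List (List ℕ) :=
  (s.2.2.map fun S' => S'.filter fun i => decide (i ∉ S)).filter (circT D rows (s.2.1 ++ S))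

def cardL (M : ℕ) (S : List ℕ) : ℕ := (List.range M).countP fun i => decide (i ∈ S)

def small (rows : List (List ℚ)) (k : ℕ) (s : St) : List (List ℕ) :=
  s.2.2.filter fun S => decide (cardL rows.length S ≤ k)

def kids (D : ℕ) (rows : List (List ℚ)) (k : ℕ) (s : St) : List St :=
  if (small rows k s).isEmpty then s.2.2.map fun S => (s.1 + 1, s.2.1 ++ S, childY D rows s S)
  else [(s.1, s.2.1 ++ (small rows k s).headD [], childY D rows s ((small rows k s).headD []))]

def cand (M : ℕ) (Y' : List (List ℕ)) (τ τ' : List ℕ) : List ℕ :=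
  (List.range M).filter fun i => decide (i ∈ τ') || τ.any fun a => decide (i ∈ Y'.getD a [])

def known (Y : List (List ℕ)) (R : List ℕ) : Bool :=
  Y.any fun S => (R.all fun i => decide (i ∈ S)) && S.all fun i => decide (i ∈ R)

def localOK (D : ℕ) (rows : List (List ℚ)) (Tup : List (List ℕ)) (s : St)
    (Y' : List (List ℕ)) : Bool :=
  Tup.all fun τ => Tup.all fun τ' =>
    !circT D rows s.2.1 (cand rows.length Y' τ τ') || known s.2.2 (cand rows.length Y' τ τ')

def okS (D : ℕ) (rows : List (List ℚ)) (k : ℕ) (T : List ℕ) (Tup : List (List ℕ)) (s : St) :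
    Bool :=
  if s.2.2.isEmpty then T.all fun i => decide (i ∈ s.2.1)
  else if (small rows k s).isEmpty then true
  else localOK D rows Tup s (childY D rows s ((small rows k s).headD []))

def fam (Y : List (List ℕ)) : Set (Finset ℕ) := {R | ∃ S ∈ Y, S.toFinset = R}

theorem known_iff (Y : List (List ℕ)) (R : List ℕ) : known Y R = true ↔ R.toFinset ∈ fam Y := by
  simp only [known, fam, List.any_eq_true, Bool.and_eq_true, List.all_eq_true, decide_eq_true_eq,
    Set.mem_setOf_eq]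
  refine exists_congr fun S => and_congr_right fun _ => ⟨fun h => ?_, fun h => ?_⟩
  · ext i; simp only [List.mem_toFinset]; exact ⟨h.2 i, h.1 i⟩
  · have := fun i => Finset.ext_iff.1 h i
    simp only [List.mem_toFinset] at this
    exact ⟨fun i => (this i).2, fun i => (this i).1⟩

theorem fam_childY (D : ℕ) (rows : List (List ℚ)) (s : St) (S : List ℕ) :
    fam (childY D rows s S) = child (hf D rows) s.2.1.toFinset S.toFinset (fam s.2.2) := by
  have e : ∀ S' : List ℕ, (S'.filter fun i => decide (i ∉ S)).toFinset =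
      S'.toFinset \ S.toFinset := fun S' => by ext i; simp
  ext R
  simp only [fam, childY, child, List.mem_filter, List.mem_map, circT_iff, Set.mem_setOf_eq,
    List.toFinset_append]
  constructor
  · rintro ⟨_, ⟨⟨S', h1, rfl⟩, h2⟩, rfl⟩
    exact ⟨h2, _, ⟨S', h1, rfl⟩, e S'⟩
  · rintro ⟨h2, _, ⟨S', h1, rfl⟩, rfl⟩
    exact ⟨_, ⟨⟨S', h1, rfl⟩, by rwa [e]⟩, e S'⟩

theorem cardL_eq {M : ℕ} {S : List ℕ} (h : S.toFinset ⊆ range M) :
    cardL M S = S.toFinset.card := by
  rw [cardL, List.countP_eq_length_filter,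
    ← List.toFinset_card_of_nodup (List.nodup_range.filter _)]
  congr 1
  ext i
  simp only [List.mem_toFinset, List.mem_filter, List.mem_range, decide_eq_true_eq,
    and_iff_right_iff_imp]
  exact fun hi => mem_range.1 (h (List.mem_toFinset.2 hi))

/-- Standing assumptions on the parameters. -/
structure Par (D : ℕ) (rows : List (List ℚ)) (k n N0 : ℕ) (T : List ℕ) (Tup : List (List ℕ)) :
    Prop where
  t1 : ∀ y, NN (hf D rows) ∅ y → ∀ i, hf D rows i y ≠ 0 → i ∈ T
  t2 : ∃ p, NN (hf D rows) ∅ p ∧ ∀ i ∈ T, 0 < hf D rows i p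
  tup : ∀ τ : List ℕ, τ.length = k + 1 → (∀ a ∈ τ, a ≤ N0) → τ ∈ Tup
  hn : n ≤ N0
  hM : rows.length ≤ N0

structure Good (D : ℕ) (rows : List (List ℚ)) (k n B j : ℕ) (s : St) : Prop where
  circ : ∀ S ∈ s.2.2, Circ (hf D rows) s.2.1.toFinset S.toFinset
  szS : ∀ S ∈ s.2.2, sz S ≤ B
  len : s.2.2.length ≤ n
  szX : sz s.2.1 ≤ j * B
  pot : Pot (hf D rows) s.2.1.toFinset j (s.1 * k)
  le : s.1 ≤ j
  pt : ∃ x, NN (hf D rows) ∅ x ∧ ∀ i ∈ s.2.1, 0 < hf D rows i x

theorem exists_lift {Y : Type} [AddCommGroup Y] [Module ℝ Y] {h : ℕ → Y →ₗ[ℝ] ℝ} {X : Finset ℕ}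
    {x y : Y} (hx : NN h ∅ x) (hp : ∀ i ∈ X, 0 < h i x) (hy : NN h X y) :
    ∃ t : ℝ, NN h ∅ (y + t • x) ∧ (∀ i ∈ X, 0 < h i (y + t • x)) ∧
      ∀ i, h i y ≤ h i (y + t • x) := by
  have h0 : 0 ≤ ∑ i ∈ X, |h i y| / h i x :=
    sum_nonneg fun j hj => div_nonneg (abs_nonneg _) (hp j hj).le
  have h1 : ∀ i ∈ X, 0 < h i (y + (∑ i ∈ X, |h i y| / h i x + 1) • x) := by
    intro i hi
    have h1 : |h i y| / h i x ≤ ∑ i ∈ X, |h i y| / h i x :=
      single_le_sum (f := fun i => |h i y| / h i x)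
        (fun j hj => div_nonneg (abs_nonneg _) (hp j hj).le) hi
    rw [div_le_iff₀ (hp i hi)] at h1
    have := neg_abs_le (h i y)
    have := hp i hi
    rw [map_add, map_smul, smul_eq_mul]
    linarith
  have h2 : ∀ i, h i y ≤ h i (y + (∑ i ∈ X, |h i y| / h i x + 1) • x) := by
    intro i
    have := hx i (by simp)
    rw [map_add, map_smul, smul_eq_mul]
    linarith only [this, h0, mul_nonneg_of_nonpos_of_nonpos (Mathlib.Tactic.Linarith.sub_nonpos_of_le h0) (Mathlib.Tactic.Linarith.sub_nonpos_of_le this)]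
  refine ⟨_, fun i _ => ?_, h1, h2⟩
  by_cases hi : i ∈ X
  · exact (h1 i hi).le
  · exact (hy i hi).trans (h2 i)

theorem sz_filter_le {β : Type} [Enc β] (p : β → Bool) (l : List β) : sz (l.filter p) ≤ sz l := by
  induction l with
  | nil => simp
  | cons a l ih => rw [List.filter_cons]; split_ifs <;> simp <;> omega

variable {D : ℕ} {rows : List (List ℚ)} {k n B j N0 : ℕ} {T : List ℕ} {Tup : List (List ℕ)}

theorem Good.child {s : St} (hs : Good D rows k n B j s) {S : List ℕ} (hS : S ∈ s.2.2) (b : ℕ)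
    (hb : b * k + 1 ≤ S.toFinset.card) (hb1 : b ≤ 1) :
    Good D rows k n B (j + 1) (s.1 + b, s.2.1 ++ S, childY D rows s S) := by
  refine ⟨fun R hR => ?_, fun R hR => ?_, ?_, ?_, ?_, ?_, ?_⟩
  · exact (circT_iff ..).1 (List.mem_filter.1 hR).2
  · obtain ⟨S', h1, rfl⟩ := List.mem_map.1 (List.mem_filter.1 hR).1
    exact (sz_filter_le _ _).trans (hs.szS S' h1)
  · exact (List.length_filter_le _ _).trans (by simpa using hs.len)
  · have := hs.szX
    have := hs.szS S hS
    simp only [sz_append, Nat.add_mul]; omega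
  · simp only [List.toFinset_append, Nat.add_mul]
    exact hs.pot.step (hs.circ S hS) hb
  · have := hs.le
    simp only; omega
  · obtain ⟨x, h1, h2⟩ := hs.pt
    obtain ⟨u, hu⟩ := hs.circ S hS
    obtain ⟨t, a1, a2, a3⟩ := exists_lift h1 (fun i hi => h2 i (List.mem_toFinset.1 hi)) hu.nn
    refine ⟨_, a1, fun i hi => ?_⟩
    rcases List.mem_append.1 hi with hi | hi
    · exact a2 i (List.mem_toFinset.2 hi)
    · exact (hu.pos i (List.mem_toFinset.2 hi)).trans_le (a3 i)

theorem small_head {s : St} (h : ¬ (small rows k s).isEmpty = true) :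
    (small rows k s).headD [] ∈ s.2.2 ∧ cardL rows.length ((small rows k s).headD []) ≤ k := by
  have : (small rows k s).headD [] ∈ small rows k s := by
    cases e : small rows k s <;> simp_all
  simpa [small] using this

theorem Good.kids {s : St} (hs : Good D rows k n B j s) :
    ∀ c ∈ kids D rows k s, Good D rows k n B (j + 1) c := by
  intro c hc
  unfold MP_0bf9cb_lc.kids at hc
  split_ifs at hc with h0
  · obtain ⟨S, hS, rfl⟩ := List.mem_map.1 hc
    refine hs.child hS 1 ?_ le_rfl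
    rw [List.isEmpty_iff, small, List.filter_eq_nil_iff] at h0
    have := h0 S hS
    rw [cardL_eq ((hs.circ S hS).subset_range (hf_zero D rows))] at this
    simp only [decide_eq_true_eq] at this
    omega
  · rw [List.mem_singleton.1 hc]
    obtain ⟨h1, -⟩ := small_head h0
    obtain ⟨u, hu⟩ := hs.circ _ h1
    exact hs.child h1 0 (by simpa using hu.ne) (by omega)

theorem exists_tuple (l : List ℕ) (K N : ℕ) (hl : l.length ≤ K) (hN : ∀ a ∈ l, a ≤ N) :
    ∃ τ : List ℕ, τ.length = K ∧ (∀ a ∈ τ, a ≤ N) ∧ ∀ a, a ∈ τ → a ∈ l ∨ a = N := by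
  refine ⟨l ++ List.replicate (K - l.length) N, by simp; omega, fun a ha => ?_, fun a ha => ?_⟩
  · rcases List.mem_append.1 ha with ha | ha
    · exact hN a ha
    · exact (List.eq_of_mem_replicate ha).le
  · exact (List.mem_append.1 ha).imp_right List.eq_of_mem_replicate

theorem exists_tuple' (l : List ℕ) (K N : ℕ) (hl : l.length ≤ K) (hN : ∀ a ∈ l, a ≤ N) :
    ∃ τ : List ℕ, τ.length = K ∧ (∀ a ∈ τ, a ≤ N) ∧ (∀ a ∈ τ, a ∈ l ∨ a = N) ∧
      ∀ a ∈ l, a ∈ τ := by
  refine ⟨l ++ List.replicate (K - l.length) N, by simp; omega, fun a ha => ?_, fun a ha => ?_,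
    fun a ha => List.mem_append_left _ ha⟩
  · rcases List.mem_append.1 ha with ha | ha
    · exact hN a ha
    · exact (List.eq_of_mem_replicate ha).le
  · exact (List.mem_append.1 ha).imp_right List.eq_of_mem_replicate

theorem cand_cover (hP : Par D rows k n N0 T Tup) {s : St} (hs : Good D rows k n B j s)
    {S : List ℕ} (hk : S.toFinset.card ≤ k)
    (hc : Comp (hf D rows) (s.2.1.toFinset ∪ S.toFinset) (fam (childY D rows s S)))
    {R : Finset ℕ} (hR : Circ (hf D rows) s.2.1.toFinset R) :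
    ∃ τ ∈ Tup, ∃ τ' ∈ Tup, (cand rows.length (childY D rows s S) τ τ').toFinset = R := by
  classical
  obtain ⟨J, h1, h2, h3⟩ := exists_cover (hf_zero D rows) (S := S.toFinset) hR
  have hlen : (childY D rows s S).length ≤ N0 :=
    ((List.length_filter_le _ _).trans (by simpa using hs.len)).trans hP.hn
  generalize childY D rows s S = Y' at hc hlen
  have idx : ∀ U ∈ J, ∃ a < Y'.length, (Y'.getD a []).toFinset = U := by
    intro U hU
    obtain ⟨S', a1, a2⟩ := hc U (h2 U hU)
    obtain ⟨a, ha, rfl⟩ := List.getElem_of_mem a1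
    exact ⟨a, ha, by rw [List.getD_eq_getElem _ _ ha, a2]⟩
  choose! ix ix1 ix2 using idx
  obtain ⟨τ, b1, b2, b3, b4⟩ := exists_tuple' (J.toList.map ix) (k + 1) N0 (by simp; omega) (by
    intro a ha
    obtain ⟨U, hU, rfl⟩ := List.mem_map.1 ha
    exact (ix1 U (mem_toList.1 hU)).le.trans hlen)
  have hRM := hR.subset_range (hf_zero D rows)
  obtain ⟨τ', c1, c2, c3, c4⟩ := exists_tuple' (R ∩ S.toFinset).toList (k + 1) N0
    (by rw [length_toList]; exact (card_le_card inter_subset_right).trans (by omega)) (by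
    intro a ha
    have := mem_range.1 (hRM (mem_inter.1 (mem_toList.1 ha)).1)
    have := hP.hM
    omega)
  refine ⟨τ, hP.tup τ b1 b2, τ', hP.tup τ' c1 c2, ?_⟩
  ext i
  simp only [cand, List.mem_toFinset, List.mem_filter, List.mem_range, Bool.or_eq_true,
    decide_eq_true_eq, List.any_eq_true]
  constructor
  · rintro ⟨hi, hi' | ⟨a, ha, hi'⟩⟩
    · rcases c3 i hi' with e | e
      · exact (mem_inter.1 (mem_toList.1 e)).1
      · have := hP.hM; omega
    · rcases b3 a ha with e | e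
      · obtain ⟨U, hU, rfl⟩ := List.mem_map.1 e
        have hU' := mem_toList.1 hU
        exact (mem_sdiff.1 ((h3 i).2 ⟨U, hU', ix2 U hU' ▸ List.mem_toFinset.2 hi'⟩)).1
      · rw [List.getD_eq_default _ _ (by omega)] at hi'
        simp at hi'
  · intro hi
    refine ⟨mem_range.1 (hRM hi), ?_⟩
    by_cases hiS : i ∈ S.toFinset
    · exact Or.inl (c4 i (mem_toList.2 (mem_inter.2 ⟨hi, hiS⟩)))
    · obtain ⟨U, hU, hiU⟩ := (h3 i).1 (mem_sdiff.2 ⟨hi, hiS⟩)
      refine Or.inr ⟨ix U, b4 _ (List.mem_map.2 ⟨U, mem_toList.2 hU, rfl⟩), ?_⟩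
      rw [← List.mem_toFinset, ix2 U hU]; exact hiU

def CompS (D : ℕ) (rows : List (List ℚ)) (s : St) : Prop :=
  Comp (hf D rows) s.2.1.toFinset (fam s.2.2)

theorem comp_iff (hP : Par D rows k n N0 T Tup) {s : St} (hs : Good D rows k n B j s) :
    CompS D rows s ↔ okS D rows k T Tup s = true ∧ ∀ c ∈ kids D rows k s, CompS D rows c := by
  have hM := hf_zero D rows
  have down : CompS D rows s → ∀ b, ∀ S ∈ s.2.2,
      CompS D rows (b, s.2.1 ++ S, childY D rows s S) := by
    intro hc b S hS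
    simp only [CompS, List.toFinset_append, fam_childY]
    exact Comp.child hM hc (hs.circ S hS)
  unfold okS kids
  by_cases h0 : s.2.2.isEmpty = true
  · have e : s.2.2 = [] := List.isEmpty_iff.1 h0
    have e' : (small rows k s).isEmpty = true := by simp [small, e]
    simp only [h0, e', if_true, List.all_eq_true, decide_eq_true_eq]
    simp only [CompS, e, List.map_nil, List.not_mem_nil, false_imp_iff, implies_true, and_true]
    constructor
    · intro hc i hi
      by_contra hX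
      obtain ⟨p, p1, p2⟩ := hP.t2
      obtain ⟨R, hR, -⟩ := exists_circ hM (X := s.2.1.toFinset) (i := i) (by simpa using hX) p
        (fun a _ => p1 a (by simp)) (p2 i hi).ne'
      simpa [fam] using hc R hR
    · rintro hT R ⟨y, hy⟩
      exfalso
      obtain ⟨x, h1, h2⟩ := hs.pt
      obtain ⟨t, a1, -, a3⟩ := exists_lift h1 (fun i hi => h2 i (List.mem_toFinset.1 hi)) hy.nn
      obtain ⟨i, hi⟩ := hy.ne
      exact hy.disj i hi (List.mem_toFinset.2
        (hT i (hP.t1 _ a1 i ((hy.pos i hi).trans_le (a3 i)).ne')))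
  · rw [if_neg h0]
    by_cases h1 : (small rows k s).isEmpty = true
    · simp only [h1, if_true, true_and]
      constructor
      · intro hc c hc'
        obtain ⟨S, hS, rfl⟩ := List.mem_map.1 hc'
        exact down hc _ S hS
      · intro hc
        refine comp_of_children hM ?_ ?_ ?_
        · rintro _ ⟨S, hS, rfl⟩
          exact hs.circ S hS
        · cases e : s.2.2 with
          | nil => simp [e] at h0
          | cons S _ => exact ⟨_, S, by simp, rfl⟩
        · rintro _ ⟨S, hS, rfl⟩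
          have := hc _ (List.mem_map.2 ⟨S, hS, rfl⟩)
          simpa only [CompS, List.toFinset_append, fam_childY] using this
    · rw [if_neg h1, if_neg h1]
      obtain ⟨a1, a2⟩ := small_head h1
      generalize (small rows k s).headD [] = S at a1 a2
      rw [cardL_eq ((hs.circ S a1).subset_range hM)] at a2
      simp only [localOK, List.all_eq_true, Bool.or_eq_true, Bool.not_eq_true', known_iff,
        List.mem_singleton, forall_eq]
      constructor
      · intro hc
        refine ⟨fun τ _ τ' _ => ?_, down hc _ S a1⟩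
        cases e : circT D rows s.2.1 (cand rows.length (childY D rows s S) τ τ')
        · exact Or.inl rfl
        · exact Or.inr (hc _ ((circT_iff ..).1 e))
      · rintro ⟨hl, hc⟩ R hR
        obtain ⟨τ, b1, τ', b2, rfl⟩ := cand_cover hP hs a2
          (by simpa only [CompS, List.toFinset_append] using hc) hR
        refine (hl τ b1 τ' b2).resolve_left ?_
        rw [(circT_iff ..).2 hR]; simp

/-- One round of the breadth-first evaluation. -/
def round (D : ℕ) (rows : List (List ℚ)) (k : ℕ) (T : List ℕ) (Tup : List (List ℕ))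
    (p : List St × Bool) : List St × Bool :=
  (p.1.flatMap (kids D rows k), p.2 && p.1.all (okS D rows k T Tup))

theorem Good.bound {s : St} (hs : Good D rows k n B j s) :
    s.1 * k + D ≤ rows.length ∧ j ≤ D := by
  have := hs.pot.bound (hf_zero D rows) (fun i hi => by
    obtain ⟨x, -, h2⟩ := hs.pt
    by_contra hlt
    have := h2 i (List.mem_toFinset.1 hi)
    rw [hf_zero D rows i (by simpa using hlt)] at this
    simp at this)
  simpa using this

theorem weight_kids {s : St} (hs : Good D rows k n B j s) {E : ℕ}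
    (hE : ∀ b, b * k + D ≤ rows.length → b ≤ D → b ≤ E) :
    ((kids D rows k s).map fun c => (n + 1) ^ (E - c.1)).sum ≤ (n + 1) ^ (E - s.1) := by
  have hk := hs.kids
  unfold kids at hk ⊢
  split_ifs at hk ⊢ with h0
  · cases e : s.2.2 with
    | nil => simp
    | cons S L =>
      have g := hk _ (List.mem_map.2 ⟨S, by simp [e], rfl⟩)
      have h1 : s.1 + 1 ≤ E := hE _ g.bound.1 (g.le.trans g.bound.2)
      have h2 := hs.len
      rw [e] at h2
      simp only [List.map_map, Function.comp_def, List.map_const', List.sum_replicate, smul_eq_mul]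
      rw [show E - s.1 = E - (s.1 + 1) + 1 by omega, pow_succ, mul_comm]
      exact Nat.mul_le_mul_left _ (by omega)
  · simp

theorem rounds (hP : Par D rows k n N0 T Tup) {s : St} (hs : Good D rows k n B 0 s) {E : ℕ}
    (hE : ∀ b, b * k + D ≤ rows.length → b ≤ D → b ≤ E) (j : ℕ) :
    (∀ c ∈ ((round D rows k T Tup)^[j] ([s], true)).1, Good D rows k n B j c) ∧
    (CompS D rows s ↔ ((round D rows k T Tup)^[j] ([s], true)).2 = true ∧
      ∀ c ∈ ((round D rows k T Tup)^[j] ([s], true)).1, CompS D rows c) ∧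
    ((((round D rows k T Tup)^[j] ([s], true)).1).map fun c => (n + 1) ^ (E - c.1)).sum ≤
      (n + 1) ^ E := by
  induction j with
  | zero => simpa using ⟨hs, Nat.pow_le_pow_right (by omega) (by omega)⟩
  | succ j ih =>
    rw [Function.iterate_succ_apply']
    generalize (round D rows k T Tup)^[j] ([s], true) = p at ih
    obtain ⟨L, f⟩ := p
    obtain ⟨h1, h2, h3⟩ := ih
    simp only [round] at h1 h2 h3 ⊢
    refine ⟨fun c hc => ?_, ?_, le_trans ?_ h3⟩
    · obtain ⟨c0, a1, a2⟩ := List.mem_flatMap.1 hc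
      exact (h1 c0 a1).kids c a2
    · rw [h2]
      simp only [Bool.and_eq_true, List.all_eq_true, List.mem_flatMap, and_assoc]
      refine and_congr_right fun _ => ⟨fun hc => ⟨fun c a => ((comp_iff hP (h1 c a)).1 (hc c a)).1,
        fun c ⟨c0, a1, a2⟩ => ((comp_iff hP (h1 c0 a1)).1 (hc c0 a1)).2 c a2⟩,
        fun hc c a => (comp_iff hP (h1 c a)).2 ⟨hc.1 c a, fun c' a' => hc.2 c' ⟨c, a, a'⟩⟩⟩
    · clear h2 h3
      induction L with
      | nil => simp
      | cons c L ih =>
        rw [List.flatMap_cons, List.map_append, List.sum_append, List.map_cons, List.sum_cons]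
        exact Nat.add_le_add (weight_kids (h1 c List.mem_cons_self) hE)
          (ih fun c hc => h1 c (List.mem_cons_of_mem _ hc))

theorem rounds_final (hP : Par D rows k n N0 T Tup) {s : St} (hs : Good D rows k n B 0 s) :
    CompS D rows s ↔ ((round D rows k T Tup)^[D + 1] ([s], true)).2 = true := by
  obtain ⟨h1, h2, -⟩ := rounds hP hs (E := D) (fun _ _ h => h) (D + 1)
  rw [h2]
  exact and_iff_left fun c hc => absurd (h1 c hc).bound.2 (by omega)

theorem rounds_size (hP : Par D rows k n N0 T Tup) {s : St} (hs : Good D rows k n B 0 s) {E : ℕ}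
    (hE : ∀ b, b * k + D ≤ rows.length → b ≤ D → b ≤ E) (j : ℕ) :
    sz ((round D rows k T Tup)^[j] ([s], true)) ≤
      2 * ((n + 1) ^ E * (2 * (2 * D + 1 + (2 * (D * B) + 1 + n * (2 * B + 1))) + 1)) + 2 := by
  obtain ⟨h1, -, h3⟩ := rounds hP hs hE j
  generalize (round D rows k T Tup)^[j] ([s], true) = p at h1 h3
  obtain ⟨L, f⟩ := p
  simp only at h1 h3
  have a1 : L.length ≤ (n + 1) ^ E := by
    refine le_trans ?_ h3
    have := List.card_nsmul_le_sum (L.map fun c => (n + 1) ^ (E - c.1)) 1 (by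
      intro x hx
      obtain ⟨c, -, rfl⟩ := List.mem_map.1 hx
      exact Nat.one_le_pow _ _ (by omega))
    simpa using this
  have a2 := sz_list_le L (2 * D + 1 + (2 * (D * B) + 1 + n * (2 * B + 1))) fun c hc => by
    have g := h1 c hc
    have b1 := g.le.trans g.bound.2
    have b2 := g.szX.trans (Nat.mul_le_mul_right B g.bound.2)
    have b3 := (sz_list_le _ B g.szS).trans (Nat.mul_le_mul_right _ g.len)
    obtain ⟨b, X, Y⟩ := c
    simp only [sz_pair, sz_nat] at b1 b2 b3 ⊢
    omega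
  have a3 := a2.trans (Nat.mul_le_mul_right _ a1)
  simp only [sz_pair, sz_bool]
  omega

section pt
variable {α : Type} [Enc α] {fD fk : α → ℕ} {fr : α → List (List ℚ)} {fs : α → St}

@[fun_prop] theorem pt_childY {S : α → List ℕ} (h0 : PT fD) (h1 : PT fr) (h2 : PT fs)
    (h3 : PT S) : PT fun x => childY (fD x) (fr x) (fs x) (S x) := by
  unfold childY; fun_prop

@[fun_prop] theorem pt_small (h1 : PT fr) (h0 : PT fk) (h2 : PT fs) :
    PT fun x => small (fr x) (fk x) (fs x) := by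
  unfold small cardL; fun_prop

@[fun_prop] theorem pt_kids (h0 : PT fD) (h1 : PT fr) (h3 : PT fk) (h2 : PT fs) :
    PT fun x => kids (fD x) (fr x) (fk x) (fs x) := by
  unfold kids; fun_prop

@[fun_prop] theorem pt_cand {Y : α → List (List ℕ)} {τ τ' : α → List ℕ} (h0 : PT fD) (h1 : PT Y)
    (h2 : PT τ) (h3 : PT τ') : PT fun x => cand (fD x) (Y x) (τ x) (τ' x) := by
  unfold cand; fun_prop

@[fun_prop] theorem pt_known {Y : α → List (List ℕ)} {R : α → List ℕ} (h1 : PT Y)
    (h2 : PT R) : PT fun x => known (Y x) (R x) := by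
  unfold known; fun_prop

@[fun_prop] theorem pt_localOK {Tup Y : α → List (List ℕ)} (h0 : PT fD) (h1 : PT fr)
    (h2 : PT Tup) (h3 : PT fs) (h4 : PT Y) :
    PT fun x => localOK (fD x) (fr x) (Tup x) (fs x) (Y x) := by
  unfold localOK; fun_prop

@[fun_prop] theorem pt_okS {T : α → List ℕ} {Tup : α → List (List ℕ)} (h0 : PT fD) (h1 : PT fr)
    (h2 : PT fk) (h3 : PT T) (h4 : PT Tup) (h5 : PT fs) :
    PT fun x => okS (fD x) (fr x) (fk x) (T x) (Tup x) (fs x) := by
  unfold okS; fun_prop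

@[fun_prop] theorem pt_round {T : α → List ℕ} {Tup : α → List (List ℕ)}
    {p : α → List St × Bool} (h0 : PT fD) (h1 : PT fr)
    (h2 : PT fk) (h3 : PT T) (h4 : PT Tup) (h5 : PT p) :
    PT fun x => round (fD x) (fr x) (fk x) (T x) (Tup x) (p x) := by
  unfold round; fun_prop

end pt

end Pool.Agent.Work.MP_0bf9cb_lc
end

-- merged part: Pool.Agent.Work.MP_0bf9cb_lc.Chain
section
/-!
Greedy grouping of known circuits.
-/

namespace Pool.Agent.Work.MP_0bf9cb_lc

open Pool.Agent.Lib.Poly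

def deg (Y : List (List ℕ)) (i : ℕ) : ℕ := Y.countP fun S => decide (i ∈ S)

def cov (H S : List ℕ) : ℕ := H.countP fun i => decide (i ∈ S)

def newc (H U S : List ℕ) : ℕ := H.countP fun i => decide (i ∈ S ∧ i ∉ U)

theorem sum_cov (H : List ℕ) (Y : List (List ℕ)) : (Y.map (cov H)).sum = (H.map (deg Y)).sum := by
  induction Y with
  | nil => induction H <;> simp_all [deg]
  | cons S Y ih =>
    rw [List.map_cons, List.sum_cons, ih]
    clear ih
    induction H with
    | nil => simp [cov]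
    | cons a H ih =>
      simp only [cov, deg, List.countP_cons, List.map_cons, List.sum_cons] at ih ⊢
      omega

theorem cov_append (H U S : List ℕ) : cov H (U ++ S) = cov H U + newc H U S := by
  induction H with
  | nil => rfl
  | cons a H ih =>
    simp only [cov, newc, List.countP_cons] at ih ⊢
    by_cases h1 : a ∈ U <;> by_cases h2 : a ∈ S <;> simp [h1, h2] at ih ⊢ <;> omega

theorem newc_le (H U S : List ℕ) : newc H U S ≤ cov H S :=
  List.countP_mono_left fun a _ h => by simp at h ⊢; exact h.1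

theorem cov_split (H U S : List ℕ) :
    cov H S = newc H U S + cov (H.filter fun i => decide (i ∈ U)) S := by
  induction H with
  | nil => rfl
  | cons a H ih =>
    simp only [cov, newc, List.countP_cons, List.filter_cons] at ih ⊢
    by_cases h1 : a ∈ U <;> by_cases h2 : a ∈ S <;> simp [h1, h2] at ih ⊢ <;> omega

abbrev GS := List (List ℕ) × List ℕ × List (List ℕ)

def pickI (H : List ℕ) (c : ℕ) (p : GS) : List ℕ :=
  (List.range p.2.2.length).filter fun k => decide (c ≤ 2 * newc H p.2.1 (p.2.2.getD k []))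

def gadd (H : List ℕ) (g : ℕ) (p : GS) (k : ℕ) : GS :=
  if H.length ≤ g * cov H (p.2.1 ++ p.2.2.getD k []) then
    ((p.2.1 ++ p.2.2.getD k []) :: p.1, [], p.2.2.take k ++ p.2.2.drop (k + 1))
  else (p.1, p.2.1 ++ p.2.2.getD k [], p.2.2.take k ++ p.2.2.drop (k + 1))

def gstep (H : List ℕ) (c g : ℕ) (p : GS) : GS :=
  if (pickI H c p).isEmpty then p else gadd H g p ((pickI H c p).headD 0)

def groups (H : List ℕ) (c g : ℕ) (W : List (List ℕ)) : List (List ℕ) :=
  ((gstep H c g)^[W.length] ([], [], W)).1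

theorem gstep_cases (H : List ℕ) (c g : ℕ) (p : GS) :
    ((∀ S ∈ p.2.2, 2 * newc H p.2.1 S < c) ∧ gstep H c g p = p) ∨
    ∃ S r, p.2.2.Perm (S :: r) ∧ c ≤ 2 * newc H p.2.1 S ∧
      gstep H c g p = if H.length ≤ g * cov H (p.2.1 ++ S) then ((p.2.1 ++ S) :: p.1, [], r)
        else (p.1, p.2.1 ++ S, r) := by
  unfold gstep
  split_ifs with h
  · refine Or.inl ⟨fun S hS => ?_, rfl⟩
    obtain ⟨k, hk, rfl⟩ := List.getElem_of_mem hS
    rw [List.isEmpty_iff, pickI, List.filter_eq_nil_iff] at h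
    have := h k (List.mem_range.2 hk)
    rw [List.getD_eq_getElem _ _ hk] at this
    simpa using this
  · have : (pickI H c p).headD 0 ∈ pickI H c p := by
      cases e : pickI H c p <;> simp_all
    generalize (pickI H c p).headD 0 = k at this
    obtain ⟨h1, h2⟩ := List.mem_filter.1 this
    have hk := List.mem_range.1 h1
    refine Or.inr ⟨p.2.2.getD k [], _, ?_, by simpa using h2, rfl⟩
    rw [List.getD_eq_getElem _ _ hk, ← List.eraseIdx_eq_take_drop_succ]
    exact (List.getElem_cons_eraseIdx_perm hk).symm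

theorem sz_perm {β : Type} [Enc β] {l l' : List β} (h : l.Perm l') : sz l = sz l' := by
  induction h with
  | nil => rfl
  | cons _ _ ih => simp [ih]
  | swap => simp; omega
  | trans _ _ a b => exact a.trans b

theorem gstep_sz (H : List ℕ) (c g : ℕ) (W : List (List ℕ)) (j : ℕ) :
    sz ((gstep H c g)^[j] ([], [], W)).1 + 2 * sz ((gstep H c g)^[j] ([], [], W)).2.1 +
      sz ((gstep H c g)^[j] ([], [], W)).2.2 ≤ sz W := by
  induction j with
  | zero => simp
  | succ j ih =>
    rw [Function.iterate_succ_apply']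
    generalize (gstep H c g)^[j] ([], [], W) = p at ih
    rcases gstep_cases H c g p with ⟨-, e⟩ | ⟨S, r, h1, -, e⟩
    · rwa [e]
    · rw [e]
      rw [sz_perm h1] at ih
      split_ifs <;> simp only [sz_cons, sz_append, sz_nil] at ih ⊢ <;> omega

structure GInv (H : List ℕ) (c g : ℕ) (W : List (List ℕ)) (Q : List ℕ → Prop) (p : GS) :
    Prop where
  q : ∀ G ∈ p.1, Q G ∧ H.length ≤ g * cov H G
  u : Q p.2.1 ∧ g * cov H p.2.1 < H.length
  sub : ∀ S ∈ p.2.2, S ∈ W
  mass : ∀ β, (p.1.map (cov β)).sum + cov β p.2.1 + (p.2.2.map (cov β)).sum ≤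
    (W.map (cov β)).sum
  cnt : g * c * W.length ≤ g * c * p.2.2.length + p.1.length * (2 * H.length + g * c) +
    2 * (g * cov H p.2.1)
  len : p.1.length + p.2.2.length ≤ W.length

theorem gstep_inv {H : List ℕ} {c g : ℕ} {W : List (List ℕ)} {Q : List ℕ → Prop}
    (hH : 0 < H.length) (Q0 : Q []) (Qs : ∀ U S, Q U → S ∈ W → Q (U ++ S)) (j : ℕ) :
    GInv H c g W Q ((gstep H c g)^[j] ([], [], W)) ∧
      ((∀ S ∈ ((gstep H c g)^[j] ([], [], W)).2.2,
        2 * newc H ((gstep H c g)^[j] ([], [], W)).2.1 S < c) ∨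
        ((gstep H c g)^[j] ([], [], W)).2.2.length + j = W.length) := by
  have c0 : ∀ β, cov β [] = 0 := fun β => by simp [cov]
  induction j with
  | zero =>
    exact ⟨⟨by simp, ⟨Q0, by simpa [c0] using hH⟩, fun _ h => h, by simp [c0], by simp, by simp⟩,
      Or.inr rfl⟩
  | succ j ih =>
    rw [Function.iterate_succ_apply']
    generalize (gstep H c g)^[j] ([], [], W) = p at ih
    obtain ⟨hi, hp⟩ := ih
    rcases gstep_cases H c g p with ⟨h0, e⟩ | ⟨S, r, h1, h2, e⟩
    · rw [e]; exact ⟨hi, Or.inl h0⟩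
    · have hS : S ∈ p.2.2 := h1.mem_iff.2 List.mem_cons_self
      have hl : p.2.2.length = r.length + 1 := h1.length_eq
      have hp' : p.2.2.length + j = W.length := hp.resolve_left fun h => by
        have := h S hS; omega
      have hq := Qs _ _ hi.u.1 (hi.sub S hS)
      have hr : ∀ S' ∈ r, S' ∈ W := fun S' h => hi.sub S' (h1.mem_iff.2 (List.mem_cons_of_mem _ h))
      have hm : ∀ β, (p.1.map (cov β)).sum + cov β (p.2.1 ++ S) + (r.map (cov β)).sum ≤
          (W.map (cov β)).sum := by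
        intro β
        have a1 := hi.mass β
        have a2 := newc_le β p.2.1 S
        rw [(h1.map _).sum_eq, List.map_cons, List.sum_cons] at a1
        rw [cov_append]; omega
      have hc := hi.cnt
      have hlen := hi.len
      have hu := hi.u.2
      rw [hl, Nat.mul_add _ r.length] at hc
      rw [e]
      split_ifs with h3
      · refine ⟨⟨fun G hG => ?_, ⟨Q0, by simpa [c0] using hH⟩, hr, fun β => ?_, ?_, ?_⟩,
          Or.inr (by simp only; omega)⟩
        · rcases List.mem_cons.1 hG with rfl | hG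
          · exact ⟨hq, h3⟩
          · exact hi.q G hG
        · have := hm β
          simp only [List.map_cons, List.sum_cons, c0]; omega
        · simp only [List.length_cons, c0, Nat.add_mul p.1.length]; omega
        · simp only [List.length_cons]; omega
      · refine ⟨⟨hi.q, ⟨hq, not_le.1 h3⟩, hr, hm, ?_, by simp only; omega⟩,
          Or.inr (by simp only; omega)⟩
        have := Nat.mul_le_mul_left g h2
        simp only [cov_append, Nat.mul_add g]
        rw [Nat.mul_left_comm] at this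
        omega

theorem sum_le_of_forall {β : Type} (l : List β) (f : β → ℕ) (a b : ℕ) (h : ∀ x ∈ l, a * f x ≤ b) :
    a * (l.map f).sum ≤ l.length * b := by
  induction l with
  | nil => simp
  | cons x l ih =>
    have h1 := h x List.mem_cons_self
    have h2 := ih fun y hy => h y (List.mem_cons_of_mem _ hy)
    rw [List.map_cons, List.sum_cons, List.length_cons, Nat.mul_add, Nat.add_mul]; omega

theorem le_sum_of_forall {β : Type} (l : List β) (f : β → ℕ) (a b : ℕ) (h : ∀ x ∈ l, b ≤ a * f x) :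
    l.length * b ≤ a * (l.map f).sum := by
  induction l with
  | nil => simp
  | cons x l ih =>
    have h1 := h x List.mem_cons_self
    have h2 := ih fun y hy => h y (List.mem_cons_of_mem _ hy)
    rw [List.map_cons, List.sum_cons, List.length_cons, Nat.mul_add, Nat.add_mul]; omega

theorem groups_spec {H : List ℕ} {c x A L : ℕ} {W : List (List ℕ)} {Q : List ℕ → Prop}
    (hH : 0 < H.length) (Q0 : Q []) (Qs : ∀ U S, Q U → S ∈ W → Q (U ++ S))
    (hA : 0 < A) (hx : 0 < x) (hW : ∀ S ∈ W, c ≤ cov H S) (hd : ∀ i, deg W i ≤ 2 * A)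
    (hI : A * H.length ≤ c * W.length * L) :
    (∀ G ∈ groups H c (8 * L * x) W, Q G ∧ H.length ≤ 8 * L * x * cov H G) ∧
    (groups H c (8 * L * x) W).length ≤ W.length ∧
    ∀ (β : List ℕ) (D t : ℕ), β.length ≤ D → (∀ i ∈ β, x * deg W i ≤ W.length) →
      6 * D < (t + 1) * x → ∃ G ∈ groups H c (8 * L * x) W, cov β G ≤ t := by
  obtain ⟨hi, hp⟩ := gstep_inv (c := c) (g := 8 * L * x) hH Q0 Qs W.length
  unfold groups
  generalize (gstep H c (8 * L * x))^[W.length] ([], [], W) = p at hi hp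
  obtain ⟨Gs, U, r⟩ := p
  obtain ⟨h1, ⟨-, h2⟩, h3, h4, h5, h6⟩ := hi
  simp only at h1 h2 h3 h4 h5 h6 hp ⊢
  refine ⟨h1, by omega, fun β D t b1 b2 b3 => ?_⟩
  have stuck : ∀ S ∈ r, 2 * newc H U S < c := by
    rcases hp with hp | hp
    · exact hp
    · rw [List.length_eq_zero_iff.1 (show r.length = 0 by omega)]; simp
  have pos : 0 < c * W.length * L := lt_of_lt_of_le (Nat.mul_pos hA hH) hI
  have hL : 0 < L := Nat.pos_of_mul_pos_left pos
  have hcw : 0 < c * W.length := Nat.pos_of_mul_pos_right pos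
  have a1 : r.length * c ≤ 2 * (r.map (cov (H.filter fun i => decide (i ∈ U)))).sum :=
    le_sum_of_forall _ _ _ _ fun S hS => by
      have := stuck S hS
      have := hW S (h3 S hS)
      have := cov_split H U S
      omega
  have a2 : (W.map (cov (H.filter fun i => decide (i ∈ U)))).sum ≤ cov H U * (2 * A) := by
    rw [sum_cov, cov, List.countP_eq_length_filter]
    simpa using sum_le_of_forall (H.filter fun i => decide (i ∈ U)) (deg W) 1 (2 * A)
      fun i _ => by simpa using hd i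
  have a3 := h4 (H.filter fun i => decide (i ∈ U))
  have a4 : r.length * c ≤ 4 * (A * cov H U) := by
    rw [show cov H U * (2 * A) = 2 * (A * cov H U) by ring] at a2
    omega
  have a5 : 2 * r.length ≤ W.length := by
    by_contra hlt
    have e1 : c * W.length ≤ 8 * (A * cov H U) := by nlinarith only [a4, hlt]
    have e2 : A * (8 * L * x * cov H U) < A * H.length := Nat.mul_lt_mul_of_pos_left h2 hA
    have e3 : c * W.length * L ≤ 8 * (A * cov H U) * L := Nat.mul_le_mul_right _ e1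
    have e4 : 8 * (A * cov H U) * L * 1 ≤ 8 * (A * cov H U) * L * x := Nat.mul_le_mul_left _ hx
    linarith only [hI, e2, e3, e4]
  by_contra hno
  push Not at hno
  have a6 : Gs.length * (t + 1) ≤ 1 * (Gs.map (cov β)).sum :=
    le_sum_of_forall _ _ _ _ fun G hG => by have := hno G hG; omega
  have a7 := h4 β
  rw [sum_cov β W] at a7
  have a8 : x * (β.map (deg W)).sum ≤ D * W.length :=
    (sum_le_of_forall _ _ _ _ b2).trans (Nat.mul_le_mul_right _ b1)
  have a9 : 1 * (β.map (deg W)).sum ≤ D * (2 * A) :=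
    (sum_le_of_forall _ _ _ _ fun i _ => by simpa using hd i).trans (Nat.mul_le_mul_right _ b1)
  generalize (β.map (deg W)).sum = σ at a7 a8 a9
  have c1 : Gs.length * (t + 1) ≤ σ := by omega
  generalize Gs.length = q at *
  generalize W.length = w at *
  generalize H.length = h at *
  generalize r.length = ρ at *
  have c2 : h ≤ c * w * L := le_trans (Nat.le_mul_of_pos_left _ hA) hI
  have c3 : 8 * L * x * c * (2 * ρ) ≤ 8 * L * x * c * w := Nat.mul_le_mul_left _ a5
  have c4 : c * w * L * 1 ≤ c * w * L * x := Nat.mul_le_mul_left _ hx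
  have c5 : L * x * (c * w) ≤ q * h + 4 * (q * (L * x * c)) := by linarith only [h2, h5, c2, c3, c4]
  have c6 : (t + 1) * x * (L * x * (c * w)) ≤ (t + 1) * x * (q * h + 4 * (q * (L * x * c))) :=
    Nat.mul_le_mul_left _ c5
  have c7 : q * (t + 1) * (x * h) ≤ D * (2 * A) * (x * h) :=
    Nat.mul_le_mul_right _ (by omega)
  have c8 : 2 * D * x * (A * h) ≤ 2 * D * x * (c * w * L) := Nat.mul_le_mul_left _ hI
  have c9 : x * (q * (t + 1)) * (L * x * c) ≤ D * w * (L * x * c) :=
    Nat.mul_le_mul_right _ ((Nat.mul_le_mul_left x c1).trans a8)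
  have c10 : 6 * D * (L * x * (c * w)) < (t + 1) * x * (L * x * (c * w)) :=
    Nat.mul_lt_mul_of_pos_right b3 (Nat.mul_pos (Nat.mul_pos hL hx) hcw)
  linarith only [c6, c7, c8, c9, c10]

section pt
variable {α : Type} [Enc α]

@[fun_prop] theorem pt_deg {Y : α → List (List ℕ)} {i : α → ℕ} (h1 : PT Y) (h2 : PT i) :
    PT fun x => deg (Y x) (i x) := by
  unfold deg; fun_prop

@[fun_prop] theorem pt_covG {H S : α → List ℕ} (h1 : PT H) (h2 : PT S) :
    PT fun x => cov (H x) (S x) := by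
  unfold cov; fun_prop

@[fun_prop] theorem pt_newc {H U S : α → List ℕ} (h1 : PT H) (h2 : PT U) (h3 : PT S) :
    PT fun x => newc (H x) (U x) (S x) := by
  unfold newc; fun_prop

@[fun_prop] theorem pt_pickI {H : α → List ℕ} {c : α → ℕ} {p : α → GS} (h1 : PT H) (h2 : PT c)
    (h3 : PT p) : PT fun x => pickI (H x) (c x) (p x) := by
  unfold pickI; fun_prop

@[fun_prop] theorem pt_gadd {H : α → List ℕ} {g k : α → ℕ} {p : α → GS} (h1 : PT H) (h2 : PT g)
    (h3 : PT p) (h4 : PT k) : PT fun x => gadd (H x) (g x) (p x) (k x) := by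
  unfold gadd; fun_prop

@[fun_prop] theorem pt_gstep {H : α → List ℕ} {c g : α → ℕ} {p : α → GS} (h1 : PT H) (h2 : PT c)
    (h4 : PT g) (h3 : PT p) : PT fun x => gstep (H x) (c x) (g x) (p x) := by
  unfold gstep; fun_prop

end pt

end Pool.Agent.Work.MP_0bf9cb_lc
end

-- merged part: Pool.Agent.Work.MP_0bf9cb_lc.Geo2
section
/-!
Contraction by supports of faces, deletion, and covers of an unknown circuit.
-/

namespace Pool.Agent.Work.MP_0bf9cb_lc

open Finset

variable {Y : Type} [AddCommGroup Y] [Module ℝ Y] {h : ℕ → Y →ₗ[ℝ] ℝ} {M : ℕ}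

/-- `U` is the support of a nonnegative vector of the contraction by `X`. -/
def PosS (h : ℕ → Y →ₗ[ℝ] ℝ) (X U : Finset ℕ) : Prop :=
  ∃ u, (∀ i ∈ U, 0 < h i u) ∧ Van h X U u

theorem PosS.empty (X : Finset ℕ) : PosS h X ∅ := ⟨0, by simp, fun i _ _ => by simp⟩

theorem PosS.union {X U S} (hU : PosS h X U) (hd : ∀ i ∈ U, i ∉ X) (hS : Circ h X S) :
    PosS h X (U ∪ S) := by
  obtain ⟨u, u1, u2⟩ := hU
  obtain ⟨y, hy⟩ := hS
  refine ⟨u + y, fun i hi => ?_, fun i hi hs => ?_⟩
  · rw [map_add]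
    by_cases h1 : i ∈ U
    · exact add_pos_of_pos_of_nonneg (u1 i h1) (hy.nn i (hd i h1))
    · have h2 := (mem_union.1 hi).resolve_left h1
      rw [u2 i (hy.disj i h2) h1, zero_add]
      exact hy.pos i h2
  · rw [mem_union, not_or] at hs
    rw [map_add, u2 i hi hs.1, hy.van i hi hs.2, add_zero]

/-- The family `F` contains every positive circuit avoiding `Z`. -/
def CompZ (h : ℕ → Y →ₗ[ℝ] ℝ) (X Z : Finset ℕ) (F : Set (Finset ℕ)) : Prop :=
  ∀ R, Circ h X R → (∀ i ∈ R, i ∉ Z) → R ∈ F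

theorem CompZ.child (hM : ∀ i, M ≤ i → h i = 0) {X Z S F} (hc : CompZ h X Z F) (hS : PosS h X S)
    (hZ : ∀ i ∈ S, i ∉ Z) : CompZ h (X ∪ S) Z (child h X S F) := by
  intro R hR hRZ
  refine ⟨hR, ?_⟩
  obtain ⟨u, upos, uvan⟩ := hS
  obtain ⟨y, hy⟩ := hR
  obtain ⟨t, ht⟩ : ∃ t : ℝ, ∀ i ∈ S, 0 ≤ h i y + t * h i u := by
    refine ⟨∑ i ∈ S, |h i y| / h i u, fun i hi => ?_⟩
    have h1 : |h i y| / h i u ≤ ∑ i ∈ S, |h i y| / h i u :=
      single_le_sum (f := fun i => |h i y| / h i u)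
        (fun j hj => div_nonneg (abs_nonneg _) (upos j hj).le) hi
    rw [div_le_iff₀ (upos i hi)] at h1
    have := neg_abs_le (h i y)
    linarith only [h1, this]
  obtain ⟨i0, hi0⟩ := hy.ne
  have dX : ∀ i ∈ R, i ∉ X := fun i hi hx => hy.disj i hi (mem_union_left _ hx)
  have dS : ∀ i ∈ R, i ∉ S := fun i hi hx => hy.disj i hi (mem_union_right _ hx)
  have val : ∀ i, i ∉ X → i ∉ S → h i (y + t • u) = h i y := fun i hi hs => by
    rw [map_add, map_smul, uvan i hi hs]; simp
  have nn : NN h X (y + t • u) := by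
    intro i hi
    by_cases hs : i ∈ S
    · rw [map_add, map_smul, smul_eq_mul]; exact ht i hs
    · rw [val i hi hs]; exact hy.nn i (by simp [hi, hs])
  obtain ⟨S', hS', hi', hsub⟩ := exists_circ hM (dX i0 hi0) _ nn
    (by rw [val _ (dX i0 hi0) (dS i0 hi0)]; exact (hy.pos i0 hi0).ne')
  obtain ⟨q, hq⟩ := id hS'
  have sub : ∀ j ∈ S', j ∉ S → j ∈ R := by
    intro j hj hs
    by_contra hr
    have := hsub j hj
    rw [val j (hq.disj j hj) hs] at this
    exact this (hy.van j (by simp [hq.disj j hj, hs]) hr)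
  refine ⟨S', hc S' hS' fun j hj => ?_, ?_⟩
  · by_cases hs : j ∈ S
    · exact hZ j hs
    · exact hRZ j (sub j hj hs)
  obtain ⟨s, hs⟩ := hy.uniq q fun i hi hr => by
    rw [mem_union, not_or] at hi
    exact hq.van i hi.1 fun h' => hr (sub i h' hi.2)
  have s0 : s ≠ 0 := by
    intro e
    have := hs i0 hi0
    rw [e, zero_mul] at this
    exact (hq.pos i0 hi').ne' this
  ext j
  rw [mem_sdiff]
  refine ⟨fun hj => ⟨?_, dS j hj⟩, fun hj => sub j hj.1 hj.2⟩
  by_contra hn
  have := hs j hj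
  rw [hq.van j (dX j hj) hn] at this
  exact mul_ne_zero s0 (hy.pos j hj).ne' this.symm

theorem exists_basis [FiniteDimensional ℝ Y] (T : Finset ℕ) :
    ∃ β ⊆ T, β.card ≤ Module.finrank ℝ Y ∧ ∀ z, (∀ i ∈ β, h i z = 0) → ∀ i ∈ T, h i z = 0 := by
  suffices H : ∃ β ⊆ T, ∃ W : Submodule ℝ Y, β.card + Module.finrank ℝ W ≤ Module.finrank ℝ Y ∧
      (∀ z, z ∈ W ↔ ∀ i ∈ β, h i z = 0) ∧ ∀ z ∈ W, ∀ i ∈ T, h i z = 0 by
    obtain ⟨β, h1, W, h2, h3, h4⟩ := H
    exact ⟨β, h1, by omega, fun z hz => h4 z ((h3 z).2 hz)⟩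
  induction T using Finset.induction_on with
  | empty => exact ⟨∅, by simp, ⊤, by simp, by simp, by simp⟩
  | insert a T ha ih =>
    obtain ⟨β, h1, W, h2, h3, h4⟩ := ih
    by_cases hw : ∀ z ∈ W, h a z = 0
    · refine ⟨β, h1.trans (subset_insert _ _), W, h2, h3, fun z hz i hi => ?_⟩
      rcases mem_insert.1 hi with rfl | hi
      · exact hw z hz
      · exact h4 z hz i hi
    · refine ⟨insert a β, insert_subset_insert _ h1, W ⊓ LinearMap.ker (h a), ?_, fun z => ?_,
        fun z hz i hi => ?_⟩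
      · have : W ⊓ LinearMap.ker (h a) < W := by
          refine lt_of_le_of_ne inf_le_left fun e => hw fun z hz => ?_
          rw [← e] at hz
          exact hz.2
        have := Submodule.finrank_lt_finrank_of_lt this
        have := card_insert_le a β
        omega
      · simp [h3, and_comm]
      · rcases mem_insert.1 hi with rfl | hi
        · exact hz.2
        · exact h4 z hz.1 i hi

theorem exists_cover' (hM : ∀ i, M ≤ i → h i = 0) {X S R β : Finset ℕ} (hR : Circ h X R)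
    (hβ : ∀ z, Van h (X ∪ S) R z → (∀ i ∈ β, h i z = 0) → Van h X R z) :
    ∃ J : Finset (Finset ℕ), J.card ≤ β.card + 1 ∧ (∀ T ∈ J, Circ h (X ∪ S) T) ∧
      ∀ i, i ∈ R \ S ↔ ∃ T ∈ J, i ∈ T := by
  classical
  obtain ⟨y, hy⟩ := id hR
  let P : Finset (Finset ℕ) → Prop := fun J => (∀ T ∈ J, Circ h (X ∪ S) T) ∧
    ∀ i, i ∈ R \ S ↔ ∃ T ∈ J, i ∈ T
  have ex : ∃ n, ∃ J, P J ∧ J.card = n := by
    obtain ⟨J, -, h1⟩ := exists_cover hM (S := S) hR
    exact ⟨_, J, h1, rfl⟩
  obtain ⟨J, hJ, hcard⟩ := Nat.find_spec ex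
  refine ⟨J, ?_, hJ⟩
  have priv : ∀ T ∈ J, ∃ p ∈ T, ∀ T' ∈ J, T' ≠ T → p ∉ T' := by
    intro T hT
    by_contra hno
    push Not at hno
    have : Nat.find ex ≤ (J.erase T).card := Nat.find_min' ex ⟨J.erase T,
      ⟨fun T' h' => hJ.1 T' (mem_of_mem_erase h'), fun i => ⟨fun hi => ?_, fun ⟨T', h1, h2⟩ =>
        (hJ.2 i).2 ⟨T', mem_of_mem_erase h1, h2⟩⟩⟩, rfl⟩
    · rw [card_erase_of_mem hT, hcard] at this
      have := card_pos.2 ⟨T, hT⟩
      omega
    · obtain ⟨T', h1, h2⟩ := (hJ.2 i).1 hi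
      by_cases e : T' = T
      · obtain ⟨T'', a1, a2, a3⟩ := hno i (e ▸ h2)
        exact ⟨T'', mem_erase.2 ⟨a2, a1⟩, a3⟩
      · exact ⟨T', mem_erase.2 ⟨e, h1⟩, h2⟩
  choose! p hp1 hp2 using priv
  have hq := hJ.1
  choose! q hq using hq
  obtain ⟨i0, hi0⟩ := hy.ne
  let comb : (J → ℝ) →ₗ[ℝ] Y := Fintype.linearCombination ℝ fun T : J => q T
  let φ : (J → ℝ) →ₗ[ℝ] (β → ℝ) × ℝ :=
    (LinearMap.pi fun i : β => h i ∘ₗ comb).prod (h i0 ∘ₗ comb)
  have inj : Function.Injective φ := by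
    rw [injective_iff_map_eq_zero]
    intro a ha
    have a1 : ∀ i ∈ β, h i (comb a) = 0 := fun i hi => congrFun (congrArg Prod.fst ha) ⟨i, hi⟩
    have a2 : h i0 (comb a) = 0 := congrArg Prod.snd ha
    have cv : ∀ i, h i (comb a) = ∑ T : J, a T * h i (q T) := by
      intro i
      simp [comb, Fintype.linearCombination_apply]
    obtain ⟨t, ht⟩ := hy.uniq (comb a) (hβ _ (fun i hi hr => by
      rw [cv]
      refine sum_eq_zero fun T _ => ?_
      rw [(hq T T.2).van i hi fun hT =>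
        hr (mem_sdiff.1 ((hJ.2 i).2 ⟨T, T.2, hT⟩)).1, mul_zero]) a1)
    have t0 : t = 0 := by
      have := ht i0 hi0
      rw [a2] at this
      exact (mul_eq_zero.1 this.symm).resolve_right (hy.pos i0 hi0).ne'
    funext T
    have b1 := ht (p T) (mem_sdiff.1 ((hJ.2 _).2 ⟨T, T.2, hp1 T T.2⟩)).1
    rw [t0, zero_mul, cv, sum_eq_single T] at b1
    · exact (mul_eq_zero.1 b1).resolve_right ((hq T T.2).pos _ (hp1 T T.2)).ne'
    · intro T' _ hne
      rw [(hq T' T'.2).van _ ((hq T T.2).disj _ (hp1 T T.2))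
        (hp2 T T.2 T' T'.2 fun e => hne (Subtype.ext e)), mul_zero]
    · simp
  have := LinearMap.finrank_le_finrank_of_injective inj
  simpa using this

/-- Breadth-first evaluation of a tree of checks. -/
def bfs {σ : Type} (kids : σ → List σ) (ok : σ → Bool) (p : List σ × Bool) : List σ × Bool :=
  (p.1.flatMap kids, p.2 && p.1.all ok)

theorem bfs_iter {σ : Type} {kids : σ → List σ} {ok : σ → Bool} {G : ℕ → σ → Prop} {C : σ → Prop}
    {b : ℕ} (hk : ∀ j s, G j s → ∀ c ∈ kids s, G (j + 1) c)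
    (hc : ∀ j s, G j s → (C s ↔ ok s = true ∧ ∀ c ∈ kids s, C c))
    (hb : ∀ j s, G j s → (kids s).length ≤ b) {s : σ} (hs : G 0 s) (j : ℕ) :
    (∀ c ∈ ((bfs kids ok)^[j] ([s], true)).1, G j c) ∧
    (C s ↔ ((bfs kids ok)^[j] ([s], true)).2 = true ∧
      ∀ c ∈ ((bfs kids ok)^[j] ([s], true)).1, C c) ∧
    ((bfs kids ok)^[j] ([s], true)).1.length ≤ b ^ j := by
  induction j with
  | zero => simpa using hs
  | succ j ih =>
    rw [Function.iterate_succ_apply']
    generalize (bfs kids ok)^[j] ([s], true) = p at ih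
    obtain ⟨L, f⟩ := p
    obtain ⟨h1, h2, h3⟩ := ih
    simp only [bfs] at h1 h2 h3 ⊢
    refine ⟨fun c hc => ?_, ?_, ?_⟩
    · obtain ⟨c0, a1, a2⟩ := List.mem_flatMap.1 hc
      exact hk j c0 (h1 c0 a1) c a2
    · rw [h2]
      simp only [Bool.and_eq_true, List.all_eq_true, List.mem_flatMap, and_assoc]
      refine and_congr_right fun _ => ⟨fun hC => ⟨fun c a => ((hc j c (h1 c a)).1 (hC c a)).1,
        fun c ⟨c0, a1, a2⟩ => ((hc j c0 (h1 c0 a1)).1 (hC c0 a1)).2 c a2⟩,
        fun hC c a => (hc j c (h1 c a)).2 ⟨hC.1 c a, fun c' a' => hC.2 c' ⟨c, a, a'⟩⟩⟩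
    · rw [List.length_flatMap, pow_succ]
      refine le_trans (List.sum_le_card_nsmul _ b ?_) ?_
      · intro x hx
        obtain ⟨c, a1, rfl⟩ := List.mem_map.1 hx
        exact hb j c (h1 c a1)
      · simpa using Nat.mul_le_mul_right b h3

end Pool.Agent.Work.MP_0bf9cb_lc
end
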