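import Pool.Agent.Work.MP_0bf9cb_lc.Geo2
import Pool.Agent.Work.MP_0bf9cb_lc.Time

-- merged part: Pool.Agent.Work.MP_0bf9cb_lc.Proj
section
/-!
Orthogonal projection onto the image of a rational matrix, and the perceptron.
-/

namespace Pool.Agent.Work.MP_0bf9cb_lc

open Pool.Agent.Lib.Poly Finset

def cnt (w : List ℕ) (i : ℕ) : ℕ := w.countP fun a => decide (a = i)

def augRows (D : ℕ) (R : List (List ℚ)) (w : List ℕ) : List (List ℚ) :=
  (List.range D).map fun c => mkVec (D + 1) fun c' =>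
    ((List.range R.length).map fun i => ent (R.getD i []) c *
      if c' < D then ent (R.getD i []) c' else (cnt w i : ℚ)).sum

def lastVec (D : ℕ) : List ℚ := mkVec (D + 1) fun c => if c = D then 1 else 0

def projAux (D : ℕ) (R : List (List ℚ)) (st : List Piv) (c : ℕ) : List ℚ :=
  mkVec R.length fun i => -resC st (mkVec D (ent (R.getD i []))) c / resC st (lastVec D) c

def projSt (D : ℕ) (R : List (List ℚ)) (st : List Piv) : List ℚ :=
  projAux D R st (((List.range (D + 1)).filter fun c => decide (resC st (lastVec D) c ≠ 0)).headD 0)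

/-- The projection of the multiplicity vector of `w` onto the image of `R`. -/
def proj (D : ℕ) (R : List (List ℚ)) (w : List ℕ) : List ℚ :=
  projSt D R (rref (D + 1) (augRows D R w))

theorem list_sum_range (n : ℕ) (f : ℕ → ℚ) :
    ((List.range n).map f).sum = ∑ i ∈ range n, f i := by
  induction n with
  | zero => simp
  | succ n ih => rw [List.range_succ, List.map_append, List.sum_append, ih, sum_range_succ]; simp

theorem exists_normal (D : ℕ) (R : List (List ℚ)) (a : ℕ → ℝ) :
    ∃ y : Fin D → ℝ, ∀ x : Fin D → ℝ, ∑ i ∈ range R.length, a i * hf D R i x =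
      ∑ i ∈ range R.length, hf D R i y * hf D R i x := by
  let φ : (Fin D → ℝ) →ₗ[ℝ] EuclideanSpace ℝ (Fin R.length) :=
    (WithLp.linearEquiv 2 ℝ (Fin R.length → ℝ)).symm.toLinearMap ∘ₗ
      LinearMap.pi fun i : Fin R.length => hf D R i
  obtain ⟨u, ⟨y, rfl⟩, v, hv, e⟩ := Submodule.exists_add_mem_mem_orthogonal
    (K := LinearMap.range φ) (WithLp.toLp 2 fun i : Fin R.length => a i)
  refine ⟨y, fun x => ?_⟩
  have h1 := (Submodule.mem_orthogonal _ _).1 hv (φ x) ⟨x, rfl⟩
  have h2 : ∀ i : Fin R.length, a i = hf D R i y + v i := fun i =>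
    congrArg (fun z : EuclideanSpace ℝ (Fin R.length) => z i) e
  rw [← Fin.sum_univ_eq_sum_range (fun i => a i * hf D R i x),
    ← Fin.sum_univ_eq_sum_range (fun i => hf D R i y * hf D R i x)]
  simp only [h2, add_mul, sum_add_distrib, add_eq_left]
  rw [← h1, PiLp.inner_apply]
  refine sum_congr rfl fun i _ => ?_
  simp [φ]

theorem dot_snoc (D : ℕ) (v : List ℚ) (y : Fin (D + 1) → ℝ) :
    dot (D + 1) v y = dot D v (fun c => y c.castSucc) + (ent v D : ℝ) * y (Fin.last D) := by
  simp [dot, Fin.sum_univ_castSucc]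

theorem dot_congr {D : ℕ} {v v' : List ℚ} (h : ∀ c < D, ent v c = ent v' c) (y : Fin D → ℝ) :
    dot D v y = dot D v' y :=
  sum_congr rfl fun c _ => by rw [h c c.2]

theorem aug_dot (D : ℕ) (R : List (List ℚ)) (w : List ℕ) (c : ℕ) (y : Fin (D + 1) → ℝ) :
    dot (D + 1) (mkVec (D + 1) fun c' => ((List.range R.length).map fun i => ent (R.getD i []) c *
      if c' < D then ent (R.getD i []) c' else (cnt w i : ℚ)).sum) y =
    ∑ i ∈ range R.length, (ent (R.getD i []) c : ℝ) *
      (hf D R i (fun c => y c.castSucc) + (cnt w i : ℝ) * y (Fin.last D)) := by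
  rw [dot_snoc, ent_mkVec _ (Nat.lt_succ_self D)]
  simp only [dot, ent_mkVec _ (Nat.lt_succ_of_lt (Fin.is_lt _)), list_sum_range, Fin.is_lt,
    if_true, lt_irrefl, if_false, hf_apply, mul_add, sum_add_distrib]
  push_cast
  simp only [sum_mul, mul_sum, mul_assoc]
  rw [sum_comm]

theorem normal_iff (D : ℕ) (R : List (List ℚ)) (b : ℕ → ℝ) :
    (∀ c < D, ∑ i ∈ range R.length, (ent (R.getD i []) c : ℝ) * b i = 0) ↔
      ∀ x : Fin D → ℝ, ∑ i ∈ range R.length, b i * hf D R i x = 0 := by
  constructor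
  · intro h x
    simp only [hf_apply, dot, mul_sum]
    rw [sum_comm]
    refine sum_eq_zero fun c _ => ?_
    have := h c c.2
    calc ∑ i ∈ range R.length, b i * ((ent (R.getD i []) c : ℝ) * x c)
        = (∑ i ∈ range R.length, (ent (R.getD i []) c : ℝ) * b i) * x c := by
          rw [sum_mul]; exact sum_congr rfl fun i _ => by ring
      _ = 0 := by rw [this, zero_mul]
  · intro h c hc
    rw [← h (Pi.single ⟨c, hc⟩ 1)]
    refine sum_congr rfl fun i _ => ?_
    rw [hf_apply, dot, sum_eq_single ⟨c, hc⟩]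
    · simp [mul_comm]
    · intro b _ hb; simp [Pi.single_eq_of_ne hb]
    · simp

theorem proj_spec (D : ℕ) (R : List (List ℚ)) (w : List ℕ) :
    ∃ y : Fin D → ℝ, (∀ i < R.length, (ent (proj D R w) i : ℝ) = hf D R i y) ∧
      ∀ x : Fin D → ℝ, ∑ i ∈ range R.length, (cnt w i : ℝ) * hf D R i x =
        ∑ i ∈ range R.length, hf D R i y * hf D R i x := by
  have kill : ∀ y : Fin (D + 1) → ℝ, (∀ z ∈ augRows D R w, dot (D + 1) z y = 0) ↔
      ∀ x : Fin D → ℝ, ∑ i ∈ range R.length,
        (hf D R i (fun c => y c.castSucc) + (cnt w i : ℝ) * y (Fin.last D)) * hf D R i x = 0 := by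
    intro y
    rw [← normal_iff]
    simp only [augRows, List.mem_map, List.mem_range]
    constructor
    · intro h c hc
      rw [← aug_dot]
      exact h _ ⟨c, hc, rfl⟩
    · rintro h z ⟨c, hc, rfl⟩
      rw [aug_dot]
      exact h c hc
  have last : ∀ y : Fin (D + 1) → ℝ, dot (D + 1) (lastVec D) y = y (Fin.last D) := by
    intro y
    rw [dot_snoc, lastVec, ent_mkVec _ (Nat.lt_succ_self D), dot, sum_eq_zero]
    · simp
    · intro c _
      rw [ent_mkVec _ (Nat.lt_succ_of_lt c.2), if_neg c.2.ne]; simp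
  obtain ⟨y0, hy0⟩ := exists_normal D R fun i => (cnt w i : ℝ)
  have h1 : ∀ z ∈ augRows D R w, dot (D + 1) z (Fin.snoc y0 (-1)) = 0 := by
    rw [kill]
    intro x
    simp only [Fin.snoc_castSucc, Fin.snoc_last, add_mul, sum_add_distrib, mul_neg, mul_one,
      neg_mul, sum_neg_distrib]
    rw [hy0]; simp
  have h2 := dot_eq_res h1 (lastVec D)
  rw [last, Fin.snoc_last] at h2
  unfold proj projSt
  generalize hc : ((List.range (D + 1)).filter fun c =>
    decide (resC (rref (D + 1) (augRows D R w)) (lastVec D) c ≠ 0)).headD 0 = c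
  have hmem : c ∈ (List.range (D + 1)).filter fun c =>
      decide (resC (rref (D + 1) (augRows D R w)) (lastVec D) c ≠ 0) := by
    have : ((List.range (D + 1)).filter fun c =>
      decide (resC (rref (D + 1) (augRows D R w)) (lastVec D) c ≠ 0)) ≠ [] := by
      intro e
      rw [List.filter_eq_nil_iff] at e
      rw [sum_eq_zero] at h2
      · norm_num at h2
      · intro c _
        have := e c (List.mem_range.2 c.2)
        simp only [decide_eq_true_eq, not_not] at this
        simp [this]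
    generalize ((List.range (D + 1)).filter fun c =>
      decide (resC (rref (D + 1) (augRows D R w)) (lastVec D) c ≠ 0)) = L at this hc
    cases L with
    | nil => exact absurd rfl this
    | cons a L => simp at hc; simp [hc]
  simp only [List.mem_filter, List.mem_range, decide_eq_true_eq] at hmem
  obtain ⟨p, hp⟩ := exists_probe (D + 1) (augRows D R w) hmem.1
  have h3 := (kill p).1 fun z hz => by rw [hp, res_eq_zero hz hmem.1]; simp
  have h4 : p (Fin.last D) = resC (rref (D + 1) (augRows D R w)) (lastVec D) c := by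
    rw [← hp, last]
  have h5 : p (Fin.last D) ≠ 0 := by rw [h4]; exact_mod_cast hmem.2
  refine ⟨(-(p (Fin.last D))⁻¹) • fun c => p c.castSucc, fun i hi => ?_, fun x => ?_⟩
  · rw [projAux, ent_mkVec _ hi, map_smul]
    push_cast
    rw [← h4, ← hp, dot_snoc, hf_apply, dot_congr (v' := R.getD i []) fun c hc => ent_mkVec _ hc]
    have : ent (mkVec D (ent (R.getD i []))) D = 0 := by simp [ent, mkVec]
    rw [this, smul_eq_mul]
    field_simp
    simp
  · have := h3 x
    simp only [add_mul, sum_add_distrib] at this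
    simp only [map_smul, smul_eq_mul, mul_assoc, ← mul_sum]
    have e : ∑ i ∈ range R.length, (cnt w i : ℝ) * p (Fin.last D) * hf D R i x =
        p (Fin.last D) * ∑ i ∈ range R.length, (cnt w i : ℝ) * hf D R i x := by
      rw [mul_sum]; exact sum_congr rfl fun i _ => by ring
    rw [e] at this
    field_simp
    linarith only [this]

def bad (D : ℕ) (R : List (List ℚ)) (A w : List ℕ) : List ℕ :=
  A.filter fun i => decide (ent (proj D R w) i ≤ 0)

def pstep (D : ℕ) (R : List (List ℚ)) (A w : List ℕ) : List ℕ :=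
  if (bad D R A w).isEmpty then w else (bad D R A w).headD 0 :: w

theorem cnt_cons (a : ℕ) (w : List ℕ) (i : ℕ) :
    cnt (a :: w) i = cnt w i + if a = i then 1 else 0 := by
  simp [cnt, List.countP_cons]

theorem sum_cnt {M : ℕ} {w : List ℕ} (h : ∀ a ∈ w, a < M) : ∑ i ∈ range M, cnt w i = w.length := by
  induction w with
  | nil => simp [cnt]
  | cons a w ih =>
    simp only [cnt_cons, sum_add_distrib, ih fun b hb => h b (List.mem_cons_of_mem _ hb),
      List.length_cons]
    simp [h a List.mem_cons_self]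

theorem head_mem {l : List ℕ} (h : ¬ l.isEmpty = true) : l.headD 0 ∈ l := by
  cases l <;> simp_all

theorem norm_step {D : ℕ} {R : List (List ℚ)} {w : List ℕ} {a : ℕ} (ha : a < R.length)
    (hz : ent (proj D R w) a ≤ 0) :
    ∑ i ∈ range R.length, (ent (proj D R (a :: w)) i : ℝ) ^ 2 ≤
      ∑ i ∈ range R.length, (ent (proj D R w) i : ℝ) ^ 2 + 1 := by
  obtain ⟨y, h1, h2⟩ := proj_spec D R w
  obtain ⟨y', h3, h4⟩ := proj_spec D R (a :: w)
  have key : ∀ x, ∑ i ∈ range R.length, hf D R i (y' - y) * hf D R i x = hf D R a x := by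
    intro x
    simp only [map_sub, sub_mul, sum_sub_distrib, ← h2, ← h4, cnt_cons]
    push_cast
    simp [add_mul, sum_add_distrib, ha]
  have k1 := key (y' - y)
  have k2 := key y
  have k3 : hf D R a (y' - y) * hf D R a (y' - y) ≤
      ∑ i ∈ range R.length, hf D R i (y' - y) * hf D R i (y' - y) :=
    single_le_sum (f := fun i => hf D R i (y' - y) * hf D R i (y' - y))
      (fun i _ => mul_self_nonneg _) (mem_range.2 ha)
  have k4 : hf D R a (y' - y) ≤ 1 := by (refine le_of_not_gt fun h_nl => ?_; linarith only [h_nl, k1, k3, mul_pos_of_neg_of_neg (Mathlib.Tactic.Linarith.sub_neg_of_lt h_nl) (Mathlib.Tactic.Linarith.sub_neg_of_lt h_nl)])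
  have k5 : hf D R a y ≤ 0 := by rw [← h1 a ha]; exact_mod_cast hz
  have e1 : ∑ i ∈ range R.length, (ent (proj D R (a :: w)) i : ℝ) ^ 2 =
      ∑ i ∈ range R.length, hf D R i y' ^ 2 :=
    sum_congr rfl fun i hi => by rw [h3 i (mem_range.1 hi)]
  have e2 : ∑ i ∈ range R.length, (ent (proj D R w) i : ℝ) ^ 2 =
      ∑ i ∈ range R.length, hf D R i y ^ 2 :=
    sum_congr rfl fun i hi => by rw [h1 i (mem_range.1 hi)]
  have e : ∑ i ∈ range R.length, hf D R i y' ^ 2 = ∑ i ∈ range R.length, hf D R i y ^ 2 +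
      2 * ∑ i ∈ range R.length, hf D R i (y' - y) * hf D R i y +
      ∑ i ∈ range R.length, hf D R i (y' - y) * hf D R i (y' - y) := by
    rw [mul_sum, ← sum_add_distrib, ← sum_add_distrib]
    exact sum_congr rfl fun i _ => by rw [map_sub]; ring
  rw [e1, e2, e, k1, k2]
  linarith only [k4, k5]

theorem pstep_iter {D : ℕ} {R : List (List ℚ)} {A : List ℕ} (hA : ∀ a ∈ A, a < R.length) (n : ℕ) :
    (∀ a ∈ (pstep D R A)^[n] [], a ∈ A) ∧ ((pstep D R A)^[n] []).length ≤ n ∧
    (∑ i ∈ range R.length, (ent (proj D R ((pstep D R A)^[n] [])) i : ℝ) ^ 2 ≤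
      ((pstep D R A)^[n] []).length) ∧
    ((bad D R A ((pstep D R A)^[n] [])).isEmpty = true ∨ ((pstep D R A)^[n] []).length = n) := by
  induction n with
  | zero =>
    obtain ⟨y, h1, h2⟩ := proj_spec D R []
    have := h2 y
    simp only [cnt, List.countP_nil, Nat.cast_zero, zero_mul, sum_const_zero] at this
    refine ⟨by simp, by simp, ?_, Or.inr rfl⟩
    simp only [Function.iterate_zero, id, List.length_nil, Nat.cast_zero]
    rw [this]
    exact le_of_eq (sum_congr rfl fun i hi => by rw [h1 i (mem_range.1 hi), sq])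
  | succ n ih =>
    rw [Function.iterate_succ_apply']
    generalize (pstep D R A)^[n] [] = w at ih
    obtain ⟨h1, h2, h3, h4⟩ := ih
    unfold pstep
    split_ifs with h0
    · exact ⟨h1, by omega, h3, Or.inl h0⟩
    · have hm := head_mem h0
      generalize (bad D R A w).headD 0 = a at hm
      simp only [bad, List.mem_filter, decide_eq_true_eq] at hm
      refine ⟨fun b hb => ?_, by simp; omega, ?_, Or.inr (by simp [h4.resolve_left h0])⟩
      · rcases List.mem_cons.1 hb with rfl | hb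
        · exact hm.1
        · exact h1 b hb
      · have := norm_step (hA a hm.1) hm.2
        rw [List.length_cons]; push_cast; linarith only [h3, this]

def percep (D : ℕ) (R : List (List ℚ)) (A : List ℕ) : List ℕ :=
  (pstep D R A)^[4 * R.length ^ 3] []

def heavy (M : ℕ) (A w : List ℕ) : ℕ := (A.filter fun i => decide (4 * M ^ 2 ≤ cnt w i)).headD 0

/-- The perceptron either finds a point positive on `A` or a coordinate that can be halved. -/
theorem percep_spec {D : ℕ} {R : List (List ℚ)} {A : List ℕ} (hA : ∀ a ∈ A, a < R.length) :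
    ((bad D R A (percep D R A)).isEmpty = true → ∃ y, ∀ i ∈ A, 0 < hf D R i y) ∧
    (¬ (bad D R A (percep D R A)).isEmpty = true → heavy R.length A (percep D R A) ∈ A ∧
      ∀ x, (∀ i < R.length, 0 ≤ hf D R i x ∧ hf D R i x ≤ 1) →
        hf D R (heavy R.length A (percep D R A)) x ≤ 1 / 2) := by
  obtain ⟨h1, -, h3, h4⟩ := pstep_iter (D := D) hA (4 * R.length ^ 3)
  unfold percep
  generalize (pstep D R A)^[4 * R.length ^ 3] [] = w at h1 h3 h4
  obtain ⟨y, y1, y2⟩ := proj_spec D R w
  refine ⟨fun h0 => ⟨y, fun i hi => ?_⟩, fun h0 => ?_⟩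
  · rw [List.isEmpty_iff, bad, List.filter_eq_nil_iff] at h0
    have := h0 i hi
    rw [← y1 i (hA i hi)]
    simpa using this
  · have hl := h4.resolve_left h0
    have hM : 0 < R.length := by
      have := hA _ (List.mem_filter.1 (head_mem h0)).1
      omega
    have hex : ¬ (A.filter fun i => decide (4 * R.length ^ 2 ≤ cnt w i)).isEmpty = true := by
      rw [List.isEmpty_iff, List.filter_eq_nil_iff]
      intro hno
      have h5 := sum_cnt (M := R.length) fun a ha => hA a (h1 a ha)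
      have h6 : ∑ i ∈ range R.length, cnt w i < ∑ i ∈ range R.length, 4 * R.length ^ 2 := by
        refine sum_lt_sum_of_nonempty ⟨0, mem_range.2 hM⟩ fun i _ => ?_
        by_cases hi : i ∈ A
        · simpa using hno i hi
        · have : cnt w i = 0 := by
            rw [cnt, List.countP_eq_zero]
            intro a ha
            simp only [decide_eq_true_eq]
            rintro rfl
            exact hi (h1 a ha)
          rw [this]; positivity
      rw [h5, hl, sum_const, card_range, smul_eq_mul] at h6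
      exact absurd h6 (by ring_nf; omega)
    have hm := head_mem hex
    unfold heavy
    generalize (A.filter fun i => decide (4 * R.length ^ 2 ≤ cnt w i)).headD 0 = a at hm
    simp only [List.mem_filter, decide_eq_true_eq] at hm
    refine ⟨hm.1, fun x hx => ?_⟩
    have k1 : (cnt w a : ℝ) * hf D R a x ≤ ∑ i ∈ range R.length, (cnt w i : ℝ) * hf D R i x :=
      single_le_sum (f := fun i => (cnt w i : ℝ) * hf D R i x)
        (fun i hi => mul_nonneg (Nat.cast_nonneg _) (hx i (mem_range.1 hi)).1)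
        (mem_range.2 (hA a hm.1))
    have k2 : 4 * (R.length : ℝ) * ∑ i ∈ range R.length, hf D R i y * hf D R i x ≤
        ∑ i ∈ range R.length, ((ent (proj D R w) i : ℝ) ^ 2 + 4 * (R.length : ℝ) ^ 2) := by
      rw [mul_sum]
      refine sum_le_sum fun i hi => ?_
      rw [y1 i (mem_range.1 hi)]
      obtain ⟨x0, x1⟩ := hx i (mem_range.1 hi)
      have : hf D R i x ^ 2 ≤ 1 := by linarith only [x1, x0, mul_nonneg_of_nonpos_of_nonpos (Mathlib.Tactic.Linarith.sub_nonpos_of_le x0) (Mathlib.Tactic.Linarith.sub_nonpos_of_le x1)]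
      linarith only [this, sq_nonneg (hf D R i y - 2 * R.length * hf D R i x),
        mul_le_mul_of_nonneg_left this (sq_nonneg (R.length : ℝ)), sq_nonneg ((hf D R i) y - (2 : ℝ) * ↑R.length * (hf D R i) x), sq_nonneg ↑R.length]
    rw [sum_add_distrib, sum_const, card_range, nsmul_eq_mul, ← y2] at k2
    rw [hl] at h3
    push_cast at h3
    have k3 : 4 * (R.length : ℝ) ^ 2 ≤ cnt w a := by exact_mod_cast hm.2
    have k4 : (0 : ℝ) < R.length := by exact_mod_cast hM
    have k5 := mul_le_mul_of_nonneg_right k3 (hx a (hA a hm.1)).1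
    have k6 : 4 * (R.length : ℝ) * (4 * (R.length : ℝ) ^ 2 * hf D R a x) ≤ 8 * R.length ^ 3 := by
      linarith only [k2, h3, k5, k1, hM, mul_le_mul_of_nonneg_left (k5.trans k1) (by positivity : (0 : ℝ) ≤ 4 * R.length)]
    have k7 : (0 : ℝ) < R.length ^ 3 := by positivity
    (refine le_of_not_gt fun h_nl => ?_; linarith only [h_nl, k6, k7, mul_pos_of_neg_of_neg (Mathlib.Tactic.Linarith.sub_neg_of_lt k7) (Mathlib.Tactic.Linarith.sub_neg_of_lt h_nl)])

section pt
variable {α : Type} [Enc α] {fD : α → ℕ} {fR : α → List (List ℚ)} {fA fw : α → List ℕ}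

@[fun_prop] theorem pt_cnt {i : α → ℕ} (h1 : PT fw) (h2 : PT i) : PT fun x => cnt (fw x) (i x) := by
  unfold cnt; fun_prop

@[fun_prop] theorem pt_augRows (h0 : PT fD) (h1 : PT fR) (h2 : PT fw) :
    PT fun x => augRows (fD x) (fR x) (fw x) := by
  unfold augRows; fun_prop

@[fun_prop] theorem pt_lastVec (h0 : PT fD) : PT fun x => lastVec (fD x) := by
  unfold lastVec; fun_prop

@[fun_prop] theorem pt_projSt {st : α → List Piv} (h0 : PT fD) (h1 : PT fR) (h2 : PT st) :
    PT fun x => projSt (fD x) (fR x) (st x) := by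
  unfold projSt projAux; fun_prop

@[fun_prop] theorem pt_proj (h0 : PT fD) (h1 : PT fR) (h2 : PT fw) :
    PT fun x => proj (fD x) (fR x) (fw x) := by
  unfold proj; fun_prop

@[fun_prop] theorem pt_bad (h0 : PT fD) (h1 : PT fR) (h3 : PT fA) (h2 : PT fw) :
    PT fun x => bad (fD x) (fR x) (fA x) (fw x) := by
  unfold bad; fun_prop

@[fun_prop] theorem pt_heavy (h0 : PT fD) (h3 : PT fA) (h2 : PT fw) :
    PT fun x => heavy (fD x) (fA x) (fw x) := by
  unfold heavy; fun_prop

theorem iter_units {β : Type} (f : β → β) (n : ℕ) (b : β) :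
    (List.replicate n ()).foldl (fun s _ => f s) b = f^[n] b := by
  induction n generalizing b with
  | zero => rfl
  | succ n ih => rw [List.replicate_succ, List.foldl_cons, ih]; rfl

@[fun_prop] theorem pt_percep (h0 : PT fD) (h1 : PT fR) (h3 : PT fA) :
    PT fun x => percep (fD x) (fR x) (fA x) := by
  obtain ⟨s, hs, hs'⟩ := h3.size
  refine (PT.foldl (f := fun x (w : List ℕ) (_ : Unit) => pstep (fD x) (fR x) (fA x) w)
    (init := fun _ => []) (l := fun x => List.replicate (4 * (fR x).length ^ 3) ())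
    (by unfold pstep; fun_prop) (by fun_prop) (by fun_prop) (fun n => 2 * s n + 1) (by fun_prop)
    fun a w _ => ?_).of_eq fun x => iter_units _ _ _
  unfold pstep
  split_ifs with h
  · omega
  · have h4 := sz_le_of_mem (List.mem_filter.1 (head_mem h)).1
    have h5 := hs' a
    simp only [sz_cons, sz_unit, Nat.add_zero] at h4 ⊢
    unfold bad
    omega

end pt

end Pool.Agent.Work.MP_0bf9cb_lc
end

-- merged part: Pool.Agent.Work.MP_0bf9cb_lc.LP
section
/-!
The maximal support of a polyhedral cone in polynomial time (projection and rescaling).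
-/

namespace Pool.Agent.Work.MP_0bf9cb_lc

open Pool.Agent.Lib.Poly Finset

def alive (M L : ℕ) (K : List ℕ) : List ℕ := (List.range M).filter fun i => decide (cnt K i ≤ L)

def deadRows (rows : List (List ℚ)) (L : ℕ) (K : List ℕ) : List (List ℚ) :=
  ((List.range rows.length).filter fun i => decide (L < cnt K i)).map fun i => rows.getD i []

def scaledAux (D : ℕ) (rows : List (List ℚ)) (K : List ℕ) (st : List Piv) : List (List ℚ) :=
  (List.range rows.length).map fun i => mkVec D fun c => 2 ^ cnt K i * resC st (rows.getD i []) c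

def scaled (D : ℕ) (rows : List (List ℚ)) (L : ℕ) (K : List ℕ) : List (List ℚ) :=
  scaledAux D rows K (rref D (deadRows rows L K))

def done (D : ℕ) (rows : List (List ℚ)) (L : ℕ) (K : List ℕ) : Bool :=
  (bad D (scaled D rows L K) (alive rows.length L K)
    (percep D (scaled D rows L K) (alive rows.length L K))).isEmpty

def ostep (D : ℕ) (rows : List (List ℚ)) (L : ℕ) (K : List ℕ) : List ℕ :=
  if done D rows L K then K else heavy rows.length (alive rows.length L K)
    (percep D (scaled D rows L K) (alive rows.length L K)) :: K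

def maxSupp (D : ℕ) (rows : List (List ℚ)) (L : ℕ) : List ℕ :=
  alive rows.length L ((ostep D rows L)^[rows.length * (L + 1) + 1] [])

variable {D : ℕ} {rows : List (List ℚ)} {L : ℕ}

theorem length_scaled (K : List ℕ) : (scaled D rows L K).length = rows.length := by
  simp [scaled, scaledAux]

theorem hf_scaled (K : List ℕ) {i : ℕ} (hi : i < rows.length) (y : Fin D → ℝ) :
    hf D (scaled D rows L K) i y = 2 ^ cnt K i *
      ∑ c : Fin D, (resC (rref D (deadRows rows L K)) (rows.getD i []) c : ℝ) * y c := by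
  have : (scaled D rows L K).getD i [] = mkVec D fun c => 2 ^ cnt K i *
      resC (rref D (deadRows rows L K)) (rows.getD i []) c := by
    simp [scaled, scaledAux, List.getD_eq_getElem?_getD, hi]
  rw [hf_apply, this, dot, mul_sum]
  refine sum_congr rfl fun c _ => ?_
  rw [ent_mkVec _ c.2]; push_cast; ring

theorem scaled_of_dead (K : List ℕ) {y : Fin D → ℝ}
    (hy : ∀ i, L < cnt K i → hf D rows i y = 0) {i : ℕ} (hi : i < rows.length) :
    hf D (scaled D rows L K) i y = 2 ^ cnt K i * hf D rows i y := by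
  rw [hf_scaled K hi, hf_apply, dot_eq_res (Z := deadRows rows L K)]
  intro z hz
  obtain ⟨j, hj, rfl⟩ := List.mem_map.1 hz
  exact hy j (by simpa using (List.mem_filter.1 hj).2)

theorem exists_unscale (K : List ℕ) (y' : Fin D → ℝ) : ∃ y : Fin D → ℝ, ∀ i < rows.length,
    hf D (scaled D rows L K) i y' = 2 ^ cnt K i * hf D rows i y ∧
      (L < cnt K i → hf D rows i y = 0) := by
  choose p hp using fun c : Fin D => exists_probe D (deadRows rows L K) c.2
  have e : ∀ i, hf D rows i (∑ c, y' c • p c) =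
      ∑ c : Fin D, (resC (rref D (deadRows rows L K)) (rows.getD i []) c : ℝ) * y' c := by
    intro i
    rw [map_sum]
    exact sum_congr rfl fun c _ => by rw [map_smul, hf_apply, hp, smul_eq_mul, mul_comm]
  refine ⟨∑ c, y' c • p c, fun i hi => ⟨by rw [hf_scaled K hi, e], fun hd => ?_⟩⟩
  rw [e]
  refine sum_eq_zero fun c _ => ?_
  rw [res_eq_zero _ c.2]
  · simp
  · exact List.mem_map.2 ⟨i, List.mem_filter.2 ⟨List.mem_range.2 hi, by simpa using hd⟩, rfl⟩

def Box (D : ℕ) (rows : List (List ℚ)) (y : Fin D → ℝ) : Prop :=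
  ∀ i, 0 ≤ hf D rows i y ∧ hf D rows i y ≤ 1

def Low (D : ℕ) (rows : List (List ℚ)) (L : ℕ) : Prop :=
  ∀ i y, NN (hf D rows) ∅ y → hf D rows i y ≠ 0 → ∃ x, Box D rows x ∧ 1 ≤ 2 ^ L * hf D rows i x

def OInv (D : ℕ) (rows : List (List ℚ)) (L : ℕ) (K : List ℕ) : Prop :=
  (∀ y, Box D rows y → ∀ i, 2 ^ cnt K i * hf D rows i y ≤ 1) ∧ (∀ a ∈ K, a < rows.length) ∧
    ∀ i, cnt K i ≤ L + 1

theorem OInv.dead (hL : Low D rows L) {K : List ℕ} (hK : OInv D rows L K) {y : Fin D → ℝ}
    (hy : NN (hf D rows) ∅ y) (i : ℕ) (hi : L < cnt K i) : hf D rows i y = 0 := by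
  by_contra hne
  obtain ⟨x, x1, x2⟩ := hL i y hy hne
  have h1 := hK.1 x x1 i
  rw [show cnt K i = L + 1 by have := hK.2.2 i; omega, pow_succ] at h1
  linarith only [x2, h1]

theorem alive_lt (K : List ℕ) : ∀ a ∈ alive rows.length L K, a < (scaled D rows L K).length := by
  intro a ha
  rw [length_scaled]
  exact List.mem_range.1 (List.mem_filter.1 ha).1

theorem ostep_iter (hL : Low D rows L) (n : ℕ) : OInv D rows L ((ostep D rows L)^[n] []) ∧
    (done D rows L ((ostep D rows L)^[n] []) = true ∨ ((ostep D rows L)^[n] []).length = n) := by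
  induction n with
  | zero => exact ⟨⟨fun y hy i => by simpa [cnt] using (hy i).2, by simp, by simp [cnt]⟩,
      Or.inr rfl⟩
  | succ n ih =>
    rw [Function.iterate_succ_apply']
    generalize (ostep D rows L)^[n] [] = K at ih
    obtain ⟨h1, h2⟩ := ih
    unfold ostep
    split_ifs with h0
    · exact ⟨h1, Or.inl h0⟩
    · refine ⟨?_, Or.inr (by simp [h2.resolve_left h0])⟩
      obtain ⟨a1, a2⟩ := (percep_spec (D := D) (alive_lt K)).2 h0
      rw [length_scaled] at a1 a2
      generalize heavy rows.length (alive rows.length L K)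
        (percep D (scaled D rows L K) (alive rows.length L K)) = a at a1 a2
      simp only [alive, List.mem_filter, List.mem_range, decide_eq_true_eq] at a1
      refine ⟨fun y hy i => ?_, fun b hb => ?_, fun i => ?_⟩
      · have hd := h1.dead hL (y := y) fun i _ => (hy i).1
        rw [cnt_cons]
        split_ifs with e
        · subst e
          have := a2 y fun i hi => by
            rw [scaled_of_dead K hd hi]
            exact ⟨mul_nonneg (by positivity) (hy i).1, h1.1 y hy i⟩
          rw [scaled_of_dead K hd a1.1] at this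
          rw [pow_succ]; linarith only [this]
        · exact h1.1 y hy i
      · rcases List.mem_cons.1 hb with rfl | hb
        · exact a1.1
        · exact h1.2.1 b hb
      · rw [cnt_cons]
        split_ifs with e
        · subst e; omega
        · exact h1.2.2 i

theorem maxSupp_spec (hL : Low D rows L) :
    (∀ y, NN (hf D rows) ∅ y → ∀ i, hf D rows i y ≠ 0 → i ∈ maxSupp D rows L) ∧
    ∃ p, NN (hf D rows) ∅ p ∧ ∀ i ∈ maxSupp D rows L, 0 < hf D rows i p := by
  obtain ⟨h1, h2⟩ := ostep_iter hL (rows.length * (L + 1) + 1)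
  unfold maxSupp
  generalize (ostep D rows L)^[rows.length * (L + 1) + 1] [] = K at h1 h2
  have h3 : done D rows L K = true := by
    refine h2.resolve_right fun e => ?_
    have a1 := sum_cnt h1.2.1
    have a2 : ∑ i ∈ range rows.length, cnt K i ≤ ∑ i ∈ range rows.length, (L + 1) :=
      sum_le_sum fun i _ => h1.2.2 i
    rw [sum_const, card_range, smul_eq_mul] at a2
    omega
  refine ⟨fun y hy i hi => ?_, ?_⟩
  · simp only [alive, List.mem_filter, List.mem_range, decide_eq_true_eq]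
    refine ⟨?_, not_lt.1 fun hd => hi (h1.dead hL hy i hd)⟩
    by_contra hlt
    exact hi (by rw [hf_zero D rows i (not_lt.1 hlt)]; rfl)
  · obtain ⟨y', hy'⟩ := (percep_spec (D := D) (alive_lt K)).1 h3
    obtain ⟨y, hy⟩ := exists_unscale (rows := rows) (L := L) K y'
    have pos : ∀ i ∈ alive rows.length L K, 0 < hf D rows i y := by
      intro i hi
      have := hy' i hi
      rw [(hy i (List.mem_range.1 (List.mem_filter.1 hi).1)).1] at this
      exact (mul_pos_iff_of_pos_left (by positivity)).1 this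
    refine ⟨y, fun i _ => ?_, pos⟩
    by_cases hi : i < rows.length
    · by_cases hd : L < cnt K i
      · exact ((hy i hi).2 hd).ge
      · exact (pos i (List.mem_filter.2 ⟨List.mem_range.2 hi, by simpa using hd⟩)).le
    · rw [hf_zero D rows i (not_lt.1 hi)]; rfl

theorem rat_bounds {q : ℚ} {t : ℕ} (hq : 0 < q) (h : sz q ≤ t) :
    (q : ℝ) ≤ 2 ^ t ∧ 1 ≤ 2 ^ t * (q : ℝ) := by
  have h1 := (ht_lt q).le.trans (Nat.pow_le_pow_right (by omega) h)
  have h2 : q.num.natAbs ≤ 2 ^ t := (le_max_left _ _).trans h1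
  have h3 : q.den ≤ 2 ^ t := (le_max_right _ _).trans h1
  have h4 : 0 < q.num := Rat.num_pos.2 hq
  have e : (q : ℝ) * q.den = q.num := by exact_mod_cast Rat.mul_den_eq_num q
  have a1 : (q.num : ℝ) ≤ 2 ^ t := by
    have : q.num ≤ ((2 ^ t : ℕ) : ℤ) := by omega
    exact_mod_cast this
  have a2 : (q.den : ℝ) ≤ 2 ^ t := by exact_mod_cast h3
  have a3 : (1 : ℝ) ≤ q.num := by exact_mod_cast h4
  have a4 : (1 : ℝ) ≤ q.den := by exact_mod_cast q.pos
  have a5 : (0 : ℝ) < q := by exact_mod_cast hq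
  constructor <;> linarith only [e, a1, a4, a5, a3, a2, mul_nonneg_of_nonpos_of_nonpos (Mathlib.Tactic.Linarith.sub_nonpos_of_le a4) (le_of_lt (Mathlib.Tactic.Linarith.sub_neg_of_lt a5)), mul_nonneg_of_nonpos_of_nonpos (Mathlib.Tactic.Linarith.sub_nonpos_of_le a2) (le_of_lt (Mathlib.Tactic.Linarith.sub_neg_of_lt a5))]

theorem sz_range_le (k : ℕ) : sz (List.range k) ≤ k * (2 * k + 1) := by
  have := sz_list_le (List.range k) k fun x hx => by
    rw [sz_nat]; exact (List.mem_range.1 hx).le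
  simpa using this

theorem sz_filter_le' {β : Type} [Enc β] (p : β → Bool) (l : List β) : sz (l.filter p) ≤ sz l := by
  induction l with
  | nil => simp
  | cons a l ih => rw [List.filter_cons]; split_ifs <;> simp <;> omega

theorem exists_low : ∃ t : ℕ → ℕ, IsPoly t ∧ ∀ D rows, Low D rows (t (sz (D, rows))) := by
  have hpt : PT fun p : (ℕ × List (List ℚ)) × List ℕ × ℕ × ℕ =>
      resC (rref p.1.1 (zrows p.1.2 [] p.2.1)) (p.1.2.getD p.2.2.1 []) p.2.2.2 *
      resC (rref p.1.1 (zrows p.1.2 [] p.2.1)) (p.1.2.getD (p.2.1.headD 0) []) p.2.2.2 := by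
    fun_prop
  obtain ⟨s, hs, hs'⟩ := hpt.size
  refine ⟨fun n => 2 * s (2 * n + 1 + (2 * (n * (2 * n + 1)) + 1 + (2 * n + 1 + n))),
    by fun_prop, fun D rows i y hy hi => ?_⟩
  obtain ⟨S, hS, hiS, -⟩ := exists_circ (hf_zero D rows) (X := ∅) (by simp) y hy hi
  have hSM := hS.subset_range (hf_zero D rows)
  obtain ⟨l, hl, hsz⟩ : ∃ l : List ℕ, l.toFinset = S ∧ sz l ≤ sz (List.range rows.length) := by
    refine ⟨(List.range rows.length).filter fun j => decide (j ∈ S), ?_, sz_filter_le' _ _⟩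
    ext j
    simp only [List.mem_toFinset, List.mem_filter, List.mem_range, decide_eq_true_eq,
      and_iff_right_iff_imp]
    exact fun hj => mem_range.1 (hSM hj)
  subst hl
  have hc := (circT_iff D rows [] l).2 hS
  simp only [circT, circR, Bool.and_eq_true, List.all_eq_true, decide_eq_true_eq,
    List.any_eq_true, List.mem_range] at hc
  obtain ⟨-, c, hcD, hc⟩ := hc
  obtain ⟨p, hp⟩ := exists_probe D (zrows rows [] l) hcD
  have hv : Van (hf D rows) ([] : List ℕ).toFinset l.toFinset p :=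
    (van_iff ..).2 fun z hz => by rw [hp, res_eq_zero hz hcD]; simp
  set n := sz (D, rows) with hn
  set t := s (2 * n + 1 + (2 * (n * (2 * n + 1)) + 1 + (2 * n + 1 + n))) with ht
  have hD : D ≤ n := by rw [hn, sz_pair, sz_nat]; omega
  have hM : rows.length ≤ n := by
    have := length_le_sz rows
    rw [hn, sz_pair]; omega
  have bd : ∀ j ∈ l, sz (resC (rref D (zrows rows [] l)) (rows.getD j []) c *
      resC (rref D (zrows rows [] l)) (rows.getD (l.headD 0) []) c) ≤ t := by
    intro j hj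
    refine (hs' ((D, rows), l, j, c)).trans (hs.mono ?_)
    have a1 := mem_range.1 (hSM (List.mem_toFinset.2 hj))
    have a2 := hsz.trans ((sz_range_le _).trans (Nat.mul_le_mul hM
      (show 2 * rows.length + 1 ≤ 2 * n + 1 by omega)))
    simp only [sz_pair, sz_nat] at hn ⊢
    omega
  have val : ∀ j, hf D rows j (((2 : ℝ) ^ t)⁻¹ •
      (resC (rref D (zrows rows [] l)) (rows.getD (l.headD 0) []) c : ℝ) • p) =
      ((2 : ℝ) ^ t)⁻¹ * ((resC (rref D (zrows rows [] l)) (rows.getD j []) c *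
        resC (rref D (zrows rows [] l)) (rows.getD (l.headD 0) []) c : ℚ) : ℝ) := by
    intro j
    rw [map_smul, map_smul, hf_apply, hp]; push_cast; simp only [smul_eq_mul]; ring
  have h2 : (0 : ℝ) < 2 ^ t := by positivity
  refine ⟨((2 : ℝ) ^ t)⁻¹ •
      (resC (rref D (zrows rows [] l)) (rows.getD (l.headD 0) []) c : ℝ) • p, fun j => ?_, ?_⟩
  · by_cases hj : j ∈ l
    · rw [val]
      obtain ⟨b1, b2⟩ := rat_bounds (hc j hj).1 (bd j hj)
      refine ⟨mul_nonneg (by positivity) (by (refine le_of_not_gt fun h_nl => ?_; linarith only [h_nl, b2, h2, mul_pos_of_neg_of_neg (Mathlib.Tactic.Linarith.sub_neg_of_lt h2) (Mathlib.Tactic.Linarith.sub_neg_of_lt h_nl)])), ?_⟩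
      rwa [inv_mul_le_iff₀ h2, mul_one]
    · rw [map_smul, map_smul, hv j (by simp) (by simpa using hj)]; simp
  · rw [val]
    obtain ⟨-, b2⟩ := rat_bounds (hc i (List.mem_toFinset.1 hiS)).1 (bd i (List.mem_toFinset.1 hiS))
    show 1 ≤ (2 : ℝ) ^ (2 * t) * _
    rw [two_mul, pow_add, mul_assoc, mul_inv_cancel_left₀ h2.ne']
    exact b2

section pt
variable {α : Type} [Enc α] {fD fL : α → ℕ} {fR : α → List (List ℚ)} {fK : α → List ℕ}

@[fun_prop] theorem pt_alive (h0 : PT fD) (h1 : PT fL) (h2 : PT fK) :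
    PT fun x => alive (fD x) (fL x) (fK x) := by
  unfold alive; fun_prop

@[fun_prop] theorem pt_scaledAux {st : α → List Piv} (h0 : PT fD) (h1 : PT fR) (h2 : PT fK)
    (h3 : PT st) : PT fun x => scaledAux (fD x) (fR x) (fK x) (st x) := by
  unfold scaledAux; fun_prop

@[fun_prop] theorem pt_scaled (h0 : PT fD) (h1 : PT fR) (h3 : PT fL) (h2 : PT fK) :
    PT fun x => scaled (fD x) (fR x) (fL x) (fK x) := by
  unfold scaled deadRows; fun_prop

@[fun_prop] theorem pt_ostep (h0 : PT fD) (h1 : PT fR) (h3 : PT fL) (h2 : PT fK) :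
    PT fun x => ostep (fD x) (fR x) (fL x) (fK x) := by
  have : PT fun x => done (fD x) (fR x) (fL x) (fK x) := by unfold done; fun_prop
  refine (PT.cond this h2 (g := fun x => heavy (fR x).length (alive (fR x).length (fL x) (fK x))
    (percep (fD x) (scaled (fD x) (fR x) (fL x) (fK x)) (alive (fR x).length (fL x) (fK x))) ::
      fK x) (by fun_prop)).of_eq fun x => ?_
  unfold ostep
  cases done (fD x) (fR x) (fL x) (fK x) <;> rfl

@[fun_prop] theorem pt_maxSupp (h0 : PT fD) (h1 : PT fR) (h3 : PT fL) :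
    PT fun x => maxSupp (fD x) (fR x) (fL x) := by
  obtain ⟨s, hs, hs'⟩ := h1.size
  have : PT fun x => (ostep (fD x) (fR x) (fL x))^[(fR x).length * (fL x + 1) + 1] [] := by
    refine (PT.foldl (f := fun x (K : List ℕ) (_ : Unit) => ostep (fD x) (fR x) (fL x) K)
      (init := fun _ => []) (l := fun x => List.replicate ((fR x).length * (fL x + 1) + 1) ())
      (by fun_prop) (by fun_prop) (by fun_prop) (fun n => 2 * s n + 1) (by fun_prop)
      fun a K _ => ?_).of_eq fun x => iter_units _ _ _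
    unfold ostep
    split_ifs with h
    · omega
    · obtain ⟨a1, -⟩ := (percep_spec (D := fD a) (alive_lt K)).2 h
      have a2 := alive_lt (D := fD a) K _ a1
      rw [length_scaled] at a2
      have h4 := length_le_sz (fR a)
      have h5 := hs' a
      simp only [sz_cons, sz_unit, Nat.add_zero, sz_nat]
      omega
  unfold maxSupp; fun_prop

end pt

end Pool.Agent.Work.MP_0bf9cb_lc
end

-- merged part: Pool.Agent.Work.MP_0bf9cb_lc.Link
section
/-!
Vertices of a polytope are the positive circuits of its homogenisation.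
-/

namespace Pool.Agent.Work.MP_0bf9cb_lc

open Finset

variable {d M : ℕ} {h : ℕ → (Fin (d + 1) → ℝ) →ₗ[ℝ] ℝ}

def lift (t : ℝ) (x : Fin d → ℝ) : Fin (d + 1) → ℝ := Fin.cons t x

@[simp] theorem lift_zero (t : ℝ) (x : Fin d → ℝ) : lift t x 0 = t := rfl
@[simp] theorem lift_succ (t : ℝ) (x : Fin d → ℝ) (j : Fin d) : lift t x j.succ = x j := rfl

theorem lift_comb (a b s t : ℝ) (x y : Fin d → ℝ) :
    lift (a * s + b * t) (a • x + b • y) = a • lift s x + b • lift t y := by
  funext j
  refine Fin.cases ?_ (fun j => ?_) j <;> simp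

theorem lift_tail (y : Fin (d + 1) → ℝ) : lift (y 0) (Fin.tail y) = y := Fin.cons_self_tail y

/-- The slice of the cone at height one. -/
def Pl (h : ℕ → (Fin (d + 1) → ℝ) →ₗ[ℝ] ℝ) : Set (Fin d → ℝ) := {x | NN h ∅ (lift 1 x)}

theorem rec_zero (hb : Bornology.IsBounded (Pl h)) (hne : (Pl h).Nonempty) {y}
    (hy : NN h ∅ y) (h0 : y 0 = 0) : y = 0 := by
  obtain ⟨x, hx⟩ := hne
  obtain ⟨C, hC⟩ := hb.exists_norm_le
  have mem : ∀ t : ℝ, 0 ≤ t → x + t • Fin.tail y ∈ Pl h := by
    intro t ht i hi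
    have := lift_comb 1 t 1 (y 0) x (Fin.tail y)
    rw [lift_tail, h0, one_smul, one_smul, mul_zero, add_zero, mul_one] at this
    rw [this, map_add, map_smul, smul_eq_mul]
    exact add_nonneg (hx i hi) (mul_nonneg ht (hy i hi))
  have z0 : Fin.tail y = 0 := by
    by_contra hz
    have hp : 0 < ‖Fin.tail y‖ := norm_pos_iff.2 hz
    have hC0 : 0 ≤ C := (norm_nonneg _).trans (hC x hx)
    have a1 := hC _ (mem ((2 * C + 1) / ‖Fin.tail y‖) (by positivity))
    have a2 := hC x hx
    have a3 := norm_sub_le (x + ((2 * C + 1) / ‖Fin.tail y‖) • Fin.tail y) x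
    rw [add_sub_cancel_left, norm_smul, Real.norm_of_nonneg (by positivity),
      div_mul_cancel₀ _ hp.ne'] at a3
    linarith only [a1, a2, a3]
  rw [← lift_tail y, h0, z0]
  funext j
  refine Fin.cases ?_ (fun j => ?_) j <;> simp

theorem pointed (h0 : ∀ y, h 0 y = y 0) (hb : Bornology.IsBounded (Pl h)) (hne : (Pl h).Nonempty)
    (z) (hz : ∀ i, h i z = 0) : z = 0 :=
  rec_zero hb hne (fun i _ => (hz i).ge) ((h0 z).symm.trans (hz 0))

theorem exists_eps (hM : ∀ i, M ≤ i → h i = 0) {y w} (hy : NN h ∅ y)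
    (hw : ∀ i, h i y = 0 → h i w = 0) :
    ∃ ε : ℝ, 0 < ε ∧ ∀ s : ℝ, 0 ≤ s → s ≤ ε → NN h ∅ (y - s • w) := by
  by_cases hp : ∃ j, 0 < h j w
  · obtain ⟨j, hj⟩ := hp
    obtain ⟨t, ht, h1, -⟩ := shrink hM hy (fun i _ => hw i) (j := j) (by simp) hj
    refine ⟨t, ht, fun s s0 s1 i hi => ?_⟩
    have a1 := h1 i hi
    have a2 := hy i hi
    rw [map_sub, map_smul, smul_eq_mul] at a1 ⊢
    by_cases a3 : 0 ≤ h i w <;> nlinarith only [ht, s0, a1, s1, a2, a3]
  · push Not at hp
    refine ⟨1, one_pos, fun s s0 _ i hi => ?_⟩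
    have a1 := hp i
    have a2 := hy i hi
    rw [map_sub, map_smul, smul_eq_mul]
    nlinarith

theorem wit_of_extreme (hM : ∀ i, M ≤ i → h i = 0) (h0 : ∀ y, h 0 y = y 0) {x}
    (hx : x ∈ (Pl h).extremePoints ℝ) : Wit h ∅ (supp h M ∅ (lift 1 x)) (lift 1 x) := by
  have nn : NN h ∅ (lift 1 x) := hx.1
  refine ⟨⟨0, (mem_supp hM).2 ⟨by simp, by simp [h0]⟩⟩, by simp, fun i hi => ?_, fun i _ hi => ?_,
    fun z hz => ⟨z 0, fun i _ => ?_⟩⟩
  · exact lt_of_le_of_ne (nn i (by simp)) ((mem_supp hM).1 hi).2.symm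
  · by_contra e
    exact hi ((mem_supp hM).2 ⟨by simp, e⟩)
  · have hw : ∀ i, h i (lift 1 x) = 0 → h i (z - z 0 • lift 1 x) = 0 := by
      intro i e
      rw [map_sub, map_smul, e, hz i (by simp) fun hs => ((mem_supp hM).1 hs).2 e]; simp
    generalize hwe : z - z 0 • lift 1 x = w at hw
    have w0 : w 0 = 0 := by rw [← hwe]; simp
    obtain ⟨e1, a1, a2⟩ := exists_eps hM nn hw
    obtain ⟨e2, b1, b2⟩ := exists_eps hM nn (w := -w) fun i e => by rw [map_neg, hw i e, neg_zero]
    have c0 : 0 < min e1 e2 := lt_min a1 b1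
    have mem : ∀ s : ℝ, NN h ∅ (lift 1 x + s • w) → x + s • Fin.tail w ∈ Pl h := by
      intro s hs
      have := lift_comb 1 s 1 (w 0) x (Fin.tail w)
      rw [lift_tail, w0, one_smul, one_smul, mul_zero, add_zero, mul_one] at this
      show NN h ∅ _
      rwa [this]
    have c1 := mem (-min e1 e2) (by
      have := a2 _ c0.le (min_le_left _ _)
      rwa [sub_eq_add_neg, ← neg_smul] at this)
    have c2 := mem (min e1 e2) (by
      have := b2 _ c0.le (min_le_right _ _)
      rwa [smul_neg, sub_neg_eq_add] at this)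
    have c3 := hx.2 c2 c1 ⟨1 / 2, 1 / 2, by norm_num, by norm_num, by norm_num, by module⟩
    have c4 : Fin.tail w = 0 := by
      rw [add_eq_left] at c3
      exact (smul_eq_zero.1 c3).resolve_left c0.ne'
    have c5 : w = 0 := by
      rw [← lift_tail w, w0, c4]
      funext j
      refine Fin.cases ?_ (fun j => ?_) j <;> simp
    rw [c5, sub_eq_zero] at hwe
    conv_lhs => rw [hwe]
    rw [map_smul, smul_eq_mul]

theorem eq_of_wit (h0 : ∀ y, h 0 y = y 0) (hp : ∀ z, (∀ i, h i z = 0) → z = 0) {S x x'}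
    (hx : Wit h ∅ S (lift 1 x)) (hx' : Van h ∅ S (lift 1 x')) : x' = x := by
  obtain ⟨t, ht⟩ := hx.uniq _ hx'
  have m0 : 0 ∈ S := by
    by_contra e
    have := hx.van 0 (by simp) e
    simp [h0] at this
  have t1 : t = 1 := by simpa [h0] using (ht 0 m0).symm
  have := hp (lift 1 x' - lift 1 x) fun i => by
    rw [map_sub]
    by_cases hi : i ∈ S
    · rw [ht i hi, t1]; ring
    · rw [hx.van i (by simp) hi, hx' i (by simp) hi, sub_zero]
  funext j
  have := congrFun this j.succ
  simpa [sub_eq_zero] using this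

theorem extreme_of_circ (h0 : ∀ y, h 0 y = y 0)
    (hb : Bornology.IsBounded (Pl h)) (hne : (Pl h).Nonempty) {R} (hR : Circ h ∅ R) :
    ∃ x ∈ (Pl h).extremePoints ℝ, Wit h ∅ R (lift 1 x) := by
  obtain ⟨y, hy⟩ := hR
  have y0 : 0 < y 0 := by
    refine lt_of_le_of_ne (h0 y ▸ hy.nn 0 (by simp)) fun e => ?_
    obtain ⟨i, hi⟩ := hy.ne
    have := hy.pos i hi
    rw [rec_zero hb hne hy.nn e.symm] at this
    simp at this
  have e : lift 1 ((y 0)⁻¹ • Fin.tail y) = (y 0)⁻¹ • y := by
    funext j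
    refine Fin.cases ?_ (fun j => ?_) j
    · simp [y0.ne']
    · simp [Fin.tail]
  have w : Wit h ∅ R (lift 1 ((y 0)⁻¹ • Fin.tail y)) := by
    rw [e]
    refine ⟨hy.ne, hy.disj, fun i hi => ?_, fun i a b => by rw [map_smul, hy.van i a b, smul_zero],
      fun z hz => ?_⟩
    · rw [map_smul, smul_eq_mul]; exact mul_pos (inv_pos.2 y0) (hy.pos i hi)
    · obtain ⟨t, ht⟩ := hy.uniq z hz
      refine ⟨t * y 0, fun i hi => ?_⟩
      rw [ht i hi, map_smul, smul_eq_mul]
      field_simp
  refine ⟨_, ⟨w.nn, fun x1 h1 x2 h2 hs => ?_⟩, w⟩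
  obtain ⟨a, b, ha, hb', hab, hs⟩ := hs
  refine eq_of_wit h0 (pointed h0 hb hne) w fun i _ hi => ?_
  have c1 := w.van i (by simp) hi
  have c2 := lift_comb a b 1 1 x1 x2
  rw [mul_one, mul_one, hab, hs] at c2
  rw [c2, map_add, map_smul, map_smul, smul_eq_mul, smul_eq_mul] at c1
  have c3 := h1 i (by simp)
  have c4 := h2 i (by simp)
  have c5 := mul_nonneg hb'.le c4
  refine le_antisymm ?_ c3
  by_contra hlt
  have := mul_pos ha (not_le.1 hlt)
  linarith only [c1, c5, this]

theorem supp_of_wit (hM : ∀ i, M ≤ i → h i = 0) {R y} (w : Wit h ∅ R y) : supp h M ∅ y = R := by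
  ext i
  rw [mem_supp hM]
  refine ⟨fun hi => ?_, fun hi => ⟨by simp, (w.pos i hi).ne'⟩⟩
  by_contra e
  exact hi.2 (w.van i (by simp) e)

theorem comp_link (hM : ∀ i, M ≤ i → h i = 0) (h0 : ∀ y, h 0 y = y 0)
    (hb : Bornology.IsBounded (Pl h)) (hne : (Pl h).Nonempty) {W : Set (Fin d → ℝ)}
    (hW : W ⊆ (Pl h).extremePoints ℝ) :
    Comp h ∅ {R | ∃ x ∈ W, supp h M ∅ (lift 1 x) = R} ↔
      ¬ ∃ x ∈ (Pl h).extremePoints ℝ, x ∉ W := by
  constructor
  · rintro hc ⟨x, hx, hxW⟩
    have w := wit_of_extreme hM h0 hx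
    obtain ⟨x', h1, h2⟩ := hc _ ⟨_, w⟩
    have w' := wit_of_extreme hM h0 (hW h1)
    rw [h2] at w'
    exact hxW (eq_of_wit h0 (pointed h0 hb hne) w w'.van ▸ h1)
  · intro hno R hR
    obtain ⟨x, h1, h2⟩ := extreme_of_circ h0 hb hne hR
    refine ⟨x, ?_, supp_of_wit hM h2⟩
    by_contra e
    exact hno ⟨x, h1, e⟩

theorem nonempty_iff (h0 : ∀ y, h 0 y = y 0) :
    (Pl h).Nonempty ↔ ∃ p, NN h ∅ p ∧ 0 < h 0 p := by
  constructor
  · rintro ⟨x, hx⟩
    exact ⟨_, hx, by simp [h0]⟩
  · rintro ⟨p, h1, h2⟩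
    rw [h0] at h2
    have e : lift 1 ((p 0)⁻¹ • Fin.tail p) = (p 0)⁻¹ • p := by
      funext j
      refine Fin.cases ?_ (fun j => ?_) j
      · simp [h2.ne']
      · simp [Fin.tail]
    refine ⟨(p 0)⁻¹ • Fin.tail p, fun i hi => ?_⟩
    rw [e, map_smul, smul_eq_mul]
    exact mul_nonneg (inv_pos.2 h2).le (h1 i hi)

end Pool.Agent.Work.MP_0bf9cb_lc
end

-- merged part: Pool.Agent.Work.MP_0bf9cb_lc.Inp
section
/-!
The input of the vertex enumeration problem and its homogenisation.
-/

namespace Pool.Agent.Work.MP_0bf9cb_lc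

open Pool.Agent.Lib.Poly Finset

abbrev Inp := List (List ℚ) × List ℚ × List (List ℚ)

def dimI (a : Inp) : ℕ := (a.1.headD []).length + 1

def rowsI (a : Inp) : List (List ℚ) :=
  [1] :: (List.range a.1.length).map fun i => a.2.1.getD i 0 :: (a.1.getD i []).map fun q => -q

def qdot (D : ℕ) (r v : List ℚ) : ℚ := ((List.range D).map fun c => ent r c * ent v c).sum

def suppI (D : ℕ) (rows : List (List ℚ)) (v : List ℚ) : List ℕ :=
  (List.range rows.length).filter fun i => decide (qdot D (rows.getD i []) (1 :: v) ≠ 0)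

def famI (a : Inp) : List (List ℕ) := a.2.2.map (suppI (dimI a) (rowsI a))

def mkInp {m d n : ℕ} (A : Fin m → Fin d → ℚ) (b : Fin m → ℚ) (V : Fin n → Fin d → ℚ) : Inp :=
  (List.ofFn fun i => List.ofFn (A i), List.ofFn b, List.ofFn fun k => List.ofFn (V k))

theorem pt_dimI : PT dimI := by unfold dimI; fun_prop
theorem pt_rowsI : PT rowsI := by unfold rowsI; fun_prop
theorem pt_famI : PT famI := by
  have := pt_dimI
  have := pt_rowsI
  unfold famI suppI qdot; fun_prop

theorem length_rowsI (a : Inp) : (rowsI a).length = a.1.length + 1 := by simp [rowsI]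

theorem length_famI (a : Inp) : (famI a).length = a.2.2.length := by simp [famI]

theorem sz_famI (a : Inp) : ∀ S ∈ famI a, sz S ≤ (sz a + 1) * (2 * (sz a + 1) + 1) := by
  intro S hS
  obtain ⟨v, -, rfl⟩ := List.mem_map.1 hS
  have h1 := (length_le_sz a.1).trans (sz_fst_le a)
  refine (sz_filter_le _ _).trans ((sz_range_le _).trans ?_)
  rw [length_rowsI]
  exact Nat.mul_le_mul (by omega) (by omega)

theorem dimI_le (a : Inp) : dimI a ≤ sz a + 1 := by
  have h1 := sz_fst_le a
  have : (a.1.headD []).length ≤ sz a.1 := by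
    cases a.1 with
    | nil => simp
    | cons r l => have := length_le_sz r; simp; omega
  unfold dimI; omega

variable {m d n : ℕ} (A : Fin m → Fin d → ℚ) (b : Fin m → ℚ) (V : Fin n → Fin d → ℚ)

theorem ent_ofFn (v : Fin d → ℚ) (j : Fin d) : ent (List.ofFn v) j = v j := by
  simp [ent, List.getD_eq_getElem?_getD]

theorem hf_rowsI_zero (D : ℕ) (a : Inp) (y : Fin (D + 1) → ℝ) : hf (D + 1) (rowsI a) 0 y = y 0 := by
  simp [hf_apply, rowsI, dot, ent, Fin.sum_univ_succ]

theorem hf_rowsI_succ (i : Fin m) (y : Fin (d + 1) → ℝ) :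
    hf (d + 1) (rowsI (mkInp A b V)) (i + 1) y = b i * y 0 - ∑ j, A i j * y j.succ := by
  have e : (rowsI (mkInp A b V)).getD (i + 1) [] = b i :: List.ofFn fun j => -A i j := by
    simp [rowsI, mkInp, List.getD_eq_getElem?_getD, List.map_ofFn, Function.comp_def]
  rw [hf_apply, e, dot, Fin.sum_univ_succ, sub_eq_add_neg, ← sum_neg_distrib]
  congr 1
  refine sum_congr rfl fun j _ => ?_
  have : ent (b i :: List.ofFn fun j => -A i j) j.succ = -A i j := ent_ofFn (fun j => -A i j) j
  rw [this]; push_cast; ring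

theorem Pl_eq : Pl (hf (d + 1) (rowsI (mkInp A b V))) =
    {x : Fin d → ℝ | ∀ i, ∑ j, (A i j : ℝ) * x j ≤ b i} := by
  ext x
  constructor
  · intro hx i
    have := hx (i + 1) (by simp)
    rw [hf_rowsI_succ] at this
    simpa using this
  · intro hx i _
    rcases i with _ | i
    · rw [hf_rowsI_zero]; simp
    · by_cases hi : i < m
      · have := hf_rowsI_succ A b V ⟨i, hi⟩ (lift 1 x)
        rw [this]
        simpa using hx ⟨i, hi⟩
      · rw [hf_zero _ _ _ (by simp [length_rowsI, mkInp]; omega)]; rfl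

theorem suppI_eq (rows : List (List ℚ)) (v : Fin d → ℚ) :
    (suppI (d + 1) rows (List.ofFn v)).toFinset =
      supp (hf (d + 1) rows) rows.length ∅ (lift 1 fun j => (v j : ℝ)) := by
  have e : ∀ r, (qdot (d + 1) r (1 :: List.ofFn v) : ℝ) =
      dot (d + 1) r (lift 1 fun j => (v j : ℝ)) := by
    intro r
    rw [qdot, list_sum_range, dot, ← Fin.sum_univ_eq_sum_range fun c => ent r c * ent _ c]
    push_cast
    refine sum_congr rfl fun c _ => ?_
    congr 1
    refine Fin.cases ?_ (fun j => ?_) c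
    · simp [ent]
    · have : ent (1 :: List.ofFn v) j.succ = v j := ent_ofFn v j
      rw [this, lift_succ]
  ext i
  simp only [suppI, supp, List.mem_toFinset, List.mem_filter, List.mem_range, mem_filter,
    mem_range, decide_eq_true_eq, notMem_empty, not_false_eq_true, true_and, hf_apply, ← e]
  simp

theorem dimI_eq (hb : Bornology.IsBounded {x : Fin d → ℝ | ∀ i, ∑ j, (A i j : ℝ) * x j ≤ b i}) :
    dimI (mkInp A b V) = d + 1 := by
  rcases m with _ | m
  · rcases d with _ | d
    · rfl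
    · exfalso
      obtain ⟨C, hC⟩ := hb.exists_norm_le
      have := hC (fun _ => C + 1) fun i => i.elim0
      have h2 := norm_le_pi_norm (fun _ : Fin (d + 1) => C + 1) 0
      have h3 := le_abs_self (C + 1)
      rw [Real.norm_eq_abs] at h2
      linarith
  · simp [dimI, mkInp, List.ofFn_succ]

/-- The promise, in terms of the homogenisation. -/
def Prom (a : Inp) : Prop :=
  (∃ p, NN (hf (dimI a) (rowsI a)) ∅ p ∧ 0 < hf (dimI a) (rowsI a) 0 p) →
    (∀ z, (∀ i, hf (dimI a) (rowsI a) i z = 0) → z = 0) ∧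
      ∀ S ∈ famI a, Circ (hf (dimI a) (rowsI a)) ∅ S.toFinset

/-- The answer, in terms of the homogenisation. -/
def Ans (a : Inp) : Prop :=
  (∃ p, NN (hf (dimI a) (rowsI a)) ∅ p ∧ 0 < hf (dimI a) (rowsI a) 0 p) ∧
    ¬ Comp (hf (dimI a) (rowsI a)) ∅ (fam (famI a))

theorem prom_ans (hb : Bornology.IsBounded {x : Fin d → ℝ | ∀ i, ∑ j, (A i j : ℝ) * x j ≤ b i})
    (hV : ∀ k, (fun j => (V k j : ℝ)) ∈
      {x : Fin d → ℝ | ∀ i, ∑ j, (A i j : ℝ) * x j ≤ b i}.extremePoints ℝ) :
    Prom (mkInp A b V) ∧ (Ans (mkInp A b V) ↔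
      ∃ x ∈ {x : Fin d → ℝ | ∀ i, ∑ j, (A i j : ℝ) * x j ≤ b i}.extremePoints ℝ,
        ∀ k, x ≠ fun j => (V k j : ℝ)) := by
  have hd := dimI_eq A b V hb
  rw [← Pl_eq A b V] at hb hV ⊢
  have h0 := hf_rowsI_zero d (mkInp A b V)
  have hM := hf_zero (d + 1) (rowsI (mkInp A b V))
  have e : ∀ S, S ∈ famI (mkInp A b V) ↔
      ∃ k, suppI (d + 1) (rowsI (mkInp A b V)) (List.ofFn (V k)) = S := by
    intro S
    rw [famI, hd]
    simp [mkInp, List.mem_ofFn]
  unfold Prom Ans
  rw [hd, ← nonempty_iff h0]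
  refine ⟨fun hne => ⟨pointed h0 hb hne, fun S hS => ?_⟩, ?_⟩
  · obtain ⟨k, rfl⟩ := (e S).1 hS
    rw [suppI_eq]
    exact ⟨_, wit_of_extreme hM h0 (hV k)⟩
  · have e' : fam (famI (mkInp A b V)) = {R | ∃ x ∈ Set.range fun k j => (V k j : ℝ),
        supp (hf (d + 1) (rowsI (mkInp A b V))) (rowsI (mkInp A b V)).length ∅ (lift 1 x) = R} := by
      ext R
      simp only [fam, e, Set.mem_setOf_eq, Set.mem_range, exists_exists_eq_and, suppI_eq]
    constructor
    · rintro ⟨hne, hc⟩
      rw [e', comp_link hM h0 hb hne (Set.range_subset_iff.2 hV), not_not] at hc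
      obtain ⟨x, h1, h2⟩ := hc
      exact ⟨x, h1, fun k hk => h2 ⟨k, hk.symm⟩⟩
    · rintro ⟨x, h1, h2⟩
      refine ⟨⟨x, h1.1⟩, ?_⟩
      rw [e', comp_link hM h0 hb ⟨x, h1.1⟩ (Set.range_subset_iff.2 hV), not_not]
      exact ⟨x, h1, fun ⟨k, hk⟩ => h2 k hk.symm⟩

theorem enc_inp (a : Inp) : enc a = N487b59b3.bitEncode a := rfl

section generic
variable {α β : Type} [Enc α] [Enc β]

theorem pt_iter {f : α → β → β} {N : α → ℕ} {init : α → β}
    (hf : PT fun p : α × β => f p.1 p.2) (hN : PT N) (hi : PT init)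
    (b : ℕ → ℕ) (hb : IsPoly b) (h : ∀ a, ∀ i ≤ N a, sz ((f a)^[i] (init a)) ≤ b (sz a)) :
    PT fun a => (f a)^[N a] (init a) := by
  refine (PT.foldl_inv (f := fun a (s : β) (_ : Unit) => f a s) (init := init)
    (l := fun a => List.replicate (N a) ())
    (hf.comp (g := fun p : α × β × Unit => (p.1, p.2.1)) (by fun_prop)) hi (by fun_prop) b hb
    fun a i => ?_).of_eq fun a => iter_units _ _ _
  rw [List.take_replicate, iter_units]
  exact h a _ (min_le_right _ _)

theorem least_spec (p : ℕ → Prop) [DecidablePred p] (mono : ∀ a b, a ≤ b → p a → p b) (d : ℕ)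
    (hd : p d) : p ((List.range d).countP fun e => decide (¬ p e)) ∧
      ∀ e, p e → ((List.range d).countP fun e => decide (¬ p e)) ≤ e := by
  have ex : ∃ e, p e := ⟨d, hd⟩
  have e1 : ((List.range d).countP fun e => decide (¬ p e)) = Nat.find ex := by
    obtain ⟨r, hr⟩ := Nat.exists_eq_add_of_le (Nat.find_min' ex hd)
    rw [hr, List.range_add, List.countP_append, List.countP_eq_length.2, List.countP_eq_zero.2]
    · simp
    · intro a ha
      obtain ⟨c, -, rfl⟩ := List.mem_map.1 ha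
      simpa using mono _ _ (Nat.le_add_right _ c) (Nat.find_spec ex)
    · intro a ha
      simpa using Nat.find_min ex (List.mem_range.1 ha)
  rw [e1]
  exact ⟨Nat.find_spec ex, fun e he => Nat.find_min' ex he⟩

end generic

end Pool.Agent.Work.MP_0bf9cb_lc
end

-- merged part: Pool.Agent.Work.MP_0bf9cb_lc.Main1
section
/-!
The first algorithm on padded inputs.
-/

namespace Pool.Agent.Work.MP_0bf9cb_lc

open Pool.Agent.Lib.Poly Finset

/-- `T` is the maximal support of the cone. -/
def IsT (T : Inp → List ℕ) : Prop := ∀ a,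
  (∀ y, NN (hf (dimI a) (rowsI a)) ∅ y → ∀ i, hf (dimI a) (rowsI a) i y ≠ 0 → i ∈ T a) ∧
    ∃ p, NN (hf (dimI a) (rowsI a)) ∅ p ∧ ∀ i ∈ T a, 0 < hf (dimI a) (rowsI a) i p

theorem exists_T : ∃ T : Inp → List ℕ, PT T ∧ IsT T := by
  obtain ⟨t, ht, h⟩ := exists_low
  have h1 := pt_dimI
  have h2 := pt_rowsI
  have h3 := PT.isPoly ht
  exact ⟨fun a => maxSupp (dimI a) (rowsI a) (t (sz (dimI a, rowsI a))), by fun_prop,
    fun a => maxSupp_spec (h _ _)⟩

theorem IsT.zero_iff {T : Inp → List ℕ} (hT : IsT T) (a : Inp) : 0 ∈ T a ↔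
    ∃ p, NN (hf (dimI a) (rowsI a)) ∅ p ∧ 0 < hf (dimI a) (rowsI a) 0 p :=
  ⟨fun h => let ⟨p, h1, h2⟩ := (hT a).2; ⟨p, h1, h2 0 h⟩,
    fun ⟨p, h1, h2⟩ => (hT a).1 p h1 0 h2.ne'⟩

def run1 (T : Inp → List ℕ) (e : Inp → ℕ) (a : Inp) (j : ℕ) : List St × Bool :=
  (round (dimI a) (rowsI a) (e a + 1) (T a) (tups (sz a + 1) (e a + 2)))^[j]
    ([(0, [], famI a)], true)

variable {T : Inp → List ℕ} {e : Inp → ℕ}

theorem par1 (hT : IsT T) (a : Inp) : Par (dimI a) (rowsI a) (e a + 1) (sz a) (sz a + 1) (T a)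
    (tups (sz a + 1) (e a + 2)) := by
  refine ⟨(hT a).1, (hT a).2, fun τ h1 h2 => mem_tups.2 ⟨h1, h2⟩, by omega, ?_⟩
  have h1 := (length_le_sz a.1).trans (sz_fst_le a)
  rw [length_rowsI]; omega

theorem length_famI_le (a : Inp) : (famI a).length ≤ sz a := by
  rw [length_famI]
  exact (length_le_sz _).trans ((sz_snd_le _).trans (sz_snd_le _))

theorem good1 (hT : IsT T) {a : Inp} (ha : Prom a) (h0 : 0 ∈ T a) :
    Good (dimI a) (rowsI a) (e a + 1) (sz a) ((sz a + 1) * (2 * (sz a + 1) + 1)) 0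
      (0, [], famI a) := by
  obtain ⟨h1, h2⟩ := ha ((hT.zero_iff a).1 h0)
  exact ⟨h2, sz_famI a, length_famI_le a, by simp, by simpa using Pot.zero h1, le_rfl,
    0, fun i _ => by simp, by simp⟩

theorem run1_spec (hT : IsT T) {a : Inp} (ha : Prom a) (h0 : 0 ∈ T a) :
    (run1 T e a (dimI a + 1)).2 = true ↔ Comp (hf (dimI a) (rowsI a)) ∅ (fam (famI a)) :=
  (rounds_final (par1 hT a) (good1 hT ha h0)).symm

/-- The condition under which the first algorithm is fast. -/
def Cond1 (a : Inp) (e : ℕ) : Prop := dimI a ≤ e + 1 ∨ (rowsI a).length ≤ dimI a + e ^ 2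

abbrev Pad (e : Inp → ℕ) := {p : Inp × ℕ // Prom p.1 ∧ p.2 = pad e p.1}

theorem pad_le (p : Pad e) : pad e p.1.1 ≤ sz p ∧ sz p.1.1 ≤ sz p := by
  obtain ⟨⟨a, w⟩, h1, h2⟩ := p
  show _ ≤ sz (a, w) ∧ _ ≤ sz (a, w)
  simp only at h2
  rw [sz_pair, sz_nat]
  simp only
  omega

theorem pt_inp : PT fun p : Pad e => p.1.1 := (pt_val _).fst

theorem pt_run1 (hT : IsT T) (hT' : PT T) (he : PT e) {go : Inp → Bool} (hgo : PT go)
    (h : ∀ a, go a = true → 0 ∈ T a ∧ Cond1 a (e a)) {α : Type} [Enc α] {inp : α → Inp}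
    (h4 : PT inp) (hp : ∀ x, Prom (inp x) ∧ pad e (inp x) ≤ sz x) :
    PT fun p => run1 T e (inp p) (bif go (inp p) then dimI (inp p) + 1 else 0) := by
  have h1 := pt_dimI
  have h2 := pt_rowsI
  have h3 := pt_famI
  have h5 : PT fun p => tups (sz (inp p) + 1) (e (inp p) + 2) :=
    pt_tups (by fun_prop) (by fun_prop) (fun n => n * n) (by fun_prop) fun p => by
      have a1 := (hp p).2
      have a3 := le_pad e (inp p)
      rw [pow_succ]
      exact Nat.mul_le_mul a1 (by omega)
  refine pt_iter (f := fun p => round (dimI (inp p)) (rowsI (inp p)) (e (inp p) + 1) (T (inp p))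
    (tups (sz (inp p) + 1) (e (inp p) + 2))) (pt_round (by fun_prop) (by fun_prop) (by fun_prop)
      (by fun_prop) (h5.comp PT.fst') (by fun_prop)) (by fun_prop) (by fun_prop)
    (fun n => 2 * ((n + 1) * (2 * (2 * (n + 1) + 1 + (2 * ((n + 1) * ((n + 1) * (2 * (n + 1) + 1)))
      + 1 + n * (2 * ((n + 1) * (2 * (n + 1) + 1)) + 1))) + 1)) + 2) (by fun_prop) fun p i hi => ?_
  have a1 := (hp p).2
  have a2 : sz (inp p) ≤ sz p := by have := le_pad e (inp p); omega
  have a3 := dimI_le (inp p)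
  cases hg : go (inp p)
  · rw [hg] at hi
    obtain rfl : i = 0 := by simpa using hi
    have b1 := (sz_list_le _ _ (sz_famI (inp p))).trans
      (Nat.mul_le_mul_right _ (length_famI_le (inp p)))
    have b2 : sz (inp p) * (2 * ((sz (inp p) + 1) * (2 * (sz (inp p) + 1) + 1)) + 1) ≤
        sz p * (2 * ((sz p + 1) * (2 * (sz p + 1) + 1)) + 1) := by gcongr
    simp only [Function.iterate_zero, id_eq, sz_pair, sz_cons, sz_nat, sz_nil, sz_bool]
    rw [Nat.add_mul (sz p) 1]
    omega
  · obtain ⟨b1, b2⟩ := h _ hg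
    refine (rounds_size (par1 hT _) (good1 hT (hp p).1 b1) (E := e (inp p) + 1)
      (fun b c1 c2 => ?_) i).trans ?_
    · rcases b2 with b2 | b2
      · omega
      · by_contra hlt
        have : (e (inp p) + 1) * (e (inp p) + 1) ≤ b * (e (inp p) + 1) :=
          Nat.mul_le_mul_right _ (by omega)
        linarith only [c1, b2, this]
    · have : (sz (inp p) + 1) ^ (e (inp p) + 1) ≤ sz p + 1 :=
        (Nat.pow_le_pow_left (by omega) _).trans (a1.trans (by omega))
      have a4 : dimI (inp p) ≤ sz p + 1 := by omega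
      gcongr

end Pool.Agent.Work.MP_0bf9cb_lc
end

-- merged part: Pool.Agent.Work.MP_0bf9cb_lc.Pot3
section
/-!
Heavy elements, the threshold, and the potential of the second algorithm.
-/

namespace Pool.Agent.Work.MP_0bf9cb_lc

open Pool.Agent.Lib.Poly

def mx (M : ℕ) (Y : List (List ℕ)) : ℕ := ((List.range M).map (deg Y)).foldl max 0

def pw (n : ℕ) : ℕ := 2 ^ Nat.log 2 n

def hv (M : ℕ) (Y : List (List ℕ)) : List ℕ :=
  (List.range M).filter fun i => decide (pw (mx M Y) ≤ deg Y i)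

def upper (H : List ℕ) (Y : List (List ℕ)) (c : ℕ) : List (List ℕ) :=
  Y.filter fun S => decide (c ≤ cov H S)

def thr (M L : ℕ) (H : List ℕ) (Y : List (List ℕ)) : ℕ :=
  ((List.range (M + 1)).filter fun c =>
    decide ((H.map (deg Y)).sum ≤ c * (upper H Y c).length * L)).headD 0

def mu (M : ℕ) (Y : List (List ℕ)) : ℕ :=
  ((hv M Y).map (deg Y)).sum * (2 * M) ^ Nat.log 2 (mx M Y)

theorem foldl_max_spec (l : List ℕ) (a : ℕ) : a ≤ l.foldl max a ∧ (∀ x ∈ l, x ≤ l.foldl max a) ∧
    (l.foldl max a = a ∨ l.foldl max a ∈ l) := by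
  induction l generalizing a with
  | nil => simp
  | cons b l ih =>
    obtain ⟨h1, h2, h3⟩ := ih (max a b)
    rw [List.foldl_cons]
    refine ⟨by omega, fun x hx => ?_, ?_⟩
    · rcases List.mem_cons.1 hx with rfl | hx
      · omega
      · exact h2 x hx
    · rcases h3 with h3 | h3
      · rw [h3, List.mem_cons]; omega
      · exact Or.inr (List.mem_cons_of_mem _ h3)

variable {M : ℕ} {Y Y' : List (List ℕ)}

theorem deg_le_mx {i : ℕ} (hi : i < M) : deg Y i ≤ mx M Y :=
  (foldl_max_spec _ 0).2.1 _ (List.mem_map.2 ⟨i, List.mem_range.2 hi, rfl⟩)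

theorem exists_mx (h : mx M Y ≠ 0) : ∃ i < M, deg Y i = mx M Y := by
  obtain ⟨i, h1, h2⟩ := List.mem_map.1 ((foldl_max_spec _ 0).2.2.resolve_left h)
  exact ⟨i, List.mem_range.1 h1, h2⟩

theorem mx_le (h : ∀ i, deg Y' i ≤ deg Y i) : mx M Y' ≤ mx M Y := by
  by_cases e : mx M Y' = 0
  · omega
  · obtain ⟨i, h1, h2⟩ := exists_mx e
    exact h2 ▸ (h i).trans (deg_le_mx h1)

theorem mx_le_length : mx M Y ≤ Y.length := by
  by_cases e : mx M Y = 0
  · omega
  · obtain ⟨i, -, h2⟩ := exists_mx e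
    exact h2 ▸ List.countP_le_length

theorem pw_pos (n : ℕ) : 0 < pw n := by unfold pw; positivity

theorem lt_pw (n : ℕ) : n < 2 * pw n := by
  have := Nat.lt_pow_succ_log_self (b := 2) (by omega) n
  rwa [pow_succ, mul_comm] at this

theorem mem_hv {i : ℕ} : i ∈ hv M Y ↔ i < M ∧ pw (mx M Y) ≤ deg Y i := by simp [hv]

theorem hv_pos (h : mx M Y ≠ 0) : 0 < (hv M Y).length := by
  obtain ⟨i, h1, h2⟩ := exists_mx h
  exact List.length_pos_of_mem (mem_hv.2 ⟨h1, (Nat.pow_log_le_self 2 h).trans h2.ge⟩)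

theorem hv_length : (hv M Y).length ≤ M := (List.length_filter_le _ _).trans (by simp)

theorem mass_ge : pw (mx M Y) * (hv M Y).length ≤ ((hv M Y).map (deg Y)).sum := by
  have := le_sum_of_forall (hv M Y) (deg Y) 1 (pw (mx M Y)) fun i hi => by
    simpa using (mem_hv.1 hi).2
  rwa [one_mul, mul_comm] at this

theorem mass_le : ((hv M Y).map (deg Y)).sum ≤ (hv M Y).length * (2 * pw (mx M Y)) := by
  simpa using sum_le_of_forall (hv M Y) (deg Y) 1 (2 * pw (mx M Y)) fun i hi => by
    have := deg_le_mx (Y := Y) (mem_hv.1 hi).1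
    have := lt_pw (mx M Y)
    omega

theorem mu_pos (h : mx M Y ≠ 0) : 0 < mu M Y := by
  have h1 := hv_pos h
  have h2 := hv_length (M := M) (Y := Y)
  exact Nat.mul_pos ((Nat.mul_pos (pw_pos _) h1).trans_le mass_ge) (Nat.pow_pos (by omega))

theorem mu_step {G : ℕ} (hG : 0 < G) (h0 : mx M Y ≠ 0) (h : ∀ i, deg Y' i ≤ deg Y i)
    (hp : (G + 1) * ((hv M Y).map (deg Y')).sum ≤ G * ((hv M Y).map (deg Y)).sum) :
    (G + 1) * mu M Y' ≤ G * mu M Y := by
  unfold mu
  rcases (Nat.log_mono_right (b := 2) (mx_le (M := M) h)).eq_or_lt with e | e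
  · have : ((hv M Y').map (deg Y')).sum ≤ ((hv M Y).map (deg Y')).sum := by
      refine List.Sublist.sum_le_sum (List.Sublist.map _ ?_) (fun _ _ => Nat.zero_le _)
      refine List.monotone_filter_right _ fun i hi => ?_
      simp only [pw, e, decide_eq_true_eq] at hi ⊢
      exact hi.trans (h i)
    rw [e, ← mul_assoc, ← mul_assoc]
    exact Nat.mul_le_mul_right _ ((Nat.mul_le_mul_left _ this).trans hp)
  · have a1 := (mass_le (M := M) (Y := Y')).trans (Nat.mul_le_mul_right _ hv_length)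
    have a2 := (Nat.mul_le_mul_left _ (hv_pos h0)).trans (mass_ge (M := M) (Y := Y))
    have a0 := (hv_pos h0).trans_le hv_length
    have a3 : 2 * pw (mx M Y') ≤ pw (mx M Y) := by
      rw [pw, pw, mul_comm, ← pow_succ]
      exact Nat.pow_le_pow_right (by omega) e
    have a4 : 2 * M * (2 * M) ^ Nat.log 2 (mx M Y') ≤ (2 * M) ^ Nat.log 2 (mx M Y) := by
      rw [mul_comm, ← pow_succ]
      exact Nat.pow_le_pow_right (by omega) e
    have a5 := a1.trans (Nat.mul_le_mul_left M (a3.trans (by simpa using a2)))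
    have a6 := Nat.mul_le_mul_right ((2 * M) ^ Nat.log 2 (mx M Y')) a5
    have a7 := Nat.mul_le_mul_left ((hv M Y).map (deg Y)).sum a4
    generalize ((hv M Y').map (deg Y')).sum * (2 * M) ^ Nat.log 2 (mx M Y') = u at *
    generalize ((hv M Y).map (deg Y)).sum * (2 * M) ^ Nat.log 2 (mx M Y) = v at *
    have a8 : 2 * u ≤ v := by linarith only [a6, a7]
    nlinarith only [a6, a7, hG]

theorem mu_lt {L : ℕ} (h1 : M < 2 ^ L) (h2 : Y.length < 2 ^ L) : mu M Y < 2 ^ (L * L + 3 * L) := by
  have a1 : ((hv M Y).map (deg Y)).sum ≤ M * Y.length := by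
    have := sum_le_of_forall (hv M Y) (deg Y) 1 Y.length fun i _ => by
      simpa [deg] using List.countP_le_length
    rw [one_mul] at this
    exact this.trans (Nat.mul_le_mul_right _ hv_length)
  have a2 : Nat.log 2 (mx M Y) ≤ L := by
    have := Nat.log_mono_right (b := 2) ((mx_le_length (M := M)).trans h2.le)
    rwa [Nat.log_pow (by omega)] at this
  have a3 : (2 * M) ^ Nat.log 2 (mx M Y) ≤ (2 ^ (L + 1)) ^ L :=
    (Nat.pow_le_pow_left (by rw [pow_succ]; omega) _).trans
      (Nat.pow_le_pow_right (by positivity) a2)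
  have a4 : M * Y.length < 2 ^ L * 2 ^ L := Nat.mul_lt_mul'' h1 h2
  calc mu M Y ≤ M * Y.length * (2 ^ (L + 1)) ^ L := Nat.mul_le_mul a1 a3
    _ < 2 ^ L * 2 ^ L * (2 ^ (L + 1)) ^ L := Nat.mul_lt_mul_of_pos_right a4 (by positivity)
    _ = _ := by rw [← pow_mul, ← pow_add, ← pow_add]; congr 1; ring

theorem dyadic (v L : ℕ) (h : v < 2 ^ L) :
    v ≤ ∑ j ∈ Finset.range L, if 2 ^ j ≤ v then 2 ^ j else 0 := by
  suffices ∀ K, min v (2 ^ K - 1) ≤ ∑ j ∈ Finset.range K, if 2 ^ j ≤ v then 2 ^ j else 0 by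
    have := this L
    omega
  intro K
  induction K with
  | zero => simp
  | succ K ih =>
    rw [Finset.sum_range_succ, pow_succ]
    split_ifs <;> omega

theorem thr_spec {L : ℕ} {H : List ℕ} (h1 : M < 2 ^ L) (hH : H.length ≤ M) (hL : 0 < L) :
    (H.map (deg Y)).sum ≤ thr M L H Y * (upper H Y (thr M L H Y)).length * L := by
  have hc : ∀ S, cov H S ≤ M := fun S => List.countP_le_length.trans hH
  have a1 : (H.map (deg Y)).sum ≤ ∑ j ∈ Finset.range L, 2 ^ j * (upper H Y (2 ^ j)).length := by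
    rw [← sum_cov]
    induction Y with
    | nil => simp
    | cons S Y ih =>
      rw [List.map_cons, List.sum_cons]
      refine (Nat.add_le_add (dyadic _ L ((hc S).trans_lt h1)) ih).trans ?_
      rw [← Finset.sum_add_distrib]
      refine Finset.sum_le_sum fun j _ => ?_
      simp only [upper, List.filter_cons, decide_eq_true_eq]
      split_ifs <;> simp [Nat.mul_add, add_comm]
  have a2 : ∃ c ∈ List.range (M + 1), (H.map (deg Y)).sum ≤ c * (upper H Y c).length * L := by
    obtain ⟨j, -, hj⟩ := Finset.exists_max_image (Finset.range L)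
      (fun j => 2 ^ j * (upper H Y (2 ^ j)).length) ⟨0, by simpa using hL⟩
    have a3 := a1.trans (Finset.sum_le_card_nsmul _ _ _ hj)
    rw [Finset.card_range, smul_eq_mul, mul_comm] at a3
    by_cases e : 2 ^ j ≤ M
    · exact ⟨_, List.mem_range.2 (by omega), a3⟩
    · have : upper H Y (2 ^ j) = [] := List.filter_eq_nil_iff.2 fun S _ => by
        have := hc S
        simp only [decide_eq_true_eq]; omega
      rw [this] at a3
      exact ⟨0, by simp, by simpa using a3⟩
  obtain ⟨c, b1, b2⟩ := a2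
  have : thr M L H Y ∈ (List.range (M + 1)).filter fun c =>
      decide ((H.map (deg Y)).sum ≤ c * (upper H Y c).length * L) :=
    head_mem fun e => by
      rw [List.isEmpty_iff, List.filter_eq_nil_iff] at e
      exact e c b1 (by simpa using b2)
  simpa using (List.mem_filter.1 this).2

theorem del_mass (H : List ℕ) (Y : List (List ℕ)) (c i : ℕ) :
    (H.map (deg (Y.filter fun S => decide (i ∉ S)))).sum + c * deg (upper H Y c) i ≤
      (H.map (deg Y)).sum := by
  rw [← sum_cov, ← sum_cov]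
  induction Y with
  | nil => simp [upper, deg]
  | cons S Y ih =>
    simp only [upper, deg, List.filter_cons] at ih ⊢
    by_cases h1 : i ∈ S <;> by_cases h2 : c ≤ cov H S <;>
      simp [h1, h2, Nat.mul_add] at ih ⊢ <;> omega

theorem con_mass {H U : List ℕ} {A : ℕ} (h1 : ∀ i ∈ H, A ≤ deg Y i)
    (h2 : ∀ i, deg Y' i ≤ if i ∈ U then 0 else deg Y i) :
    (H.map (deg Y')).sum + A * cov H U ≤ (H.map (deg Y)).sum := by
  induction H with
  | nil => simp [cov]
  | cons a H ih =>
    have a1 := ih fun i hi => h1 i (List.mem_cons_of_mem _ hi)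
    have a2 := h1 a List.mem_cons_self
    have a3 := h2 a
    simp only [cov, List.countP_cons, List.map_cons, List.sum_cons] at a1 ⊢
    by_cases e : a ∈ U <;> simp [e, Nat.mul_add] at a3 ⊢ <;> omega

theorem deg_childY (D : ℕ) (rows : List (List ℚ)) (s : St) (U : List ℕ) (i : ℕ) :
    deg (childY D rows s U) i ≤ if i ∈ U then 0 else deg s.2.2 i := by
  refine ((List.filter_sublist).countP_le).trans ?_
  rw [List.countP_map]
  split_ifs with h
  · rw [List.countP_eq_zero.2]
    intro S _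
    simp [h]
  · refine List.countP_mono_left fun S _ hS => ?_
    simp at hS ⊢
    exact hS.1

theorem bernoulli (G K : ℕ) (hG : 0 < G) : 2 ^ K * G ^ (G * K) ≤ (G + 1) ^ (G * K) := by
  have h : ∀ n, G ^ n * (G + n) ≤ G * (G + 1) ^ n := by
    intro n
    induction n with
    | zero => simp
    | succ n ih =>
      have := Nat.mul_le_mul_right (G + 1) ih
      rw [pow_succ, pow_succ]
      linarith only [this, Nat.zero_le (G ^ n * n)]
  have h2 : 2 * G ^ G ≤ (G + 1) ^ G := Nat.le_of_mul_le_mul_left (by have := h G; linarith only [this]) hG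
  rw [pow_mul, pow_mul, ← mul_pow]
  exact Nat.pow_le_pow_left h2 _

section pt
variable {α : Type} [Enc α] {fM fL fc fg : α → ℕ} {fY : α → List (List ℕ)} {fH : α → List ℕ}

theorem sz_bin (n : ℕ) : sz (Bin.mk n) = Nat.size n :=
  le_antisymm (Bin.sz_le (Nat.lt_size_self n)) (Nat.size_le.2 (Bin.lt_two_pow ⟨n⟩))

@[fun_prop] theorem pt_size (h : PT fM) : PT fun x => Nat.size (fM x) :=
  (PT.toBin h).toSz.of_eq fun _ => sz_bin _

theorem log_eq_size (n : ℕ) : Nat.log 2 n = Nat.size n - 1 := by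
  by_cases h : n = 0
  · simp [h]
  · have h1 := Nat.size_le.2 (Nat.lt_pow_succ_log_self (b := 2) (by omega) n)
    have h2 := Nat.lt_size.2 (Nat.pow_log_le_self 2 h)
    omega

@[fun_prop] theorem pt_log (h : PT fM) : PT fun x => Nat.log 2 (fM x) :=
  PT.of_eq (f := fun x => Nat.size (fM x) - 1) (by fun_prop) fun _ => (log_eq_size _).symm

@[fun_prop] theorem pt_pw (h : PT fM) : PT fun x => pw (fM x) := by
  have key : ∀ i, (fun k : ℕ => 2 * k)^[i] 1 = 2 ^ i := by
    intro i
    induction i with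
    | zero => rfl
    | succ i ih => rw [Function.iterate_succ_apply', ih, pow_succ, mul_comm]
  have : PT pw := by
    refine (PT.iterate (f := fun k : ℕ => 2 * k) (N := fun n : ℕ => Nat.log 2 n)
      (init := fun _ => 1) (by fun_prop) (by fun_prop) (by fun_prop) (fun n => n + 1)
      (by fun_prop) fun n i hi => ?_).of_eq fun n => key _
    rw [key, sz_nat, sz_nat]
    by_cases e : n = 0
    · subst e
      obtain rfl : i = 0 := by simpa using hi
      simp
    · exact (Nat.pow_le_pow_right (by omega) hi).trans ((Nat.pow_log_le_self 2 e).trans (by omega))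
  exact this.comp h

@[fun_prop] theorem pt_mx (h1 : PT fM) (h2 : PT fY) : PT fun x => mx (fM x) (fY x) :=
  PT.foldl (f := fun _ (a b : ℕ) => max a b) (by fun_prop) (by fun_prop) (by fun_prop)
    (fun n => n) (by fun_prop) fun a c x => by simp only [sz_nat]; omega

@[fun_prop] theorem pt_hv (h1 : PT fM) (h2 : PT fY) : PT fun x => hv (fM x) (fY x) := by
  unfold hv; fun_prop

@[fun_prop] theorem pt_upper (h1 : PT fH) (h2 : PT fY) (h3 : PT fc) :
    PT fun x => upper (fH x) (fY x) (fc x) := by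
  unfold upper; fun_prop

@[fun_prop] theorem pt_thr (h0 : PT fM) (h3 : PT fL) (h1 : PT fH) (h2 : PT fY) :
    PT fun x => thr (fM x) (fL x) (fH x) (fY x) := by
  unfold thr; fun_prop

@[fun_prop] theorem pt_groups (h1 : PT fH) (h3 : PT fc) (h4 : PT fg) (h2 : PT fY) :
    PT fun x => groups (fH x) (fc x) (fg x) (fY x) := by
  obtain ⟨s, hs, hs'⟩ := h2.size
  refine (pt_iter (f := fun x => gstep (fH x) (fc x) (fg x)) (init := fun x => ([], [], fY x))
    (by fun_prop) (by fun_prop) (by fun_prop) (fun n => 2 * s n + 2) (by fun_prop)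
    fun a i _ => ?_).fst
  have a1 := gstep_sz (fH a) (fc a) (fg a) (fY a) i
  have a2 := hs' a
  generalize (gstep (fH a) (fc a) (fg a))^[i] ([], [], fY a) = p at a1
  obtain ⟨Gs, U, r⟩ := p
  simp only [sz_pair] at a1 ⊢
  omega

end pt

end Pool.Agent.Work.MP_0bf9cb_lc
end

-- merged part: Pool.Agent.Work.MP_0bf9cb_lc.Algo3
section
/-!
The second algorithm: delete frequent elements, contract groups of known circuits.
-/

namespace Pool.Agent.Work.MP_0bf9cb_lc

open Pool.Agent.Lib.Poly Finset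

/-- Deleted set, contracted set, known circuits. -/
abbrev St3 := List ℕ × List ℕ × List (List ℕ)

def wset (M L : ℕ) (Y : List (List ℕ)) : List (List ℕ) := upper (hv M Y) Y (thr M L (hv M Y) Y)

def grp (M L x : ℕ) (Y : List (List ℕ)) : List (List ℕ) :=
  groups (hv M Y) (thr M L (hv M Y) Y) (8 * L * x) (wset M L Y)

def freq (M L x : ℕ) (Y : List (List ℕ)) : List ℕ :=
  (List.range M).filter fun i => decide ((wset M L Y).length ≤ x * deg (wset M L Y) i)

def kids3 (D : ℕ) (rows : List (List ℚ)) (L x : ℕ) (s : St3) : List St3 :=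
  if s.2.2.isEmpty then [] else
    ((freq rows.length L x s.2.2).map fun i =>
      (i :: s.1, s.2.1, s.2.2.filter fun S => decide (i ∉ S))) ++
    (grp rows.length L x s.2.2).map fun U => (s.1, s.2.1 ++ U, childY D rows (0, s.2) U)

def rows2 (rows : List (List ℚ)) (Z X : List ℕ) : List (List ℚ) :=
  ((List.range rows.length).map fun i => if i ∈ X then [] else rows.getD i []) ++
    (List.range rows.length).map fun i =>
      if i ∈ Z ∧ i ∉ X then (rows.getD i []).map fun q => -q else []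

def crow (rows : List (List ℚ)) (X Sg τ : List ℕ) : List (List ℚ) :=
  ((List.range rows.length).filter fun j => decide ((j ∉ X ∧ j ∉ Sg) ∨ j ∈ τ)).map
    fun j => rows.getD j []

def cand3 (D : ℕ) (rows : List (List ℚ)) (X : List ℕ) (st : List Piv) : List ℕ :=
  (List.range rows.length).filter fun i => decide (i ∉ X) &&
    (List.range D).any fun c => decide (resC st (rows.getD i []) c ≠ 0)

def chk (D : ℕ) (rows : List (List ℚ)) (s : St3) (R : List ℕ) : Bool :=
  !(circT D rows s.2.1 R && R.all fun i => decide (i ∉ s.1)) || known s.2.2 R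

def loc3 (D : ℕ) (rows : List (List ℚ)) (Tup : List (List ℕ)) (s : St3) (U : List ℕ)
    (Y' : List (List ℕ)) : Bool :=
  Tup.all fun τ => Tup.all fun τ' => chk D rows s (cand3 D rows s.2.1
    (rref D (crow rows s.2.1 (U ++ τ.flatMap fun a => Y'.getD a []) τ')))

def leaf (tl : ℕ → ℕ) (D : ℕ) (R : List (List ℚ)) : Bool := (maxSupp D R (tl (sz (D, R)))).isEmpty

def ok3 (tl : ℕ → ℕ) (D : ℕ) (rows : List (List ℚ)) (L x : ℕ) (Tup : List (List ℕ)) (s : St3) :
    Bool :=
  if s.2.2.isEmpty then leaf tl D (rows2 rows s.1 s.2.1)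
  else (grp rows.length L x s.2.2).all fun U => loc3 D rows Tup s U (childY D rows (0, s.2) U)

def Comp3 (D : ℕ) (rows : List (List ℚ)) (s : St3) : Prop :=
  CompZ (hf D rows) s.2.1.toFinset s.1.toFinset (fam s.2.2)

variable {D : ℕ} {rows : List (List ℚ)} {L x n B K j t N0 : ℕ} {tl : ℕ → ℕ}
  {Tup : List (List ℕ)}

theorem dot_nil (y : Fin D → ℝ) : dot D [] y = 0 := by simp [dot, ent]

theorem dot_neg (v : List ℚ) (y : Fin D → ℝ) : dot D (v.map fun q => -q) y = -dot D v y := by
  rw [dot, dot, ← sum_neg_distrib]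
  refine sum_congr rfl fun c _ => ?_
  have : ent (v.map fun q => -q) c = -ent v c := by
    simp only [ent, List.getD_eq_getElem?_getD, List.getElem?_map]
    cases v[c.1]? <;> simp
  rw [this]; push_cast; ring

theorem hf_rows2_lo (Z X : List ℕ) {i : ℕ} (hi : i < rows.length) (y : Fin D → ℝ) :
    hf D (rows2 rows Z X) i y = if i ∈ X then 0 else hf D rows i y := by
  rw [hf_apply, rows2, List.getD_append _ _ _ _ (by simpa using hi),
    List.getD_eq_getElem _ _ (by simpa using hi)]
  simp only [List.getElem_map, List.getElem_range]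
  split_ifs
  · exact dot_nil y
  · rfl

theorem hf_rows2_hi (Z X : List ℕ) (i : ℕ) (y : Fin D → ℝ) :
    hf D (rows2 rows Z X) (rows.length + i) y =
      if i ∈ Z ∧ i ∉ X then -hf D rows i y else 0 := by
  by_cases hi : i < rows.length
  · rw [hf_apply, rows2, List.getD_append_right _ _ _ _ (by simp),
      List.getD_eq_getElem _ _ (by simpa using hi)]
    simp only [List.getElem_map, List.getElem_range, List.length_map, List.length_range,
      Nat.add_sub_cancel_left]
    split_ifs
    · exact dot_neg _ y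
    · exact dot_nil y
  · rw [hf_zero _ _ _ (by simp [rows2]; omega), hf_zero _ _ _ (not_lt.1 hi)]; simp

theorem leaf_iff (htl : ∀ R, Low D R (tl (sz (D, R)))) (Z X : List ℕ) :
    leaf tl D (rows2 rows Z X) = true ↔ CompZ (hf D rows) X.toFinset Z.toFinset (fam []) := by
  obtain ⟨h1, p, h2, h3⟩ := maxSupp_spec (htl (rows2 rows Z X))
  have hM := hf_zero D rows
  rw [leaf, List.isEmpty_iff]
  generalize maxSupp D (rows2 rows Z X) (tl (sz (D, rows2 rows Z X))) = T at h1 h3
  constructor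
  · rintro rfl R ⟨y, hy⟩ hZ
    exfalso
    obtain ⟨i, hi⟩ := hy.ne
    have hiM := mem_range.1 (Circ.subset_range hM ⟨y, hy⟩ hi)
    refine List.not_mem_nil (h1 y (fun k _ => ?_) i ?_)
    · by_cases hk : k < rows.length
      · rw [hf_rows2_lo Z X hk]
        split_ifs with e
        · exact le_rfl
        · exact hy.nn k (by simpa using e)
      · obtain ⟨k, rfl⟩ := Nat.exists_eq_add_of_le (not_lt.1 hk)
        rw [hf_rows2_hi]
        split_ifs with e
        · rw [hy.van k (by simpa using e.2) fun hr => hZ k hr (by simpa using e.1)]; simp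
        · exact le_rfl
    · rw [hf_rows2_lo Z X hiM, if_neg (by simpa using hy.disj i hi)]
      exact (hy.pos i hi).ne'
  · intro hc
    have nn : NN (hf D rows) X.toFinset p := by
      intro i hi
      by_cases hk : i < rows.length
      · have := h2 i (by simp)
        rwa [hf_rows2_lo Z X hk, if_neg (by simpa using hi)] at this
      · rw [hM i (not_lt.1 hk)]; rfl
    have zz : ∀ i, i ∈ Z → i ∉ X → hf D rows i p = 0 := by
      intro i a b
      have := h2 (rows.length + i) (by simp)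
      rw [hf_rows2_hi, if_pos ⟨a, b⟩] at this
      exact le_antisymm (by linarith) (nn i (by simpa using b))
    refine List.eq_nil_iff_forall_not_mem.2 fun k hk => ?_
    have := h3 k hk
    by_cases hk : k < rows.length
    · rw [hf_rows2_lo Z X hk] at this
      split_ifs at this with e
      · exact lt_irrefl _ this
      · obtain ⟨R, a1, -, a2⟩ := exists_circ hM (i := k) (by simpa using e) p nn this.ne'
        obtain ⟨y, hy⟩ := id a1
        simpa [fam] using hc R a1 fun i hi hz =>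
          a2 i hi (zz i (by simpa using hz) (by simpa using hy.disj i hi))
    · obtain ⟨k, rfl⟩ := Nat.exists_eq_add_of_le (not_lt.1 hk)
      rw [hf_rows2_hi] at this
      split_ifs at this with e
      · rw [zz k e.1 e.2] at this; simp at this
      · exact lt_irrefl _ this

theorem cand3_eq {X Sg τ : List ℕ} {R : Finset ℕ} (hR : Circ (hf D rows) X.toFinset R)
    (h1 : ∀ i ∈ R, i ∈ Sg) (h2 : ∀ i ∈ τ, i < rows.length → i ∉ X ∧ i ∉ R)
    (h3 : ∀ z, (∀ j, (j ∉ X ∧ j ∉ Sg) ∨ j ∈ τ → hf D rows j z = 0) →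
      Van (hf D rows) X.toFinset R z) :
    (cand3 D rows X (rref D (crow rows X Sg τ))).toFinset = R := by
  have hM := hf_zero D rows
  obtain ⟨y, hy⟩ := id hR
  ext i
  simp only [cand3, List.mem_toFinset, List.mem_filter, List.mem_range, Bool.and_eq_true,
    decide_eq_true_eq, List.any_eq_true]
  constructor
  · rintro ⟨-, a1, c, a2, a3⟩
    obtain ⟨z, hz⟩ := exists_probe D (crow rows X Sg τ) a2
    by_contra hi
    have := h3 z (fun j hj => by
      by_cases hj' : j < rows.length
      · rw [hf_apply, hz, res_eq_zero _ a2]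
        · simp
        · exact List.mem_map.2 ⟨j, List.mem_filter.2 ⟨List.mem_range.2 hj', by simpa using hj⟩, rfl⟩
      · rw [hM j (not_lt.1 hj')]; rfl) i (by simpa using a1) hi
    rw [hf_apply, hz] at this
    exact a3 (by exact_mod_cast this)
  · intro hi
    refine ⟨mem_range.1 (hR.subset_range hM hi), by simpa using hy.disj i hi, ?_⟩
    by_contra hno
    push Not at hno
    have := hy.pos i hi
    rw [hf_apply, dot_eq_res (Z := crow rows X Sg τ), sum_eq_zero fun c _ => by
      rw [hno c c.2]; simp] at this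
    · exact lt_irrefl _ this
    · intro z hz
      obtain ⟨j, hj, rfl⟩ := List.mem_map.1 hz
      obtain ⟨b1, b2⟩ := List.mem_filter.1 hj
      rcases of_decide_eq_true b2 with b2 | b2
      · exact hy.van j (by simpa using b2.1) fun hr => b2.2 (h1 j hr)
      · have := h2 j b2 (List.mem_range.1 b1)
        exact hy.van j (by simpa using this.1) this.2

structure Par3 (D : ℕ) (rows : List (List ℚ)) (L x n t N0 : ℕ) (tl : ℕ → ℕ)
    (Tup : List (List ℕ)) : Prop where
  low : ∀ R, Low D R (tl (sz (D, R)))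
  tup : ∀ τ : List ℕ, τ.length = t + 1 → (∀ a ∈ τ, a ≤ N0) → τ ∈ Tup
  hn : n ≤ N0
  hM : rows.length ≤ N0
  hL : rows.length < 2 ^ L
  L0 : 0 < L
  x0 : 0 < x
  ht : 6 * D < (t + 1) * x

structure Good3 (D : ℕ) (rows : List (List ℚ)) (G n B K j : ℕ) (s : St3) : Prop where
  circ : ∀ S ∈ s.2.2, Circ (hf D rows) s.2.1.toFinset S.toFinset ∧ ∀ i ∈ S, i ∉ s.1
  szS : ∀ S ∈ s.2.2, sz S ≤ B
  len : s.2.2.length ≤ n
  szX : sz s.2.1 ≤ j * (n * (2 * B + 1))
  szZ : sz s.1 ≤ j * (2 * rows.length + 1)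
  pot : (G + 1) ^ j * mu rows.length s.2.2 < G ^ j * 2 ^ K
  le : j ≤ G * K

theorem Good3.mx_ne {G : ℕ} {s : St3} (hs : Good3 D rows G n B K j s)
    (h0 : ¬ s.2.2.isEmpty = true) : mx rows.length s.2.2 ≠ 0 := by
  obtain ⟨S, hS⟩ := List.exists_mem_of_ne_nil s.2.2 (by simpa using h0)
  obtain ⟨y, hy⟩ := (hs.circ S hS).1
  obtain ⟨i, hi⟩ := hy.ne
  have h1 := deg_le_mx (Y := s.2.2) (mem_range.1 (Circ.subset_range (hf_zero D rows) ⟨y, hy⟩ hi))
  have h2 : 0 < deg s.2.2 i := List.countP_pos_iff.2 ⟨S, hS, by simpa using hi⟩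
  omega

theorem Good3.grp_spec {G : ℕ} (hP : Par3 D rows L x n t N0 tl Tup) {s : St3}
    (hs : Good3 D rows G n B K j s) (h0 : ¬ s.2.2.isEmpty = true) :
    (∀ U ∈ grp rows.length L x s.2.2, (PosS (hf D rows) s.2.1.toFinset U.toFinset ∧
      ∀ i ∈ U, i ∉ s.2.1 ∧ i ∉ s.1) ∧
      (hv rows.length s.2.2).length ≤ 8 * L * x * cov (hv rows.length s.2.2) U) ∧
    (grp rows.length L x s.2.2).length ≤ (wset rows.length L s.2.2).length ∧
    ∀ β : List ℕ, β.length ≤ D →
      (∀ i ∈ β, x * deg (wset rows.length L s.2.2) i ≤ (wset rows.length L s.2.2).length) →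
      ∃ U ∈ grp rows.length L x s.2.2, cov β U ≤ t := by
  have hm := hs.mx_ne h0
  have sub : ∀ S ∈ wset rows.length L s.2.2, S ∈ s.2.2 := fun S h => (List.mem_filter.1 h).1
  obtain ⟨a1, a2, a3⟩ := groups_spec (H := hv rows.length s.2.2)
    (c := thr rows.length L (hv rows.length s.2.2) s.2.2) (x := x) (A := pw (mx rows.length s.2.2))
    (L := L) (W := wset rows.length L s.2.2) (Q := fun U =>
      PosS (hf D rows) s.2.1.toFinset U.toFinset ∧ ∀ i ∈ U, i ∉ s.2.1 ∧ i ∉ s.1)
    (hv_pos hm) ⟨by simpa using PosS.empty _, by simp⟩ (fun U S hU hS => by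
      obtain ⟨b1, b2⟩ := hs.circ S (sub S hS)
      refine ⟨?_, fun i hi => ?_⟩
      · rw [List.toFinset_append]
        exact hU.1.union (fun i hi => by simpa using (hU.2 i (by simpa using hi)).1) b1
      · rcases List.mem_append.1 hi with hi | hi
        · exact hU.2 i hi
        · obtain ⟨y, hy⟩ := b1
          exact ⟨by simpa using hy.disj i (by simpa using hi), b2 i hi⟩)
    (pw_pos _) hP.x0 (fun S hS => by simpa using (List.mem_filter.1 hS).2) (fun i => by
      by_cases hi : i < rows.length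
      · have b1 : deg (wset rows.length L s.2.2) i ≤ deg s.2.2 i := List.filter_sublist.countP_le
        have b2 := deg_le_mx (Y := s.2.2) hi
        have b3 := lt_pw (mx rows.length s.2.2)
        omega
      · rw [deg, List.countP_eq_zero.2]
        · omega
        · intro S hS h
          exact hi (mem_range.1 ((hs.circ S (sub S hS)).1.subset_range (hf_zero D rows)
            (by simpa using h))))
    (mass_ge.trans (thr_spec hP.hL hv_length hP.L0))
  exact ⟨a1, a2, fun β b1 b2 => a3 β D t b1 b2 hP.ht⟩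

theorem Good3.kids (hP : Par3 D rows L x n t N0 tl Tup) {s : St3}
    (hs : Good3 D rows (16 * L * x) n B K j s) :
    ∀ c ∈ kids3 D rows L x s, Good3 D rows (16 * L * x) n B K (j + 1) c := by
  intro c hc
  unfold kids3 at hc
  split_ifs at hc with h0
  · simp at hc
  have hm := hs.mx_ne h0
  have hG : 0 < 16 * L * x := Nat.mul_pos (Nat.mul_pos (by omega) hP.L0) hP.x0
  have hle : j + 1 ≤ 16 * L * x * K := by
    refine Nat.succ_le_of_lt (lt_of_le_of_ne hs.le fun e => ?_)
    have a1 := hs.pot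
    have a2 := bernoulli _ K hG
    have a3 := Nat.mul_le_mul_left ((16 * L * x + 1) ^ j) (mu_pos hm)
    rw [← e, mul_comm] at a2
    omega
  have pot : ∀ Y', (∀ i, deg Y' i ≤ deg s.2.2 i) → ∀ δ,
      ((hv rows.length s.2.2).map (deg Y')).sum + δ ≤
        ((hv rows.length s.2.2).map (deg s.2.2)).sum →
      ((hv rows.length s.2.2).map (deg s.2.2)).sum ≤ 16 * L * x * δ →
      (16 * L * x + 1) ^ (j + 1) * mu rows.length Y' < (16 * L * x) ^ (j + 1) * 2 ^ K := by
    intro Y' h1 δ h2 h3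
    have a1 := mu_step hG hm h1 (by nlinarith only [h2, h3, hG])
    have a2 := Nat.mul_le_mul_left ((16 * L * x + 1) ^ j) a1
    have a3 := Nat.mul_lt_mul_of_pos_left hs.pot hG
    rw [pow_succ, pow_succ]
    linarith only [a2, a3]
  obtain ⟨b1, -, -⟩ := hs.grp_spec hP h0
  rcases List.mem_append.1 hc with hc | hc
  · obtain ⟨i, hi, rfl⟩ := List.mem_map.1 hc
    obtain ⟨c1, c2⟩ := List.mem_filter.1 hi
    refine ⟨fun S hS => ?_, fun S hS => hs.szS S (List.mem_filter.1 hS).1,
      (List.length_filter_le _ _).trans hs.len, hs.szX.trans (by gcongr; omega), ?_,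
      pot _ (fun _ => List.filter_sublist.countP_le) _ (del_mass _ _
        (thr rows.length L (hv rows.length s.2.2) s.2.2) i) ?_, hle⟩
    · obtain ⟨d1, d2⟩ := List.mem_filter.1 hS
      refine ⟨(hs.circ S d1).1, fun a ha hz => ?_⟩
      rcases List.mem_cons.1 hz with rfl | hz
      · simp [ha] at d2
      · exact (hs.circ S d1).2 a ha hz
    · have := hs.szZ
      have := List.mem_range.1 c1
      simp only [sz_cons, sz_nat, Nat.add_mul j]; omega
    · refine (thr_spec hP.hL hv_length hP.L0).trans ?_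
      have d1 : (wset rows.length L s.2.2).length ≤ x * deg (wset rows.length L s.2.2) i := by
        simpa using c2
      unfold wset at d1
      generalize thr rows.length L (hv rows.length s.2.2) s.2.2 = c at d1 ⊢
      have := Nat.mul_le_mul_left (c * L) d1
      linarith only [this, Nat.zero_le (L * x * (c * deg (upper (hv rows.length s.2.2) s.2.2 c) i))]
  · obtain ⟨U, hU, rfl⟩ := List.mem_map.1 hc
    obtain ⟨-, c2⟩ := b1 U hU
    have dg := deg_childY D rows (0, s.2) U
    refine ⟨fun R hR => ⟨(circT_iff ..).1 (List.mem_filter.1 hR).2, ?_⟩, fun R hR => ?_,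
      (List.length_filter_le _ _).trans (by simpa using hs.len), ?_,
      hs.szZ.trans (by gcongr; omega), pot _ (fun i => (dg i).trans (by split_ifs <;> simp)) _
        (con_mass (fun i hi => (mem_hv.1 hi).2) dg) ?_, hle⟩
    · obtain ⟨S, h1, rfl⟩ := List.mem_map.1 (List.mem_filter.1 hR).1
      exact fun i hi => (hs.circ S h1).2 i (List.mem_filter.1 hi).1
    · obtain ⟨S, h1, rfl⟩ := List.mem_map.1 (List.mem_filter.1 hR).1
      exact (sz_filter_le _ _).trans (hs.szS S h1)
    · have d1 := hs.szX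
      have d2 := sz_le_of_mem hU
      have d3 := gstep_sz (hv rows.length s.2.2) (thr rows.length L (hv rows.length s.2.2) s.2.2)
        (8 * L * x) (wset rows.length L s.2.2) (wset rows.length L s.2.2).length
      have d4 : sz (wset rows.length L s.2.2) ≤ sz s.2.2 := sz_filter_le _ _
      have d5 := (sz_list_le _ _ hs.szS).trans (Nat.mul_le_mul_right _ hs.len)
      unfold grp groups at d2
      simp only [sz_append, Nat.add_mul j]; omega
    · refine mass_le.trans ((Nat.mul_le_mul_right _ c2).trans (le_of_eq ?_))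
      ring

theorem Good3.kids_length (hP : Par3 D rows L x n t N0 tl Tup) {G : ℕ} {s : St3}
    (hs : Good3 D rows G n B K j s) : (kids3 D rows L x s).length ≤ rows.length + n := by
  unfold kids3
  split_ifs with h0
  · simp
  · have a1 := (hs.grp_spec hP h0).2.1
    have a2 : (wset rows.length L s.2.2).length ≤ s.2.2.length := List.length_filter_le _ _
    have a3 : (freq rows.length L x s.2.2).length ≤ rows.length :=
      (List.length_filter_le _ _).trans (by simp)
    have a4 := hs.len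
    simp only [List.length_append, List.length_map]; omega

theorem comp3_iff (hP : Par3 D rows L x n t N0 tl Tup) {G : ℕ} {s : St3}
    (hs : Good3 D rows G n B K j s) : Comp3 D rows s ↔
      ok3 tl D rows L x Tup s = true ∧ ∀ c ∈ kids3 D rows L x s, Comp3 D rows c := by
  classical
  have hM := hf_zero D rows
  unfold ok3 kids3
  split_ifs with h0
  · rw [leaf_iff hP.low, Comp3, List.isEmpty_iff.1 h0]; simp
  obtain ⟨b1, -, b3⟩ := hs.grp_spec hP h0
  simp only [List.all_eq_true, loc3, chk, Bool.or_eq_true, Bool.not_eq_true', known_iff,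
    List.mem_append, List.mem_map, Bool.and_eq_false_iff]
  constructor
  · intro hc
    refine ⟨fun U _ τ _ τ' _ => ?_, ?_⟩
    · generalize cand3 _ _ _ _ = R
      by_contra hno
      simp only [not_or, Bool.not_eq_false, List.all_eq_true, decide_eq_true_eq] at hno
      exact hno.2 (hc _ ((circT_iff ..).1 hno.1.1) fun i hi => by
        simpa using hno.1.2 i (by simpa using hi))
    · rintro c (⟨i, -, rfl⟩ | ⟨U, hU, rfl⟩)
      · intro R hR hZ
        obtain ⟨S, a1, rfl⟩ := hc R hR fun a ha hz => hZ a ha (by simp at hz ⊢; exact Or.inr hz)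
        exact ⟨S, List.mem_filter.2 ⟨a1, by
          simpa using fun hi => hZ i (by simpa using hi) (by simp)⟩, rfl⟩
      · simp only [Comp3, List.toFinset_append, fam_childY]
        exact CompZ.child hM hc (b1 U hU).1.1 fun i hi => by
          simpa using ((b1 U hU).1.2 i (by simpa using hi)).2
  · rintro ⟨hl, hk⟩ R hR hZ
    by_cases hf' : ∃ i ∈ freq rows.length L x s.2.2, i ∉ R
    · obtain ⟨i, a1, a2⟩ := hf'
      obtain ⟨S, a3, rfl⟩ := hk _ (Or.inl ⟨i, a1, rfl⟩) R hR fun a ha hz => by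
        simp only [List.toFinset_cons, mem_insert] at hz
        rcases hz with rfl | hz
        · exact a2 ha
        · exact hZ a ha hz
      exact ⟨S, (List.mem_filter.1 a3).1, rfl⟩
    push Not at hf'
    obtain ⟨β, c1, c2, c3⟩ := exists_basis (h := hf D rows)
      (range rows.length \ (s.2.1.toFinset ∪ R))
    have c4 : ∀ i ∈ β, i < rows.length ∧ i ∉ s.2.1 ∧ i ∉ R := fun i hi => by simpa using c1 hi
    have c5 : ∀ z, (∀ i ∈ β, hf D rows i z = 0) → Van (hf D rows) s.2.1.toFinset R z := by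
      intro z hz i a1 a2
      by_cases hi : i < rows.length
      · exact c3 z hz i (by simpa [hi, a2] using a1)
      · rw [hM i (not_lt.1 hi)]; rfl
    obtain ⟨U, hU, c6⟩ := b3 β.toList (by simpa using c2) fun i hi => by
      have := c4 i (mem_toList.1 hi)
      by_contra hlt
      exact this.2.2 (hf' i (List.mem_filter.2 ⟨List.mem_range.2 this.1, by
        simpa using (not_le.1 hlt).le⟩))
    have hc := hk _ (Or.inr ⟨U, hU, rfl⟩)
    simp only [Comp3, List.toFinset_append] at hc
    rw [cov, List.countP_eq_length_filter] at c6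
    have c7 : ∀ i, i ∈ (β.toList.filter fun i => decide (i ∈ U)) ↔ i ∈ β ∧ i ∈ U := by simp
    generalize (β.toList.filter fun i => decide (i ∈ U)) = γ at c6 c7
    obtain ⟨J, h1, h2, h3⟩ := exists_cover' hM (S := U.toFinset) (β := γ.toFinset) hR
      fun z hz hz' => c5 z fun i hi => by
        by_cases e : i ∈ U
        · exact hz' i (List.mem_toFinset.2 ((c7 i).2 ⟨hi, e⟩))
        · exact hz i (by simp [e, (c4 i hi).2.1]) (c4 i hi).2.2
    have c8 := List.toFinset_card_le γ
    have hlen : (childY D rows (0, s.2) U).length ≤ N0 :=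
      ((List.length_filter_le _ _).trans (by simpa using hs.len)).trans hP.hn
    have hl' := hl U hU
    generalize childY D rows (0, s.2) U = Y' at hc hlen hl'
    have idx : ∀ T ∈ J, ∃ a < Y'.length, (Y'.getD a []).toFinset = T := by
      intro T hT
      obtain ⟨S', a1, a2⟩ := hc T (h2 T hT) fun i hi =>
        hZ i (mem_sdiff.1 ((h3 i).2 ⟨T, hT, hi⟩)).1
      obtain ⟨a, ha, rfl⟩ := List.getElem_of_mem a1
      exact ⟨a, ha, by rw [List.getD_eq_getElem _ _ ha, a2]⟩
    choose! ix ix1 ix2 using idx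
    obtain ⟨τ, d1, d2, d3, d4⟩ := exists_tuple' (J.toList.map ix) (t + 1) N0 (by simp; omega) (by
      intro a ha
      obtain ⟨T, hT, rfl⟩ := List.mem_map.1 ha
      exact (ix1 T (mem_toList.1 hT)).le.trans hlen)
    obtain ⟨τ', e1, e2, e3, e4⟩ := exists_tuple' γ (t + 1) N0 (by omega) fun a ha =>
      (c4 a ((c7 a).1 ha).1).1.le.trans hP.hM
    have sg : ∀ i, i ∈ U ++ τ.flatMap (fun a => Y'.getD a []) ↔ i ∈ U ∨ i ∈ R := by
      intro i
      rw [List.mem_append, List.mem_flatMap]
      refine or_congr_right' fun hi => ⟨fun ⟨a, ha, hi'⟩ => ?_, fun hi' => ?_⟩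
      · rcases d3 a ha with e | e
        · obtain ⟨T, hT, rfl⟩ := List.mem_map.1 e
          have hT' := mem_toList.1 hT
          exact (mem_sdiff.1 ((h3 i).2 ⟨T, hT', ix2 T hT' ▸ List.mem_toFinset.2 hi'⟩)).1
        · rw [List.getD_eq_default _ _ (by omega)] at hi'
          simp at hi'
      · obtain ⟨T, hT, hiT⟩ := (h3 i).1 (mem_sdiff.2 ⟨hi', by simpa using hi⟩)
        refine ⟨ix T, d4 _ (List.mem_map.2 ⟨T, mem_toList.2 hT, rfl⟩), ?_⟩
        rw [← List.mem_toFinset, ix2 T hT]; exact hiT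
    have key := cand3_eq (τ := τ') hR (fun i hi => (sg i).2 (Or.inr hi)) (fun i hi hi' => by
      rcases e3 i hi with e | e
      · exact (c4 i ((c7 i).1 e).1).2
      · have := hP.hM; omega) fun z hz => c5 z fun i hi => hz i (by
        by_cases e : i ∈ U
        · exact Or.inr (e4 i ((c7 i).2 ⟨hi, e⟩))
        · exact Or.inl ⟨(c4 i hi).2.1, by simp only [sg, e, (c4 i hi).2.2]; simp⟩)
    have fin := hl' τ (hP.tup τ d1 d2) τ' (hP.tup τ' e1 e2)
    generalize cand3 _ _ _ _ = R' at key fin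
    subst key
    refine fin.resolve_left ?_
    rw [(circT_iff ..).2 hR]
    simpa using hZ

section pt
variable {α : Type} [Enc α] {fD fM fL fx : α → ℕ} {fr : α → List (List ℚ)} {fs : α → St3}
  {fY fT : α → List (List ℕ)} {fX fZ fU : α → List ℕ}

@[fun_prop] theorem pt_wset (h0 : PT fM) (h1 : PT fL) (h2 : PT fY) :
    PT fun a => wset (fM a) (fL a) (fY a) := by
  unfold wset; fun_prop

@[fun_prop] theorem pt_grp (h0 : PT fM) (h1 : PT fL) (h3 : PT fx) (h2 : PT fY) :
    PT fun a => grp (fM a) (fL a) (fx a) (fY a) := by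
  unfold grp; fun_prop

@[fun_prop] theorem pt_freq (h0 : PT fM) (h1 : PT fL) (h3 : PT fx) (h2 : PT fY) :
    PT fun a => freq (fM a) (fL a) (fx a) (fY a) := by
  unfold freq; fun_prop

@[fun_prop] theorem pt_kids3 (h0 : PT fD) (h4 : PT fr) (h1 : PT fL) (h3 : PT fx) (h2 : PT fs) :
    PT fun a => kids3 (fD a) (fr a) (fL a) (fx a) (fs a) := by
  unfold kids3; fun_prop

@[fun_prop] theorem pt_rows2 (h4 : PT fr) (h1 : PT fZ) (h3 : PT fX) :
    PT fun a => rows2 (fr a) (fZ a) (fX a) := by
  unfold rows2; fun_prop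

@[fun_prop] theorem pt_crow (h4 : PT fr) (h1 : PT fZ) (h3 : PT fX) (h2 : PT fU) :
    PT fun a => crow (fr a) (fZ a) (fX a) (fU a) := by
  unfold crow; fun_prop

@[fun_prop] theorem pt_cand3 {st : α → List Piv} (h0 : PT fD) (h4 : PT fr) (h3 : PT fX)
    (h2 : PT st) : PT fun a => cand3 (fD a) (fr a) (fX a) (st a) := by
  unfold cand3; fun_prop

@[fun_prop] theorem pt_chk (h0 : PT fD) (h4 : PT fr) (h2 : PT fs) (h3 : PT fX) :
    PT fun a => chk (fD a) (fr a) (fs a) (fX a) := by
  unfold chk; fun_prop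

@[fun_prop] theorem pt_loc3 (h0 : PT fD) (h4 : PT fr) (h1 : PT fT) (h2 : PT fs) (h3 : PT fU)
    (h5 : PT fY) : PT fun a => loc3 (fD a) (fr a) (fT a) (fs a) (fU a) (fY a) := by
  unfold loc3; fun_prop

theorem pt_leaf (ht : PT tl) (h0 : PT fD) (h4 : PT fr) : PT fun a => leaf tl (fD a) (fr a) := by
  unfold leaf; fun_prop

theorem pt_ok3 (ht : PT tl) (h0 : PT fD) (h4 : PT fr) (h1 : PT fL) (h3 : PT fx) (h5 : PT fT)
    (h2 : PT fs) : PT fun a => ok3 tl (fD a) (fr a) (fL a) (fx a) (fT a) (fs a) := by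
  unfold ok3
  exact PT.ite (by fun_prop) (pt_leaf ht h0 (by fun_prop)) (by fun_prop)

end pt

end Pool.Agent.Work.MP_0bf9cb_lc
end

-- merged part: Pool.Agent.Work.MP_0bf9cb_lc.Main3
section
/-!
The second algorithm on padded inputs.
-/

namespace Pool.Agent.Work.MP_0bf9cb_lc

open Pool.Agent.Lib.Poly Finset

def lgI (a : Inp) : ℕ := Nat.size ((rowsI a).length + (famI a).length)

def xI (e : Inp → ℕ) (a : Inp) : ℕ := e a / lgI a ^ 3 + 1

def depth3 (e : Inp → ℕ) (a : Inp) : ℕ := 16 * lgI a * xI e a * (lgI a * lgI a + 3 * lgI a) + 1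

def run3 (tl : ℕ → ℕ) (e : Inp → ℕ) (a : Inp) (j : ℕ) : List St3 × Bool :=
  (bfs (kids3 (dimI a) (rowsI a) (lgI a) (xI e a))
    (ok3 tl (dimI a) (rowsI a) (lgI a) (xI e a) (tups (sz a + 1) (6 * e a + 1))))^[j]
    ([([], [], famI a)], true)

/-- The condition under which the second algorithm is used. -/
def Cond3 (a : Inp) (e : ℕ) : Prop := (dimI a - 1) * lgI a ^ 3 ≤ e ^ 2 ∧ e + 1 < dimI a

variable {tl : ℕ → ℕ} {e : Inp → ℕ}

theorem pt_lgI : PT lgI := by
  have := pt_rowsI
  have := pt_famI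
  unfold lgI; fun_prop

theorem lgI_pos (a : Inp) : 0 < lgI a := Nat.size_pos.2 (by rw [length_rowsI]; omega)

theorem cond3_facts {a : Inp} (h : Cond3 a (e a)) :
    6 * dimI a < (6 * e a + 1) * xI e a ∧ depth3 e a ≤ 128 * e a + 1 := by
  obtain ⟨h1, h2⟩ := h
  have hL := lgI_pos a
  have h3 : 0 < lgI a ^ 3 := by positivity
  have h4 : e a < lgI a ^ 3 * xI e a := Nat.lt_mul_div_succ _ h3
  have h5 : lgI a ^ 3 * xI e a ≤ e a + lgI a ^ 3 := by
    have := Nat.mul_div_le (e a) (lgI a ^ 3)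
    rw [xI, Nat.mul_add]; omega
  have h6 : (e a + 1) * lgI a ^ 3 ≤ e a ^ 2 := (Nat.mul_le_mul_right _ (by omega)).trans h1
  have h7 : lgI a ^ 3 ≤ e a := by nlinarith only [h3, h6]
  have h8 : dimI a ≤ xI e a * e a := by
    by_contra hlt
    have a1 : xI e a * e a * lgI a ^ 3 ≤ (dimI a - 1) * lgI a ^ 3 :=
      Nat.mul_le_mul_right _ (by omega)
    nlinarith only [h1, h3, h7, a1, h4]
  have h9 : 0 < xI e a := Nat.succ_pos _
  refine ⟨by linarith only [h8, h9], ?_⟩
  have a1 : lgI a * 1 ≤ lgI a * lgI a := Nat.mul_le_mul_left _ hL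
  have a2 : 16 * lgI a * xI e a * (lgI a * lgI a + 3 * lgI a) ≤
      16 * lgI a * xI e a * (4 * (lgI a * lgI a)) := Nat.mul_le_mul_left _ (by omega)
  unfold depth3
  linarith only [h5, h7, a2]

theorem par3 (htl : ∀ D R, Low D R (tl (sz (D, R)))) {a : Inp} (h : Cond3 a (e a)) :
    Par3 (dimI a) (rowsI a) (lgI a) (xI e a) (sz a) (6 * e a) (sz a + 1) tl
      (tups (sz a + 1) (6 * e a + 1)) := by
  refine ⟨htl _, fun τ h1 h2 => mem_tups.2 ⟨h1, h2⟩, by omega, ?_,
    (Nat.le_add_right _ _).trans_lt (Nat.lt_size_self _), lgI_pos a, Nat.succ_pos _,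
    (cond3_facts h).1⟩
  have h1 := (length_le_sz a.1).trans (sz_fst_le a)
  rw [length_rowsI]; omega

theorem good3 {a : Inp} (h : ∀ S ∈ famI a, Circ (hf (dimI a) (rowsI a)) ∅ S.toFinset) (G : ℕ) :
    Good3 (dimI a) (rowsI a) G (sz a) ((sz a + 1) * (2 * (sz a + 1) + 1))
      (lgI a * lgI a + 3 * lgI a) 0 ([], [], famI a) :=
  ⟨fun S hS => ⟨h S hS, by simp⟩, sz_famI a, length_famI_le a, by simp, by simp, by
    simpa using mu_lt (L := lgI a) ((Nat.le_add_right _ _).trans_lt (Nat.lt_size_self _))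
      ((Nat.le_add_left _ _).trans_lt (Nat.lt_size_self _)), Nat.zero_le _⟩

theorem run3_facts (htl : ∀ D R, Low D R (tl (sz (D, R)))) {a : Inp} (h : Cond3 a (e a))
    (hc : ∀ S ∈ famI a, Circ (hf (dimI a) (rowsI a)) ∅ S.toFinset) (j : ℕ) :
    (∀ c ∈ (run3 tl e a j).1, Good3 (dimI a) (rowsI a) (16 * lgI a * xI e a) (sz a)
      ((sz a + 1) * (2 * (sz a + 1) + 1)) (lgI a * lgI a + 3 * lgI a) j c) ∧
    (Comp3 (dimI a) (rowsI a) ([], [], famI a) ↔ (run3 tl e a j).2 = true ∧
      ∀ c ∈ (run3 tl e a j).1, Comp3 (dimI a) (rowsI a) c) ∧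
    (run3 tl e a j).1.length ≤ ((rowsI a).length + sz a) ^ j :=
  bfs_iter (G := Good3 (dimI a) (rowsI a) (16 * lgI a * xI e a) (sz a)
      ((sz a + 1) * (2 * (sz a + 1) + 1)) (lgI a * lgI a + 3 * lgI a))
    (fun _ _ hs => hs.kids (par3 htl h)) (fun _ _ hs => comp3_iff (par3 htl h) hs)
    (fun _ _ hs => hs.kids_length (par3 htl h)) (good3 hc _) j

theorem run3_spec (htl : ∀ D R, Low D R (tl (sz (D, R)))) {a : Inp} (h : Cond3 a (e a))
    (hc : ∀ S ∈ famI a, Circ (hf (dimI a) (rowsI a)) ∅ S.toFinset) :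
    (run3 tl e a (depth3 e a)).2 = true ↔ Comp (hf (dimI a) (rowsI a)) ∅ (fam (famI a)) := by
  obtain ⟨h1, h2, -⟩ := run3_facts htl h hc (depth3 e a)
  rw [and_iff_left fun c hc => absurd (h1 c hc).le (by unfold depth3; omega)] at h2
  rw [← h2]
  simp [Comp3, CompZ, Comp]

theorem pt_run3 (htl : ∀ D R, Low D R (tl (sz (D, R)))) (ht : PT tl) (he : PT e)
    {go : Inp → Bool} (hgo : PT go) {α : Type} [Enc α] {inp : α → Inp} (h4 : PT inp)
    (hp : ∀ x, pad e (inp x) ≤ sz x ∧ (go (inp x) = true → Cond3 (inp x) (e (inp x)) ∧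
      ∀ S ∈ famI (inp x), Circ (hf (dimI (inp x)) (rowsI (inp x))) ∅ S.toFinset)) :
    PT fun p => run3 tl e (inp p) (bif go (inp p) then depth3 e (inp p) else 0) := by
  have h1 := pt_dimI
  have h2 := pt_rowsI
  have h3 := pt_famI
  have h6 := pt_lgI
  have h7 : PT (xI e) := by unfold xI; fun_prop
  have h8 : PT (depth3 e) := by unfold depth3; fun_prop
  have h5 : PT fun p => tups (sz (inp p) + 1) (6 * e (inp p) + 1) :=
    pt_tups (by fun_prop) (by fun_prop) (fun n => n ^ 6) (by fun_prop) fun p => by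
      refine le_trans ?_ (Nat.pow_le_pow_left (hp p).1 6)
      rw [pad, ← pow_mul]
      exact Nat.pow_le_pow_right (by omega) (by omega)
  have h9 : PT fun q : (α × List St3 × Bool) × St3 => ok3 tl (dimI (inp q.1.1)) (rowsI (inp q.1.1))
      (lgI (inp q.1.1)) (xI e (inp q.1.1)) (tups (sz (inp q.1.1) + 1) (6 * e (inp q.1.1) + 1))
      q.2 := pt_ok3 ht (by fun_prop) (by fun_prop) (by fun_prop) (by fun_prop)
        (h5.comp (by fun_prop)) (by fun_prop)
  refine pt_iter (f := fun p => bfs (kids3 (dimI (inp p)) (rowsI (inp p)) (lgI (inp p))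
    (xI e (inp p))) (ok3 tl (dimI (inp p)) (rowsI (inp p)) (lgI (inp p)) (xI e (inp p))
      (tups (sz (inp p) + 1) (6 * e (inp p) + 1))))
    (PT.mk (by fun_prop) (PT.and (by fun_prop) (PT.all h9 (by fun_prop)))) (by fun_prop)
    (by fun_prop) (fun n => 2 * ((n ^ 256 + 1) * (2 * (2 * ((128 * n + 1) * (2 * (n + 1) + 1)) + 1 +
      (2 * ((128 * n + 1) * (n * (2 * ((n + 1) * (2 * (n + 1) + 1)) + 1))) + 1 +
        n * (2 * ((n + 1) * (2 * (n + 1) + 1)) + 1))) + 1)) + 2) (by fun_prop) fun p i hi => ?_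
  have a1 := (hp p).1
  have a2 : sz (inp p) ≤ sz p := by have := le_pad e (inp p); omega
  have b2 : sz (inp p) * (2 * ((sz (inp p) + 1) * (2 * (sz (inp p) + 1) + 1)) + 1) ≤
      sz p * (2 * ((sz p + 1) * (2 * (sz p + 1) + 1)) + 1) := by gcongr
  cases hg : go (inp p)
  · rw [hg] at hi
    obtain rfl : i = 0 := by simpa using hi
    have b1 := (sz_list_le _ _ (sz_famI (inp p))).trans
      (Nat.mul_le_mul_right _ (length_famI_le (inp p)))
    simp only [Function.iterate_zero, id_eq, sz_pair, sz_cons, sz_nil, sz_bool]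
    rw [Nat.add_mul (sz p ^ 256) 1]
    omega
  · rw [hg] at hi
    obtain ⟨b1, b3⟩ := (hp p).2 hg
    obtain ⟨c1, -, c2⟩ := run3_facts htl b1 b3 i
    have c3 : i ≤ 128 * e (inp p) + 1 := hi.trans (cond3_facts b1).2
    have c4 : e (inp p) ≤ sz p := by
      have := dimI_le (inp p)
      have := b1.2
      omega
    have c5 : (rowsI (inp p)).length ≤ sz (inp p) + 1 := (par3 htl b1).hM
    have c6 : ((rowsI (inp p)).length + sz (inp p)) ^ i ≤ sz p ^ 256 + 1 := by
      refine le_trans ?_ ((Nat.pow_le_pow_left a1 256).trans (Nat.le_succ _))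
      refine (Nat.pow_le_pow_left (show _ ≤ (sz (inp p) + 2) ^ 2 by linarith only [c5, sq_nonneg (↑(sz (inp p)) + (2 : ℤ)), mul_nonneg_of_nonpos_of_nonpos (Mathlib.Tactic.Linarith.sub_nonpos_of_le (Mathlib.Tactic.Linarith.natCast_nonneg ℤ (sz (inp p)))) (Mathlib.Tactic.Linarith.sub_nonpos_of_le (Mathlib.Tactic.Linarith.natCast_nonneg ℤ (sz (inp p))))]) i).trans ?_
      rw [pad, ← pow_mul, ← pow_mul]
      exact Nat.pow_le_pow_right (by omega) (by omega)
    change sz (run3 tl e (inp p) i) ≤ _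
    generalize run3 tl e (inp p) i = q at c1 c2
    obtain ⟨Ls, f⟩ := q
    have c7 := (sz_list_le Ls (2 * ((128 * sz p + 1) * (2 * (sz p + 1) + 1)) + 1 +
      (2 * ((128 * sz p + 1) * (sz p * (2 * ((sz p + 1) * (2 * (sz p + 1) + 1)) + 1))) + 1 +
        sz p * (2 * ((sz p + 1) * (2 * (sz p + 1) + 1)) + 1))) fun c hc => by
      have g := c1 c hc
      have d1 := g.szZ.trans (Nat.mul_le_mul (show i ≤ 128 * sz p + 1 by omega)
        (show _ ≤ 2 * (sz p + 1) + 1 by omega))
      have d2 := g.szX.trans (Nat.mul_le_mul (show i ≤ 128 * sz p + 1 by omega) b2)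
      have d3 := ((sz_list_le _ _ g.szS).trans (Nat.mul_le_mul_right _ g.len)).trans b2
      obtain ⟨Z, X, Y⟩ := c
      simp only [sz_pair] at d1 d2 d3 ⊢
      omega).trans (Nat.mul_le_mul_right _ (c2.trans c6))
    simp only [sz_pair, sz_bool]
    omega

end Pool.Agent.Work.MP_0bf9cb_lc
end
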